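import Pool.Agent.Lib.MP_31bf45_nt.Om.KerB
import Pool.Agent.Lib.MP_b09185_nt.ShLoc
import Pool.Agent.Lib.MP_b09185_nt.ShChi

/-! Local factorisation of zeta with a normalised logarithm. -/

set_option autoImplicit false

namespace Pool.Agent.Lib.MP_31bf45_nt.Om

open Complex Finset MeasureTheory Metric Pool.Agent.Lib.MP_b09185_nt.Sh

theorem land_step {f : ℂ → ℂ} {c ρ : ℂ} {B : ℝ} (hf : DifferentiableOn ℂ f (ball c 16))
    (hB : ∀ z ∈ ball c 16, ‖f z‖ ≤ B) (hρ : ρ ∈ ball c 5) (hz : f ρ = 0) :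
    ∃ g : ℂ → ℂ, DifferentiableOn ℂ g (ball c 16) ∧ (∀ z ∈ ball c 16, ‖g z‖ ≤ B) ∧
      (∀ z, 10 * f z = (z - ρ) * g z) ∧ 2 * ‖f c‖ ≤ ‖g c‖ := by
  have hρ' : ρ ∈ ball c 16 := ball_subset_ball (by norm_num) hρ
  have hρn : ‖c - ρ‖ < 5 := by rwa [mem_ball, dist_comm, dist_eq_norm] at hρ
  have hgd : DifferentiableOn ℂ (fun z => 10 * dslope f ρ z) (ball c 16) :=
    ((differentiableOn_dslope (isOpen_ball.mem_nhds hρ')).2 hf).const_mul _
  have key : ∀ z, 10 * f z = (z - ρ) * (10 * dslope f ρ z) := fun z => by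
    have := sub_smul_dslope f ρ z
    rw [hz, sub_zero, smul_eq_mul] at this
    rw [← this]
    ring
  have keyn : ∀ z, 10 * ‖f z‖ = ‖z - ρ‖ * ‖10 * dslope f ρ z‖ := fun z => by
    have := congrArg norm (key z)
    rwa [norm_mul, norm_mul, Complex.norm_ofNat] at this
  have hout : ∀ z ∈ ball c 16, 15 ≤ ‖z - c‖ → ‖10 * dslope f ρ z‖ ≤ B := fun z hz1 hz2 => by
    have h1 : 10 ≤ ‖z - ρ‖ := by
      have := norm_sub_le_norm_sub_add_norm_sub z ρ c
      rw [norm_sub_rev ρ c] at this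
      linarith
    have h2 := keyn z
    have h3 := hB z hz1
    nlinarith [norm_nonneg (10 * dslope f ρ z)]
  refine ⟨_, hgd, fun z hz1 => ?_, key, ?_⟩
  · rcases le_or_gt 15 ‖z - c‖ with h | h
    · exact hout z hz1 h
    · have hsub : closedBall c 15 ⊆ ball c 16 := closedBall_subset_ball (by norm_num)
      apply norm_le_of_forall_mem_frontier_norm_le (f := fun z => 10 * dslope f ρ z)
        (U := ball c 15) isBounded_ball
      · apply DifferentiableOn.diffContOnCl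
        rw [closure_ball c (by norm_num)]
        exact hgd.mono hsub
      · intro w hw
        rw [frontier_ball c (by norm_num)] at hw
        refine hout w (hsub (sphere_subset_closedBall hw)) ?_
        rw [mem_sphere, dist_eq_norm] at hw
        exact hw.ge
      · apply subset_closure
        rwa [mem_ball, dist_eq_norm]
  · have h2 := keyn c
    nlinarith [norm_nonneg (10 * dslope f ρ c)]

theorem land_fac {c : ℂ} {B : ℝ} (m : ℕ) : ∀ f : ℂ → ℂ, DifferentiableOn ℂ f (ball c 16) →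
    (∀ z ∈ ball c 16, ‖f z‖ ≤ B) → B < 2 ^ m * ‖f c‖ →
    ∃ (n : ℕ) (ρ : Fin n → ℂ) (g : ℂ → ℂ), n ≤ m ∧ (∀ i, ρ i ∈ ball c 5) ∧
      DifferentiableOn ℂ g (ball c 16) ∧ (∀ z ∈ ball c 16, ‖g z‖ ≤ B) ∧
      (∀ z ∈ ball c 5, g z ≠ 0) ∧ ‖f c‖ ≤ ‖g c‖ ∧ ∀ z, 10 ^ n * f z = (∏ i, (z - ρ i)) * g z := by
  induction m with
  | zero =>
    intro f _ hB h
    have := hB c (mem_ball_self (by norm_num))
    rw [pow_zero, one_mul] at h
    linarith
  | succ m ih =>
    intro f hf hB hn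
    by_cases h : ∃ ρ ∈ ball c 5, f ρ = 0
    · obtain ⟨a, ha, ha0⟩ := h
      obtain ⟨g, hg, hgB, e, hgc⟩ := land_step hf hB ha ha0
      obtain ⟨n, ρ, k, h1, h2, h3, h4, h5, h6, h7⟩ := ih g hg hgB (hn.trans_le (by
        rw [pow_succ, mul_assoc]
        exact mul_le_mul_of_nonneg_left hgc (by positivity)))
      refine ⟨n + 1, Fin.cons a ρ, k, by omega, fun i => ?_, h3, h4, h5,
        by linarith [norm_nonneg (f c)], fun z => ?_⟩
      · refine Fin.cases ?_ (fun j => ?_) i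
        · exact ha
        · exact h2 j
      · rw [Fin.prod_univ_succ, pow_succ, mul_assoc, e z, mul_left_comm, h7 z, mul_assoc]
        rfl
    · refine ⟨0, Fin.elim0, f, Nat.zero_le _, fun i => i.elim0, hf, hB,
        fun z hz h0 => h ⟨z, hz, h0⟩, le_rfl, fun z => by simp⟩

theorem land_const {φ : ℝ → ℂ} {S : Set ℝ} (hS : IsPreconnected S) (hc : ContinuousOn φ S)
    (h : ∀ y ∈ S, exp (φ y) = 1) {x y : ℝ} (hx : x ∈ S) (hy : y ∈ S) : φ x = φ y :=
  hS.constant_of_mapsTo (T := (AddSubgroup.zmultiples (2 * Real.pi * I : ℂ) : Set ℂ))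
    ⟨NormedSpace.discreteTopology_zmultiples _⟩ hc (fun y hy => by
      obtain ⟨n, hn⟩ := exp_eq_one_iff.1 (h y hy)
      exact ⟨n, by simp [hn]⟩) hx hy

theorem land_log {w : ℂ} (h1 : 1 ≤ w.re) (h2 : ‖w‖ ≤ 5) : ‖log w‖ ≤ 8 := by
  have a := norm_le_abs_re_add_abs_im (log w)
  rw [log_re, log_im] at a
  have b : 1 ≤ ‖w‖ := h1.trans (re_le_norm w)
  have c := Real.log_le_sub_one_of_pos (zero_lt_one.trans_le b)
  rw [abs_of_nonneg (Real.log_nonneg b)] at a
  linarith [abs_arg_le_pi w, Real.pi_le_four]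

theorem land_zeta : ∃ C : ℝ, 1 ≤ C ∧ ∀ t : ℝ, 20 ≤ t →
    DifferentiableOn ℂ riemannZeta (ball (2 + t * I) 16) ∧
    ∀ z ∈ ball (2 + t * I : ℂ) 16, ‖riemannZeta z‖ ≤ Real.exp (C * Real.log t) / 2 := by
  obtain ⟨C, C1, hC⟩ := zeta_strip 18
  have l0 : 0 ≤ Real.log (2 * C * 2 ^ 19) := Real.log_nonneg (by nlinarith)
  refine ⟨Real.log (2 * C * 2 ^ 19) + 19, by linarith, fun t ht => ?_⟩
  have hb : ∀ z ∈ ball (2 + t * I : ℂ) 16, |z.re - 2| < 16 ∧ |z.im - t| < 16 := fun z hz => by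
    rw [mem_ball, dist_eq_norm] at hz
    exact ⟨by simpa using (abs_re_le_norm _).trans_lt hz,
      by simpa using (abs_im_le_norm _).trans_lt hz⟩
  refine ⟨fun z hz => (differentiableAt_riemannZeta fun e => ?_).differentiableWithinAt,
    fun z hz => ?_⟩
  · have := abs_lt.1 (hb z hz).2
    rw [e, one_im] at this
    linarith
  · have h1 := abs_lt.1 (hb z hz).1
    have h2 := abs_lt.1 (hb z hz).2
    have h3 : |z.im| = z.im := abs_of_nonneg (by linarith)
    have h4 := hC z (abs_le.2 ⟨by push_cast; linarith, by push_cast; linarith⟩) (by linarith)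
    have t0 : 0 < t := by linarith
    have l1 : 1 ≤ Real.log t := by
      rw [Real.le_log_iff_exp_le t0]
      linarith [Real.exp_one_lt_d9]
    have h5 : |z.im| ^ (18 + 1) ≤ (2 * t) ^ 19 :=
      pow_le_pow_left₀ (abs_nonneg _) (by linarith) _
    have h6 : 2 * C * 2 ^ 19 * t ^ 19 ≤
        Real.exp ((Real.log (2 * C * 2 ^ 19) + 19) * Real.log t) := by
      calc 2 * C * 2 ^ 19 * t ^ 19
          = Real.exp (Real.log (2 * C * 2 ^ 19) + (19 : ℕ) * Real.log t) := by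
            rw [Real.exp_add, Real.exp_log (by positivity), Real.exp_nat_mul, Real.exp_log t0]
        _ ≤ _ := Real.exp_le_exp.2 (by push_cast; nlinarith)
    rw [mul_pow] at h5
    have h7 := h4.trans (mul_le_mul_of_nonneg_left h5 (zero_le_one.trans C1))
    rw [le_div_iff₀ two_pos]
    exact (mul_le_mul_of_nonneg_right h7 two_pos.le).trans (le_of_eq_of_le (by ring) h6)

theorem land : ∃ C : ℝ, 0 ≤ C ∧ ∀ t : ℝ, 20 ≤ t → ∃ (n : ℕ) (ρ : Fin n → ℂ) (G : ℂ → ℂ),
    n ≤ C * Real.log t ∧ (∀ i, riemannZeta (ρ i) = 0 ∧ ρ i ∈ ball (2 + t * I) 5) ∧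
    DifferentiableOn ℂ G (ball (2 + t * I) 5) ∧
    (∀ s ∈ closedBall (2 + t * I) (5 / 2), ‖G s‖ ≤ C * Real.log t) ∧
    (∀ s ∈ ball (2 + t * I) 5, riemannZeta s = (∏ i, (s - ρ i)) * exp (G s)) ∧
    ∀ y : ℝ, |y - t| ≤ 2 → ∑ i, log (2 + y * I - ρ i) + G (2 + y * I) = LL (2 + y * I) := by
  obtain ⟨C, C1, hC⟩ := land_zeta
  refine ⟨30 * C, by linarith, fun t ht => ?_⟩
  obtain ⟨hd, hB⟩ := hC t ht
  have l1 : 1 ≤ Real.log t := by
    rw [Real.le_log_iff_exp_le (by linarith)]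
    linarith [Real.exp_one_lt_d9]
  obtain ⟨M, hM⟩ : ∃ M, M = C * Real.log t := ⟨_, rfl⟩
  have M1 : 1 ≤ M := by nlinarith
  rw [mul_assoc, ← hM]
  rw [← hM] at hB
  obtain ⟨c, hc⟩ : ∃ c : ℂ, c = 2 + t * I := ⟨_, rfl⟩
  have cre : c.re = 2 := by simp [hc]
  rw [← hc] at hd hB ⊢
  have zc : 1 / 2 ≤ ‖riemannZeta c‖ := by
    have := zeta_ge (s := c) (by rw [cre]; norm_num)
    rw [cre] at this
    linarith
  have hm : Real.exp M < 2 ^ ⌈2 * M⌉₊ := by
    have a : Real.exp M < Real.exp ((⌈2 * M⌉₊ : ℕ) * Real.log 2) := Real.exp_lt_exp.2 (by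
      nlinarith [Nat.le_ceil (2 * M), Real.log_two_gt_d9])
    rwa [Real.exp_nat_mul, Real.exp_log two_pos] at a
  obtain ⟨n, ρ, g, h1, h2, h3, h4, h5, h6, h7⟩ := land_fac ⌈2 * M⌉₊ _ hd hB (by
    nlinarith [Real.exp_pos M])
  have hn : (n : ℝ) ≤ 3 * M := by
    have : (n : ℝ) ≤ ⌈2 * M⌉₊ := by exact_mod_cast h1
    linarith [Nat.ceil_lt_add_one (show 0 ≤ 2 * M by linarith)]
  have s5 : ball c 5 ⊆ ball c 16 := ball_subset_ball (by norm_num)
  obtain ⟨h, k1, k2, k3⟩ := MP_b09185_nt.Mai.bc_log (r := 5) (by norm_num) (zero_lt_one.trans_le M1)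
    (h3.mono s5) h5 (fun z hz => h4 z (s5 hz)) (by nlinarith [Real.exp_pos M])
  have c5 : c ∈ ball c 5 := mem_ball_self (by norm_num)
  have t0 : (10 : ℂ) ^ n ≠ 0 := pow_ne_zero _ (by norm_num)
  have z0 : ∀ i, riemannZeta (ρ i) = 0 := fun i => by
    have := h7 (ρ i)
    rw [prod_eq_zero (mem_univ i) (sub_self _), zero_mul] at this
    exact (mul_eq_zero.1 this).resolve_left t0
  have r1 : ∀ i, (ρ i).re < 1 := fun i =>
    not_le.1 fun h => riemannZeta_ne_zero_of_one_le_re h (z0 i)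
  have re1 : ∀ s : ℂ, s.re = 2 → ∀ i, 1 ≤ (s - ρ i).re := fun s hs i => by
    rw [sub_re, hs]; linarith [r1 i]
  have ne : ∀ s : ℂ, s.re = 2 → ∀ i, s - ρ i ≠ 0 := fun s hs i e => by
    have := re1 s hs i
    rw [e, zero_re] at this
    linarith
  have es : ∀ s : ℂ, s.re = 2 → exp (∑ i, log (s - ρ i)) = ∏ i, (s - ρ i) := fun s hs => by
    rw [exp_sum]
    exact prod_congr rfl fun i _ => exp_log (ne s hs i)
  have p0 : ∏ i, (c - ρ i) ≠ 0 := prod_ne_zero_iff.2 fun i _ => ne c cre i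
  have hc1 : exp (h c) = 1 := (mul_eq_left₀ (h5 c c5)).1 (k2 c c5).symm
  have hG : ∀ s ∈ ball c 5, riemannZeta s =
      (∏ i, (s - ρ i)) * exp (h s - h c + (LL c - ∑ i, log (c - ρ i))) := fun s hs => by
    rw [exp_add, exp_sub, exp_sub, hc1, es c cre, exp_LL (by rw [cre]; norm_num)]
    refine mul_left_cancel₀ t0 ?_
    have e : riemannZeta c = (∏ i, (c - ρ i)) * g c / 10 ^ n := by
      rw [← h7 c]; field_simp
    rw [h7 s, k2 s hs, e]
    field_simp
  have dG : DifferentiableOn ℂ (fun s => h s - h c + (LL c - ∑ i, log (c - ρ i))) (ball c 5) :=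
    fun s hs => (((k1 s hs).differentiableAt.sub_const _).add_const _).differentiableWithinAt
  refine ⟨n, ρ, _, by linarith, fun i => ⟨z0 i, h2 i⟩, dG, fun s hs => ?_, hG, fun y hy => ?_⟩
  · have a1 := k3 s hs
    have a2 := k3 c (mem_closedBall_self (by norm_num))
    have a3 := LL_le cre
    have a4 : ‖∑ i, log (c - ρ i)‖ ≤ n * 8 := (norm_sum_le _ _).trans (by
      have := sum_le_card_nsmul univ (fun i => ‖log (c - ρ i)‖) 8 fun i _ =>
        land_log (re1 c cre i) (by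
          have := h2 i
          rw [mem_ball, dist_comm, dist_eq_norm] at this
          exact this.le)
      simpa using this)
    have a5 := norm_add_le (h s - h c) (LL c - ∑ i, log (c - ρ i))
    linarith [norm_sub_le (h s) (h c), norm_sub_le (LL c) (∑ i, log (c - ρ i))]
  · have yre : ∀ y : ℝ, (2 + y * I : ℂ).re = 2 := fun y => by simp
    have ym : ∀ y ∈ closedBall t 2, (2 + y * I : ℂ) ∈ ball c 5 := fun y hy => by
      rw [mem_closedBall, Real.dist_eq] at hy
      rw [mem_ball, dist_eq_norm, hc, show (2 + y * I - (2 + t * I) : ℂ) = (y - t : ℝ) * I by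
        push_cast; ring, norm_mul, norm_I, norm_real, Real.norm_eq_abs]
      linarith
    have cl : Continuous fun y : ℝ => (2 + y * I : ℂ) := by fun_prop
    have key := land_const (S := closedBall t 2) (φ := fun y : ℝ => ∑ i, log (2 + y * I - ρ i) +
        (h (2 + y * I) - h c + (LL c - ∑ i, log (c - ρ i))) - LL (2 + y * I))
      (convex_closedBall t 2).isPreconnected
      (((continuous_finsetSum _ fun i _ => (cl.sub continuous_const).clog fun y =>
        Or.inl (zero_lt_one.trans_le (re1 _ (yre y) i))).continuousOn.add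
        (dG.continuousOn.comp cl.continuousOn ym)).sub LL_cont.continuousOn)
      (fun y hy => by
        rw [exp_sub, exp_add, es _ (yre y), ← hG _ (ym y hy), exp_LL (by rw [yre]; norm_num),
          div_self (riemannZeta_ne_zero_of_one_le_re (by rw [yre]; norm_num))])
      (x := y) (y := t) (by rwa [mem_closedBall, Real.dist_eq]) (mem_closedBall_self two_pos.le)
    rw [← hc] at key
    rw [← sub_eq_zero, key]
    ring

end Pool.Agent.Lib.MP_31bf45_nt.Om
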