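import Pool.Agent.Lib.MP_31bf45_nt.Om.Def

/-! The logarithm of zeta on the line two and its Gaussian smoothing. -/

set_option autoImplicit false

namespace Pool.Agent.Lib.MP_31bf45_nt.Om

open Complex Finset MeasureTheory Metric
open ArithmeticFunction (vonMangoldt)

theorem kb_mem (n : ℕ) : 0 ≤ vonMangoldt n / Real.log n ∧ vonMangoldt n / Real.log n ≤ 1 :=
  ⟨div_nonneg ArithmeticFunction.vonMangoldt_nonneg (Real.log_natCast_nonneg n),
    div_le_one_of_le₀ ArithmeticFunction.vonMangoldt_le_log (Real.log_natCast_nonneg n)⟩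

theorem kb_term (y : ℝ) (n : ℕ) :
    LSeries.term (fun n : ℕ => vonMangoldt n / Real.log n) (2 + y * I) n =
      (vonMangoldt n / Real.log n * (1 / (n : ℝ) ^ 2) : ℝ) * ee n y := by
  rcases eq_or_ne n 0 with rfl | h
  · simp
  · have h1 := cpow_eq h 2 y
    rw [Real.rpow_neg (Nat.cast_nonneg n), Real.rpow_two, cpow_neg] at h1
    rw [LSeries.term_of_ne_zero h, div_eq_mul_inv _ (_ ^ _), ← ofReal_ofNat 2, h1]
    push_cast
    ring

theorem kb_LL (y : ℝ) : LL (2 + y * I) =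
    ∑' n : ℕ, (vonMangoldt n / Real.log n * (1 / (n : ℝ) ^ 2) : ℝ) * ee n y :=
  tsum_congr (kb_term y)

theorem kb_norm (y : ℝ) (n : ℕ) :
    ‖((vonMangoldt n / Real.log n * (1 / (n : ℝ) ^ 2) : ℝ) : ℂ) * ee n y‖ ≤ 1 / (n : ℝ) ^ 2 := by
  rw [norm_mul, norm_ee, mul_one, norm_real, Real.norm_of_nonneg (mul_nonneg (kb_mem n).1
    (by positivity))]
  exact mul_le_of_le_one_left (by positivity) (kb_mem n).2

theorem kb_pi : Real.pi ^ 2 / 6 ≤ 2 := by nlinarith [Real.pi_lt_d2, Real.pi_pos]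

theorem exp_LL {s : ℂ} (hs : 1 < s.re) : exp (LL s) = riemannZeta s :=
  riemannZeta_eq_exp_LSeries hs

theorem LL_le {s : ℂ} (hs : s.re = 2) : ‖LL s‖ ≤ 2 := by
  rw [← re_add_im s, hs, ofReal_ofNat, kb_LL]
  exact (tsum_of_norm_bounded hasSum_zeta_two (kb_norm _)).trans kb_pi

theorem LL_cont : Continuous fun y : ℝ => LL (2 + y * I) := by
  simp only [kb_LL]
  exact continuous_tsum (fun n => by fun_prop) hasSum_zeta_two.summable fun n y => kb_norm y n

theorem LL_two : (LL 2).im = 0 := by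
  have h := kb_LL 0
  simp only [ofReal_zero, zero_mul, add_zero, ee, neg_zero, exp_zero, mul_one] at h
  rw [h, ← ofReal_tsum, ofReal_im]

theorem kb_int {κ : ℝ} (hκ : 0 < κ) (c : ℝ) : Integrable fun u : ℝ => ‖kk κ (c + u * I)‖ := by
  refine ((integrable_exp_neg_mul_sq (b := κ ^ 2 / 2) (by positivity)).const_mul
    (Real.exp (κ ^ 2 * c ^ 2 / 2))).congr (ae_of_all _ fun u => ?_)
  simp only [norm_kk, ← Real.exp_add]
  congr 1
  ring

theorem kb_gauss {κ : ℝ} (hκ : 0 < κ) (c : ℝ) (n : ℕ) : ∫ u : ℝ, ee n u * kk κ (c + u * I) =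
    (√(2 * Real.pi) / κ * (Real.exp (c * Real.log n) * gs (Real.log n / κ)) : ℝ) := by
  have h0 : (κ : ℂ) ≠ 0 := ofReal_ne_zero.2 hκ.ne'
  have e : ∀ u : ℝ, ee n u * kk κ (c + u * I) = (Real.exp (c * Real.log n) : ℝ) *
      MP_b09185_nt.Mai.EE (-(Real.log n / κ)) ((κ * c : ℝ) + (κ * u : ℝ) * I) := fun u => by
    rw [ee, kk, MP_b09185_nt.Mai.EE, ofReal_exp, ← exp_add, ← exp_add]
    congr 1
    push_cast
    field_simp
    ring
  simp only [e]
  rw [integral_const_mul, Measure.integral_comp_mul_left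
    (fun v : ℝ => MP_b09185_nt.Mai.EE (-(Real.log n / κ)) ((κ * c : ℝ) + v * I)) κ,
    MP_b09185_nt.Mai.integral_EE, abs_of_pos (inv_pos.2 hκ), real_smul, ← ofReal_mul, ← ofReal_mul,
    gs, show -(-(Real.log n / κ)) ^ 2 / 2 = -(1 / 2) * (Real.log n / κ) ^ 2 by ring]
  congr 1
  ring

theorem series {κ : ℝ} (hκ : 0 < κ) (t : ℝ) :
    ∫ u : ℝ, LL (2 + (t + u : ℝ) * I) * kk κ ((3 / 2 : ℝ) + u * I) =
      (√(2 * Real.pi) / κ : ℝ) * DD κ t := by
  have hb : ∀ (n : ℕ) (u : ℝ), ‖((vonMangoldt n / Real.log n * (1 / (n : ℝ) ^ 2) : ℝ) : ℂ) *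
      ee n (t + u) * kk κ ((3 / 2 : ℝ) + u * I)‖ ≤
      1 / (n : ℝ) ^ 2 * ‖kk κ ((3 / 2 : ℝ) + u * I)‖ := fun n u => by
    rw [norm_mul]
    exact mul_le_mul_of_nonneg_right (kb_norm _ n) (norm_nonneg _)
  have hi : ∀ n : ℕ, Integrable fun u : ℝ => ((vonMangoldt n / Real.log n * (1 / (n : ℝ) ^ 2) : ℝ) :
      ℂ) * ee n (t + u) * kk κ ((3 / 2 : ℝ) + u * I) := fun n =>
    ((kb_int hκ _).const_mul _).mono' (Continuous.aestronglyMeasurable (by unfold kk; fun_prop))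
      (ae_of_all _ (hb n))
  have h := hasSum_integral_of_summable_integral_norm hi
    ((hasSum_zeta_two.summable.mul_right (∫ u : ℝ, ‖kk κ ((3 / 2 : ℝ) + u * I)‖)).of_nonneg_of_le
      (fun n => integral_nonneg fun _ => norm_nonneg _) fun n => by
        rw [← integral_const_mul]
        exact integral_mono (hi n).norm ((kb_int hκ _).const_mul _) (hb n))
  simp only [kb_LL, ← tsum_mul_right]
  rw [← h.tsum_eq, DD, ← tsum_mul_left]
  refine tsum_congr fun n => ?_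
  simp only [ee_add, ← mul_assoc]
  simp only [mul_assoc _ (ee n _) (kk _ _)]
  rw [integral_const_mul, kb_gauss hκ, mul_right_comm, ← ofReal_mul, ← ofReal_mul, cc]
  congr 2
  rcases eq_or_ne n 0 with rfl | h0
  · simp
  · have h1 : (0 : ℝ) < n := by exact_mod_cast Nat.pos_of_ne_zero h0
    have h2 : Real.exp (3 / 2 * Real.log n) * √n = (n : ℝ) ^ 2 := by
      rw [Real.sqrt_eq_rpow, Real.rpow_def_of_pos h1, ← Real.exp_add, ← Real.rpow_two,
        Real.rpow_def_of_pos h1]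
      congr 1
      ring
    have h3 := Real.sqrt_pos.2 h1
    have h4 := Real.exp_pos (3 / 2 * Real.log n)
    rw [← h2]
    field_simp

theorem kb_gs (x : ℝ) : gs x ≤ 1 := Real.exp_le_one_iff.2 (by nlinarith [sq_nonneg x])

theorem kb_cc (κ : ℝ) (n : ℕ) : 0 ≤ cc κ n ∧ cc κ n ≤ gs (Real.log n / κ) := by
  have h1 := kb_mem n
  have h2 := gs_pos (Real.log n / κ)
  refine ⟨div_nonneg (mul_nonneg h1.1 h2.le) (Real.sqrt_nonneg _), ?_⟩
  rcases eq_or_ne n 0 with rfl | h0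
  · simpa [cc] using h2.le
  · exact (div_le_self (mul_nonneg h1.1 h2.le) (Real.one_le_sqrt.2
      (by exact_mod_cast Nat.pos_of_ne_zero h0))).trans (mul_le_of_le_one_left h2.le h1.2)

theorem cc_mem (κ : ℝ) (n : ℕ) : 0 ≤ cc κ n ∧ cc κ n ≤ 1 :=
  ⟨(kb_cc κ n).1, (kb_cc κ n).2.trans (kb_gs _)⟩

theorem cc_pow {κ : ℝ} {n : ℕ} (h : cc κ n ≠ 0) : IsPrimePow n :=
  ArithmeticFunction.vonMangoldt_ne_zero_iff.1 fun h0 => h (by simp [cc, h0])

theorem cc_prime {κ : ℝ} (hκ : 0 < κ) {p : ℕ} (hp : p.Prime) (h : Real.log p ≤ 2 * κ) :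
    Real.exp (-2) / √p ≤ cc κ p := by
  have h1 : 0 < Real.log p := Real.log_pos (by exact_mod_cast hp.one_lt)
  have h2 : Real.log p / κ ≤ 2 := (div_le_iff₀ hκ).2 h
  have h3 := div_pos h1 hκ
  rw [cc, ArithmeticFunction.vonMangoldt_apply_prime hp, div_self h1.ne', one_mul, gs]
  gcongr
  nlinarith

theorem trunc {κ : ℝ} (hκ : 0 < κ) {Y : ℕ} (hY : Real.exp (6 * κ ^ 2) ≤ Y) (t : ℝ) :
    ‖DD κ t - ∑ n ∈ Icc 1 Y, cc κ n * ee n t‖ ≤ 2 := by
  have h1 : HasSum (fun n => if n ∈ Icc 1 Y then cc κ n * ee n t else 0)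
      (∑ n ∈ Icc 1 Y, cc κ n * ee n t) := by
    rw [← sum_congr rfl fun n hn => if_pos (e := (0 : ℂ)) hn]
    exact hasSum_sum_of_ne_finset_zero fun n hn => if_neg hn
  have h2 : ∀ n : ℕ, ‖if n ∈ Icc 1 Y then 0 else cc κ n * ee n t‖ ≤ 1 / (n : ℝ) ^ 2 := fun n => by
    split_ifs with hn
    · simp
    rcases eq_or_ne n 0 with rfl | h0
    · simp [cc]
    have h3 : (Y : ℝ) ≤ n := by
      rw [mem_Icc] at hn
      exact_mod_cast (by omega : Y ≤ n)
    have h4 : (0 : ℝ) < n := by exact_mod_cast Nat.pos_of_ne_zero h0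
    have h5 : 6 * κ ^ 2 ≤ Real.log n := (Real.le_log_iff_exp_le h4).2 (hY.trans h3)
    rw [norm_mul, norm_ee, mul_one, norm_real, Real.norm_of_nonneg (kb_cc κ n).1]
    refine (kb_cc κ n).2.trans ?_
    rw [gs, one_div (_ ^ 2), ← Real.rpow_two (n : ℝ), Real.rpow_def_of_pos h4, ← Real.exp_neg,
      Real.exp_le_exp, div_pow]
    have h6 : 4 * Real.log n ≤ Real.log n ^ 2 / κ ^ 2 := by
      rw [le_div_iff₀ (by positivity)]
      nlinarith [Real.log_natCast_nonneg n, sq_nonneg κ]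
    linarith
  have h7 := (Summable.of_norm_bounded hasSum_zeta_two.summable h2).hasSum.add h1
  have h8 : DD κ t = _ := (tsum_congr fun n => by split_ifs <;> simp).trans h7.tsum_eq
  rw [h8, add_sub_cancel_right]
  exact (tsum_of_norm_bounded hasSum_zeta_two h2).trans kb_pi

end Pool.Agent.Lib.MP_31bf45_nt.Om
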