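import Pool.Agent.Lib.MP_31bf45_nt.Om.Def

/-! The Gaussian kernel: moving the contour and cutting the tails. -/

set_option autoImplicit false

namespace Pool.Agent.Lib.MP_31bf45_nt.Om

open Complex Finset MeasureTheory Metric
open scoped ComplexConjugate

theorem ka_side {κ A : ℝ} {Φ : ℂ → ℂ}
    (hA : ∀ w ∈ Set.Icc (0 : ℝ) (3 / 2) ×ℂ Set.Icc (-2 : ℝ) 2, ‖Φ w‖ ≤ A) {y : ℝ}
    (hy : y = 2 ∨ y = -2) :
    ‖∫ x in (0 : ℝ)..(3 / 2), Φ (x + y * I) * kk κ (x + y * I)‖ ≤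
      3 / 2 * A * Real.exp (-κ ^ 2 / 4) := by
  have h := intervalIntegral.norm_integral_le_of_norm_le_const (a := (0 : ℝ)) (b := 3 / 2)
    (C := A * Real.exp (-κ ^ 2 / 4)) (f := fun x : ℝ => Φ (x + y * I) * kk κ (x + y * I))
    fun x hx => by
      rw [Set.uIoc_of_le (by norm_num)] at hx
      have h1 : ‖Φ (x + y * I)‖ ≤ A := hA _ (by
        rw [mem_reProdIm]
        rcases hy with e | e <;> simp [e, hx.1.le, hx.2] <;> norm_num)
      rw [norm_mul, norm_kk]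
      refine mul_le_mul h1 (Real.exp_le_exp.2 ?_) (Real.exp_pos _).le ((norm_nonneg _).trans h1)
      have h2 : y ^ 2 = 4 := by rcases hy with e | e <;> rw [e] <;> norm_num
      have h3 : x ^ 2 ≤ 9 / 4 := by nlinarith [hx.1, hx.2]
      rw [h2]; nlinarith [sq_nonneg κ]
  refine h.trans (le_of_eq ?_)
  rw [sub_zero, abs_of_pos (by norm_num : (0 : ℝ) < 3 / 2)]; ring

theorem rect {κ A : ℝ} (hκ : 1 ≤ κ) {Φ : ℂ → ℂ}
    (hΦ : DifferentiableOn ℂ Φ (Set.Icc 0 (3 / 2) ×ℂ Set.Icc (-2) 2))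
    (hA : ∀ w ∈ Set.Icc (0 : ℝ) (3 / 2) ×ℂ Set.Icc (-2 : ℝ) 2, ‖Φ w‖ ≤ A) :
    ‖(∫ u in (-2 : ℝ)..2, Φ ((0 : ℝ) + u * I) * kk κ ((0 : ℝ) + u * I)) -
      ∫ u in (-2 : ℝ)..2, Φ ((3 / 2 : ℝ) + u * I) * kk κ ((3 / 2 : ℝ) + u * I)‖ ≤
      3 * A * Real.exp (-κ ^ 2 / 4) := by
  have _ := hκ
  have hk : Differentiable ℂ (kk κ) := by unfold kk; fun_prop
  have h := integral_boundary_rect_eq_zero_of_differentiableOn (fun w => Φ w * kk κ w)
    ⟨0, -2⟩ ⟨3 / 2, 2⟩ (by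
      rw [Set.uIcc_of_le (by norm_num), Set.uIcc_of_le (by norm_num)]
      exact hΦ.mul hk.differentiableOn)
  have h1 := ka_side (κ := κ) hA (y := 2) (Or.inl rfl)
  have h2 := ka_side (κ := κ) hA (y := -2) (Or.inr rfl)
  simp only [smul_eq_mul] at h
  set a := ∫ u in (-2 : ℝ)..2, Φ ((0 : ℝ) + u * I) * kk κ ((0 : ℝ) + u * I)
  set b := ∫ u in (-2 : ℝ)..2, Φ ((3 / 2 : ℝ) + u * I) * kk κ ((3 / 2 : ℝ) + u * I)
  set c := ∫ x in (0 : ℝ)..(3 / 2), Φ (x + (2 : ℝ) * I) * kk κ (x + (2 : ℝ) * I)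
  set d := ∫ x in (0 : ℝ)..(3 / 2), Φ (x + (-2 : ℝ) * I) * kk κ (x + (-2 : ℝ) * I)
  have e : I * (a - b) = d - c := by linear_combination -h
  have h3 : ‖a - b‖ = ‖d - c‖ := by rw [← e, norm_mul, norm_I, one_mul]
  rw [h3]
  linarith [norm_sub_le d c]

theorem ka_int : Integrable fun u : ℝ => (1 + |u|) * Real.exp (-(1 / 2) * u ^ 2) := by
  have h1 := integrable_exp_neg_mul_sq (b := 1 / 2) (by norm_num)
  have h2 := (integrable_mul_exp_neg_mul_sq (b := 1 / 2) (by norm_num)).norm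
  refine (h1.add h2).congr (Filter.Eventually.of_forall fun u => ?_)
  simp only [Pi.add_apply, norm_mul, Real.norm_eq_abs, Real.abs_exp]
  ring

theorem tail : ∃ C : ℝ, 0 ≤ C ∧ ∀ (κ A : ℝ) (F : ℝ → ℂ), 1 ≤ κ → AEStronglyMeasurable F →
    (∀ u, ‖F u‖ ≤ A * (1 + |u|) * Real.exp (κ ^ 2 * ((3 / 2) ^ 2 - u ^ 2) / 2)) →
    Integrable F ∧ ‖(∫ u, F u) - ∫ u in (-2 : ℝ)..2, F u‖ ≤ C * A * Real.exp (-κ ^ 2 / 4) := by
  have hg : ∀ u : ℝ, 0 ≤ (1 + |u|) * Real.exp (-(1 / 2) * u ^ 2) := fun u => by positivity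
  refine ⟨Real.exp 2 * ∫ u : ℝ, (1 + |u|) * Real.exp (-(1 / 2) * u ^ 2),
    mul_nonneg (Real.exp_pos _).le (integral_nonneg hg), fun κ A F hκ hF hb => ?_⟩
  have hA : 0 ≤ A := by
    have h := (norm_nonneg _).trans (hb 0)
    have h1 := nonneg_of_mul_nonneg_left h (Real.exp_pos _)
    simpa using h1
  have hκ2 : 1 ≤ κ ^ 2 := one_le_pow₀ hκ
  have hi : Integrable F := by
    refine (ka_int.const_mul (A * Real.exp (2 * κ ^ 2))).mono' hF
      (Filter.Eventually.of_forall fun u => (hb u).trans ?_)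
    have h : Real.exp (κ ^ 2 * ((3 / 2) ^ 2 - u ^ 2) / 2) ≤
        Real.exp (2 * κ ^ 2) * Real.exp (-(1 / 2) * u ^ 2) := by
      rw [← Real.exp_add]
      exact Real.exp_le_exp.2 (by nlinarith [sq_nonneg u])
    calc _ ≤ A * (1 + |u|) * (Real.exp (2 * κ ^ 2) * Real.exp (-(1 / 2) * u ^ 2)) := by gcongr
      _ = _ := by ring
  refine ⟨hi, ?_⟩
  rw [intervalIntegral.integral_of_le (by norm_num),
    ← integral_add_compl (s := Set.Ioc (-2 : ℝ) 2) measurableSet_Ioc hi, add_sub_cancel_left]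
  have hj := ka_int.const_mul (A * Real.exp (-κ ^ 2 / 4) * Real.exp 2)
  refine (norm_integral_le_of_norm_le hj.integrableOn ?_).trans ?_
  · refine (ae_restrict_iff' measurableSet_Ioc.compl).2
      (Filter.Eventually.of_forall fun u hu => (hb u).trans ?_)
    have hu2 : 4 ≤ u ^ 2 := by
      rw [Set.mem_compl_iff, Set.mem_Ioc, not_and_or, not_lt, not_le] at hu
      rcases hu with h | h <;> nlinarith
    have h : Real.exp (κ ^ 2 * ((3 / 2) ^ 2 - u ^ 2) / 2) ≤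
        Real.exp (-κ ^ 2 / 4) * Real.exp 2 * Real.exp (-(1 / 2) * u ^ 2) := by
      rw [← Real.exp_add, ← Real.exp_add]
      exact Real.exp_le_exp.2 (by nlinarith)
    calc _ ≤ A * (1 + |u|) * (Real.exp (-κ ^ 2 / 4) * Real.exp 2 *
          Real.exp (-(1 / 2) * u ^ 2)) := by gcongr
      _ = _ := by ring
  · refine (setIntegral_le_integral hj (Filter.Eventually.of_forall fun u => ?_)).trans
      (le_of_eq ?_)
    · exact mul_nonneg (by positivity) (hg u)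
    · rw [integral_const_mul]; ring

theorem int_gs {κ : ℝ} (hκ : 0 < κ) :
    Integrable (fun u => gs (κ * u)) ∧ ∫ u, gs (κ * u) = √(2 * Real.pi) / κ := by
  have e : (fun u => gs (κ * u)) = fun u : ℝ => Real.exp (-(κ ^ 2 / 2) * u ^ 2) :=
    funext fun u => by rw [gs]; congr 1; ring
  rw [e]
  refine ⟨integrable_exp_neg_mul_sq (by positivity), ?_⟩
  rw [integral_gaussian, show Real.pi / (κ ^ 2 / 2) = 2 * Real.pi / κ ^ 2 by field_simp,
    Real.sqrt_div (by positivity), Real.sqrt_sq hκ.le]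

end Pool.Agent.Lib.MP_31bf45_nt.Om
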