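import Pool.Agent.Lib.MP_31bf45_nt.Om.Def
import Pool.Agent.Lib.MP_6a20cc_nt.Mertens

/-! Large values of the argument of zeta: sums over primes and calculus. -/

set_option autoImplicit false

namespace Pool.Agent.Lib.MP_31bf45_nt.Om

open Finset Filter Pool.Agent.Lib.MP_6a20cc_nt

theorem primes_sum : ∃ x0 : ℕ, ∀ x : ℕ, x0 ≤ x →
    1 / 4 ≤ ∑ p ∈ (Ioc x (x ^ 2)).filter Nat.Prime, (1 / p : ℝ) ∧
      ∑ p ∈ (Ioc x (x ^ 2)).filter Nat.Prime, (1 / p : ℝ) ≤ 3 := by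
  obtain ⟨x0, h⟩ := eventually_atTop.1 (((Real.tendsto_log_atTop.comp
    tendsto_natCast_atTop_atTop).eventually_ge_atTop 24).and (eventually_ge_atTop 1))
  refine ⟨x0, fun x hx => ?_⟩
  obtain ⟨h1, h2⟩ := h x hx
  have h1 : 24 ≤ Real.log x := h1
  have hx0 : (0 : ℝ) < x := by exact_mod_cast h2
  have e : ∑ p ∈ (Ioc x (x ^ 2)).filter Nat.Prime, Real.log p / p =
      ∑ p ∈ Nat.primesLE (x ^ 2), Real.log p / p - ∑ p ∈ Nat.primesLE x, Real.log p / p := by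
    have hs : Nat.primesLE x ⊆ Nat.primesLE (x ^ 2) := fun p hp => by
      rw [Nat.mem_primesLE] at hp ⊢
      exact ⟨hp.1.trans (Nat.le_self_pow (by norm_num) x), hp.2⟩
    rw [← sum_sdiff_eq_sub hs]
    refine sum_congr ?_ fun _ _ => rfl
    ext p
    simp only [mem_filter, mem_Ioc, Finset.mem_sdiff, Nat.mem_primesLE]
    constructor
    · rintro ⟨⟨a, b⟩, c⟩
      exact ⟨⟨b, c⟩, fun d => by omega⟩
    · rintro ⟨⟨a, b⟩, c⟩
      exact ⟨⟨lt_of_not_ge fun d => c ⟨d, b⟩, a⟩, b⟩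
  have u1 := sum0_upper x
  have u2 := sum0_upper (x ^ 2)
  have l1 := mertens_lower x
  have l2 := mertens_lower (x ^ 2)
  have u3 := mertens_upper x
  have u4 : Real.log 4 ≤ 3 := by linarith [Real.log_le_sub_one_of_pos (show (0 : ℝ) < 4 by norm_num)]
  rw [Nat.cast_pow, Real.log_pow, Nat.cast_ofNat] at u2 l2
  have b : ∀ p ∈ (Ioc x (x ^ 2)).filter Nat.Prime,
      Real.log x ≤ Real.log p ∧ Real.log p ≤ 2 * Real.log x := fun p hp => by
    obtain ⟨a, b⟩ := mem_Ioc.1 (mem_filter.1 hp).1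
    have a' : (x : ℝ) ≤ p := by exact_mod_cast a.le
    have := Real.log_le_log (by linarith) (show (p : ℝ) ≤ (x : ℝ) ^ 2 by exact_mod_cast b)
    rw [Real.log_pow, Nat.cast_ofNat] at this
    exact ⟨Real.log_le_log hx0 a', this⟩
  have c1 : ∑ p ∈ (Ioc x (x ^ 2)).filter Nat.Prime, Real.log p / p ≤
      2 * Real.log x * ∑ p ∈ (Ioc x (x ^ 2)).filter Nat.Prime, (1 / p : ℝ) := by
    rw [mul_sum]
    exact sum_le_sum fun p hp => by
      rw [mul_one_div]; exact div_le_div_of_nonneg_right (b p hp).2 p.cast_nonneg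
  have c2 : Real.log x * ∑ p ∈ (Ioc x (x ^ 2)).filter Nat.Prime, (1 / p : ℝ) ≤
      ∑ p ∈ (Ioc x (x ^ 2)).filter Nat.Prime, Real.log p / p := by
    rw [mul_sum]
    exact sum_le_sum fun p hp => by
      rw [mul_one_div]; exact div_le_div_of_nonneg_right (b p hp).1 p.cast_nonneg
  rw [e] at c1 c2
  constructor
  · exact le_of_mul_le_mul_left (a := 2 * Real.log x) (by linarith) (by linarith)
  · exact le_of_mul_le_mul_left (a := Real.log x) (by linarith) (by linarith)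

/-- everything in terms of `w = l ^ (1 / 60)` -/
theorem asy_w {l κ w : ℝ} (hw : 200 ≤ w) (hl : l = w ^ 60) (h1 : Real.log l ≤ κ)
    (h2 : κ ≤ Real.log (l + 1)) : 160 ≤ κ ∧ κ ≤ w ^ 2 ∧ l ^ (-(1 / 3) : ℝ) = (w ^ 20)⁻¹ ∧
      √l = w ^ 30 ∧ Real.exp (-κ ^ 2 / 4) ≤ (w ^ 60)⁻¹ ∧ w ^ 29 ≤ √(l / κ) := by
  have w0 : 0 < w := by linarith
  have a0 : 3 ≤ Real.log w := by
    rw [Real.le_log_iff_exp_le w0, show (3 : ℝ) = (3 : ℕ) * 1 by norm_num, Real.exp_nat_mul]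
    exact (pow_le_pow_left₀ (Real.exp_pos 1).le Real.exp_one_lt_three.le 3).trans (by linarith)
  have a1 : Real.log l = 60 * Real.log w := by rw [hl, Real.log_pow]; norm_num
  have a2 : κ ≤ w ^ 2 := by
    have : l + 1 ≤ w ^ 61 := by
      have := one_le_pow₀ (n := 60) (show 1 ≤ w by linarith)
      rw [hl, pow_succ w 60]
      nlinarith
    have := Real.log_le_log (by rw [hl]; positivity) this
    rw [Real.log_pow, Nat.cast_ofNat] at this
    nlinarith [Real.log_le_self w0.le]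
  have a3 : 160 ≤ κ := by linarith
  refine ⟨a3, a2, ?_, ?_, ?_, ?_⟩
  · rw [hl, Real.rpow_neg (by positivity), ← Real.rpow_natCast w 60, ← Real.rpow_mul w0.le,
      ← Real.rpow_natCast]
    norm_num
  · rw [hl, show w ^ 60 = (w ^ 30) ^ 2 by ring, Real.sqrt_sq (by positivity)]
  · rw [← hl, ← Real.exp_log (show 0 < l by rw [hl]; positivity), ← Real.exp_neg]
    exact Real.exp_le_exp.2 (by nlinarith)
  · refine Real.le_sqrt_of_sq_le ?_
    rw [le_div_iff₀ (by linarith), hl, show w ^ 60 = (w ^ 29) ^ 2 * w ^ 2 by ring]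
    exact mul_le_mul_of_nonneg_left a2 (by positivity)

theorem asy (C η : ℝ) (hη : 0 < η) : ∃ l0 : ℝ, ∀ l κ : ℝ, l0 ≤ l → Real.log l ≤ κ →
    κ ≤ Real.log (l + 1) → 160 ≤ κ ∧ κ ≤ l ∧ l ^ (-(1 / 3) : ℝ) * κ ≤ 1 ∧
      Real.exp (6 * κ ^ 2) + 1 ≤ Real.exp l ∧
      C * (1 + ((l ^ (-(1 / 3) : ℝ)) ^ 2 * κ ^ 2 + κ * Real.exp (-κ ^ 2 / 4)) * l) ≤ η * √(l / κ) ∧
      C * (Real.exp (6 * κ ^ 2) + 1) / ((l ^ (-(1 / 3) : ℝ)) ^ 2 * Real.exp (l * l ^ (-(1 / 3) : ℝ))) *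
        (Real.exp (200 * √l) * (1 + 560 * l) ^ 4) ≤ 1 := by
  obtain ⟨m, hm⟩ : ∃ m, m = 600 + |C| + 3 * |C| / η := ⟨_, rfl⟩
  have m0 : 0 ≤ 3 * |C| / η := by positivity
  have m1 : 600 ≤ m := by linarith [abs_nonneg C]
  refine ⟨m ^ 60, fun l κ hl h1 h2 => ?_⟩
  have l0 : 0 ≤ l := le_trans (by positivity) hl
  obtain ⟨w, w0, rfl⟩ : ∃ w : ℝ, 0 ≤ w ∧ l = w ^ 60 := ⟨l ^ ((60 : ℕ) : ℝ)⁻¹, by positivity,
    (Real.rpow_inv_natCast_pow l0 (by norm_num)).symm⟩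
  have w1 : m ≤ w := le_of_pow_le_pow_left₀ (n := 60) (by norm_num) w0 hl
  have w2 : 1 ≤ w := by linarith
  have w3 : ∀ i j : ℕ, i ≤ j → w ^ i ≤ w ^ j := fun i j => pow_le_pow_right₀ w2
  have w4 : ∀ i j : ℕ, j = i + 1 → 600 * w ^ i ≤ w ^ j := fun i j hj => by
    rw [hj, pow_succ']; exact mul_le_mul_of_nonneg_right (by linarith) (by positivity)
  have w5 : ∀ i : ℕ, 1 ≤ w ^ i := fun i => one_le_pow₀ w2
  obtain ⟨a1, a2, a3, a4, a5, a6⟩ := asy_w (by linarith) rfl h1 h2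
  have b1 : κ ^ 2 ≤ w ^ 4 := (pow_le_pow_left₀ (by linarith) a2 2).trans_eq (by ring)
  have b2 : Real.exp (6 * κ ^ 2) + 1 ≤ Real.exp (w ^ 5) := by
    have e1 : Real.exp (6 * κ ^ 2) * Real.exp 1 ≤ Real.exp (w ^ 5) := by
      rw [← Real.exp_add]
      exact Real.exp_le_exp.2 (by linarith [w4 4 5 rfl, w5 4])
    have e2 := Real.one_le_exp (show 0 ≤ 6 * κ ^ 2 by positivity)
    nlinarith [Real.add_one_le_exp (1 : ℝ)]
  have wp : 0 < w := by linarith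
  rw [a3, a4]
  refine ⟨a1, a2.trans (w3 _ _ (by norm_num)), ?_, b2.trans (Real.exp_le_exp.2
    (w3 _ _ (by norm_num))), ?_, ?_⟩
  · rw [inv_mul_le_iff₀ (by positivity), mul_one]
    exact a2.trans (w3 _ _ (by norm_num))
  · have e1 : ((w ^ 20)⁻¹ ^ 2 * κ ^ 2 + κ * Real.exp (-κ ^ 2 / 4)) * w ^ 60 ≤ w ^ 24 + w ^ 2 :=
      calc _ ≤ ((w ^ 20)⁻¹ ^ 2 * w ^ 4 + w ^ 2 * (w ^ 60)⁻¹) * w ^ 60 := by gcongr
        _ = _ := by field_simp
    have e0 : 0 ≤ ((w ^ 20)⁻¹ ^ 2 * κ ^ 2 + κ * Real.exp (-κ ^ 2 / 4)) * w ^ 60 := by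
      have : 0 ≤ κ := by linarith
      positivity
    have e2 : 3 * |C| ≤ η * w := by
      rw [mul_comm η, ← div_le_iff₀ hη]; linarith [abs_nonneg C]
    calc _ ≤ |C| * (3 * w ^ 28) := mul_le_mul (le_abs_self C)
            (by linarith [w3 24 28 (by norm_num), w3 2 28 (by norm_num), w5 28]) (by linarith)
            (abs_nonneg C)
      _ = 3 * |C| * w ^ 28 := by ring
      _ ≤ η * w * w ^ 28 := by gcongr
      _ = η * w ^ 29 := by ring
      _ ≤ _ := by gcongr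
  · have e0 : w ≤ Real.exp w := by linarith [Real.add_one_le_exp w]
    have e1 : w ^ 60 * (w ^ 20)⁻¹ = w ^ 40 := by field_simp
    have e2 : 1 + 560 * w ^ 60 ≤ w ^ 61 := by linarith [w4 60 61 rfl, w5 60]
    have e3 : w ^ 285 ≤ Real.exp (285 * w) := by
      rw [show (285 : ℝ) * w = (285 : ℕ) * w by norm_num, Real.exp_nat_mul]
      exact pow_le_pow_left₀ w0 e0 _
    rw [e1, div_mul_eq_mul_div, div_le_one (by positivity), inv_pow, le_inv_mul_iff₀ (by positivity)]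
    calc _ ≤ (w ^ 20) ^ 2 * (w * Real.exp (w ^ 5) * (Real.exp (200 * w ^ 30) * (w ^ 61) ^ 4)) := by
          gcongr
          linarith [le_abs_self C]
      _ = w ^ 285 * (Real.exp (w ^ 5) * Real.exp (200 * w ^ 30)) := by ring
      _ ≤ Real.exp (285 * w) * (Real.exp (w ^ 5) * Real.exp (200 * w ^ 30)) := by gcongr
      _ ≤ _ := by
          rw [← Real.exp_add, ← Real.exp_add]
          refine Real.exp_le_exp.2 ?_
          have := w3 1 30 (by norm_num)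
          rw [pow_one] at this
          linarith [w3 5 30 (by norm_num), w4 30 31 rfl, w3 31 40 (by norm_num), w5 30]

end Pool.Agent.Lib.MP_31bf45_nt.Om
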