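import Pool.Agent.Lib.MP_31bf45_nt.Om.Tw

/-! The resonator average of a function with a pointwise bound. -/

set_option autoImplicit false

namespace Pool.Agent.Lib.MP_31bf45_nt.Om

open Complex Finset MeasureTheory Metric Pool.Agent.Lib.MP_b09185_nt.Sh

variable {P : Finset ℕ} {k N K Y : ℕ} {a H : ℝ} {θ : ℂ}

theorem co_gs : Integrable gs := integrable_exp_neg_mul_sq (b := 1 / 2) (by norm_num)

theorem co_g4 : Integrable fun v : ℝ => Real.exp (-(1 / 4) * v ^ 2) :=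
  integrable_exp_neg_mul_sq (b := 1 / 4) (by norm_num)

theorem co_g4_le : ∫ v : ℝ, Real.exp (-(1 / 4) * v ^ 2) ≤ 4 := by
  rw [integral_gaussian, Real.sqrt_le_iff]
  exact ⟨by norm_num, by linarith [Real.pi_le_four]⟩

theorem co_RR (P : Finset ℕ) (k : ℕ) (a : ℝ) (θ : ℂ) : Continuous (RR P k a θ) := by
  unfold RR; fun_prop

theorem co_QP (K : ℕ) (b : ℕ → ℂ) : Continuous (QP K b) := by
  unfold QP; fun_prop

theorem co_QP_le (K : ℕ) (b : ℕ → ℂ) : ∃ M : ℝ, ∀ y, ‖QP K b y‖ ^ 2 ≤ M := by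
  refine ⟨(∑ n ∈ Icc 1 K, ‖b n / (√n : ℝ)‖) ^ 2, fun y => ?_⟩
  gcongr
  exact (norm_sum_le _ _).trans (by simp only [norm_mul, norm_ee, mul_one, le_refl])

/-- Fubini for bounded continuous functions against two Gaussians. -/
theorem co_swap {r q : ℝ → ℝ} (hr : Continuous r) (hq : Continuous q) {R M E : ℝ}
    (r0 : ∀ x, 0 ≤ r x ∧ r x ≤ R) (q0 : ∀ x, 0 ≤ q x ∧ q x ≤ M) {s : ℝ → ℝ} (hs : Continuous s)
    (hE : ∀ v, ∫ x, r x * q (s x + v) * gs x ≤ E) :
    Integrable (fun x => r x * gs x * ∫ v, q (s x + v) * Real.exp (-(1 / 4) * v ^ 2)) ∧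
      ∫ x, r x * gs x * ∫ v, q (s x + v) * Real.exp (-(1 / 4) * v ^ 2) ≤ 4 * E := by
  have hi : Integrable (Function.uncurry fun x v : ℝ =>
      r x * q (s x + v) * gs x * Real.exp (-(1 / 4) * v ^ 2)) (volume.prod volume) := by
    refine ((co_gs.mul_prod co_g4).const_mul (R * M)).mono'
      (Continuous.aestronglyMeasurable (by unfold Function.uncurry; fun_prop))
      (Filter.Eventually.of_forall fun z => ?_)
    have h1 := r0 z.1
    have h2 := q0 (s z.1 + z.2)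
    have h3 := (gs_pos z.1).le
    have h4 : 0 ≤ r z.1 * q (s z.1 + z.2) := mul_nonneg h1.1 h2.1
    change ‖r z.1 * q (s z.1 + z.2) * gs z.1 * Real.exp (-(1 / 4) * z.2 ^ 2)‖ ≤ _
    rw [Real.norm_of_nonneg (by positivity), mul_assoc]
    exact mul_le_mul_of_nonneg_right (mul_le_mul h1.2 h2.2 h2.1 (h1.1.trans h1.2)) (by positivity)
  have e : (fun x => r x * gs x * ∫ v, q (s x + v) * Real.exp (-(1 / 4) * v ^ 2)) =
      fun x => ∫ v, r x * q (s x + v) * gs x * Real.exp (-(1 / 4) * v ^ 2) := by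
    funext x
    rw [← integral_const_mul]
    congr 1
    funext v
    ring
  have hE0 : 0 ≤ E := le_trans (integral_nonneg fun x =>
    mul_nonneg (mul_nonneg (r0 x).1 (q0 _).1) (gs_pos x).le) (hE 0)
  rw [e]
  refine ⟨hi.integral_prod_left, ?_⟩
  rw [integral_integral_swap hi]
  calc _ ≤ ∫ v : ℝ, E * Real.exp (-(1 / 4) * v ^ 2) := by
        refine integral_mono hi.integral_prod_right (co_g4.const_mul E) fun v => ?_
        simp only
        rw [integral_mul_const]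
        exact mul_le_mul_of_nonneg_right (hE v) (Real.exp_pos _).le
    _ ≤ 4 * E := by
        rw [integral_const_mul, mul_comm]
        exact mul_le_mul_of_nonneg_right co_g4_le hE0

theorem co_int {f : ℝ → ℝ} (hf : Continuous f) {R : ℝ} (h : ∀ x, |f x| ≤ R) :
    Integrable fun x => f x * gs x :=
  co_gs.bdd_mul hf.aestronglyMeasurable (Filter.Eventually.of_forall h)

theorem core (hP : ∀ p ∈ P, p.Prime) (ha : 0 ≤ a) (hN : ∀ S ∈ SS P k, mS S ≤ N) (hθ : ‖θ‖ = 1)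
    {b : Fin 3 → ℕ → ℂ} (hb : ∀ i, Dv (b i)) (h : N * gs (H / N) ≤ 1)
    (h' : N * K * gs (H / (N * K)) ≤ 1) {F : ℝ → ℝ} (hF : Continuous F) {W A B X : ℝ}
    (hW : ∀ t, |F t| ≤ W) (hA : 0 ≤ A) (hB : 0 ≤ B) (hX : 0 ≤ X) (t₀ : ℝ)
    (hpt : ∀ x : ℝ, |x| ≤ X → F (t₀ + H * x) ≤ A + B * ∑ i,
      ∫ v, ‖QP K (b i) (t₀ + H * x + v)‖ ^ 2 * Real.exp (-(1 / 4) * v ^ 2)) :
    ∫ x : ℝ, ‖RR P k a θ (t₀ + H * x)‖ ^ 2 * F (t₀ + H * x) * gs x ≤
      QQ P k a * (2 * √(2 * Real.pi) * A +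
        72 * B * (Real.exp (4 * a * ∑ p ∈ P, (1 / p : ℝ)) * (1 + Real.log K) ^ 4) +
        4 * W * N * Real.exp (-X ^ 2 / 4)) := by
  obtain ⟨r, er⟩ : ∃ r : ℝ → ℝ, r = fun x => ‖RR P k a θ (t₀ + H * x)‖ ^ 2 := ⟨_, rfl⟩
  have hR := co_RR P k a θ
  have hr : Continuous r := by rw [er]; fun_prop
  have r0 : ∀ x, 0 ≤ r x ∧ r x ≤ N * QQ P k a := fun x => by
    rw [er]; exact ⟨by positivity, sup_RR hP ha hN hθ _⟩
  have hW0 : 0 ≤ W := (abs_nonneg _).trans (hW 0)
  have hQ : 0 ≤ QQ P k a := zero_le_one.trans (one_le_QQ P k a)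
  obtain ⟨J, eJ⟩ : ∃ J : Fin 3 → ℝ → ℝ, J = fun i x =>
    ∫ v, ‖QP K (b i) (t₀ + H * x + v)‖ ^ 2 * Real.exp (-(1 / 4) * v ^ 2) := ⟨_, rfl⟩
  have J0 : ∀ i x, 0 ≤ J i x := fun i x => by
    rw [eJ]; exact integral_nonneg fun v => by positivity
  have hJ : ∀ i, Integrable (fun x => r x * gs x * J i x) ∧ ∫ x, r x * gs x * J i x ≤
      4 * (6 * (QQ P k a * Real.exp (4 * a * ∑ p ∈ P, (1 / p : ℝ)) * (1 + Real.log K) ^ 4)) := by
    intro i
    obtain ⟨M, hM⟩ := co_QP_le K (b i)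
    have hq := co_QP K (b i)
    rw [eJ]
    refine co_swap (q := fun y => ‖QP K (b i) y‖ ^ 2) (s := fun x => t₀ + H * x) hr (by fun_prop)
      r0 (fun y => ⟨by positivity, hM y⟩) (by fun_prop) fun v => ?_
    rw [er]
    exact tw hP ha hN hθ (hb i) h' t₀ v
  have i1 : Integrable fun x => r x * gs x :=
    co_int hr fun x => (abs_of_nonneg (r0 x).1).trans_le (r0 x).2
  have m1 : ∫ x, r x * gs x ≤ 2 * √(2 * Real.pi) * QQ P k a := by
    rw [er]; exact mass hP ha hN hθ h t₀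
  have i2 : Integrable fun x => ∑ i, r x * gs x * J i x :=
    integrable_finsetSum _ fun i _ => (hJ i).1
  have i0 : Integrable fun x => r x * F (t₀ + H * x) * gs x :=
    co_int (R := N * QQ P k a * W) (by fun_prop) fun x => by
      rw [abs_mul, abs_of_nonneg (r0 x).1]
      exact mul_le_mul (r0 x).2 (hW _) (abs_nonneg _) (by positivity)
  have pt : ∀ x, r x * F (t₀ + H * x) * gs x ≤ A * (r x * gs x) + B * ∑ i, r x * gs x * J i x +
      W * (N * QQ P k a) * Real.exp (-X ^ 2 / 4) * Real.exp (-(1 / 4) * x ^ 2) := fun x => by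
    have g0 := (gs_pos x).le
    have h1 : 0 ≤ r x * gs x := mul_nonneg (r0 x).1 g0
    have h2 : 0 ≤ ∑ i, r x * gs x * J i x := sum_nonneg fun i _ => mul_nonneg h1 (J0 i x)
    rcases le_or_gt |x| X with hx | hx
    · have h3 : F (t₀ + H * x) ≤ A + B * ∑ i, J i x := by rw [eJ]; exact hpt x hx
      have h4 := mul_le_mul_of_nonneg_left h3 h1
      have h5 : 0 ≤ W * (N * QQ P k a) * Real.exp (-X ^ 2 / 4) * Real.exp (-(1 / 4) * x ^ 2) := by
        positivity
      rw [← mul_sum]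
      nlinarith
    · have h3 : gs x ≤ Real.exp (-X ^ 2 / 4) * Real.exp (-(1 / 4) * x ^ 2) := by
        rw [← Real.exp_add, gs, Real.exp_le_exp]
        have := sq_le_sq' (by linarith) hx.le
        rw [sq_abs] at this
        linarith
      have h4 : r x * F (t₀ + H * x) ≤ W * (N * QQ P k a) := by
        rw [mul_comm W]
        exact (mul_le_mul_of_nonneg_left ((le_abs_self _).trans (hW _)) (r0 x).1).trans
          (mul_le_mul_of_nonneg_right (r0 x).2 hW0)
      have h5 := (mul_le_mul_of_nonneg_right h4 g0).trans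
        (mul_le_mul_of_nonneg_left h3 (by positivity))
      have h6 := mul_nonneg hA h1
      have h7 := mul_nonneg hB h2
      rw [← mul_assoc] at h5
      linarith
  have key := integral_mono i0 (((i1.const_mul A).add (i2.const_mul B)).add
    (co_g4.const_mul (W * (N * QQ P k a) * Real.exp (-X ^ 2 / 4)))) pt
  rw [integral_add' ((i1.const_mul A).add (i2.const_mul B)) (co_g4.const_mul _),
    integral_add' (i1.const_mul A) (i2.const_mul B), integral_const_mul, integral_const_mul,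
    integral_const_mul, integral_finsetSum _ fun i _ => (hJ i).1, Fin.sum_univ_three] at key
  have k1 := mul_le_mul_of_nonneg_left m1 hA
  have k2 := mul_le_mul_of_nonneg_left (add_le_add (add_le_add (hJ 0).2 (hJ 1).2) (hJ 2).2) hB
  have k3 := mul_le_mul_of_nonneg_left co_g4_le
    (by positivity : 0 ≤ W * (N * QQ P k a) * Real.exp (-X ^ 2 / 4))
  simp only [er] at key k1 k2
  linarith

end Pool.Agent.Lib.MP_31bf45_nt.Om
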