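import Pool.Agent.Lib.MP_31bf45_nt.Om.MV

/-! Large values of the argument of zeta: the gain of the resonator. -/

set_option autoImplicit false

namespace Pool.Agent.Lib.MP_31bf45_nt.Om

open Complex Finset MeasureTheory Metric Pool.Agent.Lib.MP_b09185_nt.Sh
open scoped ComplexConjugate

section Res
variable {P : Finset ℕ} {k N K Y : ℕ} {a H : ℝ} {θ : ℂ}

theorem res_mem {S : Finset ℕ} : S ∈ SS P k ↔ S ⊆ P ∧ #S ≤ k := by simp [SS]

theorem res_dc (P : Finset ℕ) (k : ℕ) (F : Finset ℕ → ℕ → ℝ) :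
    ∑ S ∈ SS P k, ∑ p ∈ S, F S p =
      ∑ S ∈ P.powerset.filter (fun S => #S < k), ∑ p ∈ P \ S, F (insert p S) p := by
  rw [sum_sigma', sum_sigma']
  refine sum_bij' (fun i _ => ⟨i.1.erase i.2, i.2⟩) (fun i _ => ⟨insert i.2 i.1, i.2⟩) ?_ ?_ ?_ ?_ ?_
  · rintro ⟨S, p⟩ h
    simp only [mem_sigma, res_mem] at h
    have := card_erase_of_mem h.2
    have h0 := card_pos.2 ⟨p, h.2⟩
    simp only [mem_sigma, mem_filter, mem_powerset, mem_sdiff]
    exact ⟨⟨(erase_subset _ _).trans h.1.1, by omega⟩, h.1.1 h.2, notMem_erase _ _⟩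
  · rintro ⟨S, p⟩ h
    simp only [mem_sigma, mem_filter, mem_powerset, mem_sdiff] at h
    simp only [mem_sigma, res_mem]
    have := card_insert_of_notMem h.2.2
    exact ⟨⟨insert_subset h.2.1 h.1.1, by omega⟩, mem_insert_self _ _⟩
  · rintro ⟨S, p⟩ h
    simp only [mem_sigma] at h
    simp [insert_erase h.2]
  · rintro ⟨S, p⟩ h
    simp only [mem_sigma, mem_filter, mem_powerset, mem_sdiff] at h
    simp [erase_insert h.2.2]
  · rintro ⟨S, p⟩ h
    simp only [mem_sigma] at h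
    simp [insert_erase h.2]

theorem gain {x : ℝ} (hx : ∀ p ∈ P, x ≤ p) (hx0 : 0 < x) (h1 : a ^ 2 * ∑ p ∈ P, (1 / p : ℝ) = 2 * k)
    (h2 : 2 * k ≤ x * ∑ p ∈ P, (1 / p : ℝ)) :
    k * QQ P k a ≤ 2 * ∑ S ∈ SS P k, #S * fS a S ^ 2 := by
  have hA : (k : ℝ) * ∑ S ∈ P.powerset.filter (fun S => #S < k), fS a S ^ 2 ≤
      ∑ S ∈ SS P k, #S * fS a S ^ 2 := by
    have e : ∑ S ∈ SS P k, (#S : ℝ) * fS a S ^ 2 = ∑ S ∈ SS P k, ∑ _p ∈ S, fS a S ^ 2 :=
      sum_congr rfl fun S _ => by rw [sum_const, nsmul_eq_mul]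
    rw [e, res_dc P k fun S _ => fS a S ^ 2, mul_sum]
    refine sum_le_sum fun S hS => ?_
    rw [mem_filter, mem_powerset] at hS
    have e2 : ∑ p ∈ P \ S, fS a (insert p S) ^ 2 =
        a ^ 2 * (∑ p ∈ P \ S, (1 / p : ℝ)) * fS a S ^ 2 := by
      rw [mul_sum, sum_mul]
      refine sum_congr rfl fun p hp => ?_
      rw [fS, prod_insert (mem_sdiff.1 hp).2, mul_pow, div_pow, Real.sq_sqrt (Nat.cast_nonneg _), fS]
      ring
    rw [e2]
    refine mul_le_mul_of_nonneg_right ?_ (sq_nonneg _)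
    have e3 := sum_sdiff (f := fun p : ℕ => (1 / p : ℝ)) hS.1
    have e4 : ∑ p ∈ S, (1 / p : ℝ) ≤ k / x := by
      calc ∑ p ∈ S, (1 / p : ℝ) ≤ ∑ _p ∈ S, 1 / x :=
            sum_le_sum fun p hp => one_div_le_one_div_of_le hx0 (hx p (hS.1 hp))
        _ = #S / x := by rw [sum_const, nsmul_eq_mul]; ring
        _ ≤ k / x := by
            have : (#S : ℝ) ≤ k := by exact_mod_cast hS.2.le
            gcongr
    have e5 : (k : ℝ) / x ≤ (∑ p ∈ P, (1 / p : ℝ)) / 2 := by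
      rw [div_le_div_iff₀ hx0 two_pos]; linarith
    have e6 : (∑ p ∈ P, (1 / p : ℝ)) / 2 ≤ ∑ p ∈ P \ S, (1 / p : ℝ) := by linarith
    nlinarith [mul_le_mul_of_nonneg_left e6 (sq_nonneg a)]
  have hB : (k : ℝ) * ∑ S ∈ (SS P k).filter (fun S => ¬ #S < k), fS a S ^ 2 ≤
      ∑ S ∈ SS P k, #S * fS a S ^ 2 := by
    rw [mul_sum]
    refine le_trans (sum_le_sum fun S hS => ?_) (sum_le_sum_of_subset_of_nonneg
      (filter_subset (fun S => ¬ #S < k) _) fun S _ _ => by positivity)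
    have : (k : ℝ) ≤ #S := by exact_mod_cast not_lt.1 (mem_filter.1 hS).2
    gcongr
  have e : (SS P k).filter (fun S => #S < k) = P.powerset.filter (fun S => #S < k) := by
    ext S; simp only [mem_filter, res_mem, mem_powerset]
    exact ⟨fun h => ⟨h.1.1, h.2⟩, fun h => ⟨⟨h.1, h.2.le⟩, h.2⟩⟩
  rw [QQ, ← sum_filter_add_sum_filter_not (SS P k) (fun S => #S < k), e, mul_add]
  linarith

theorem res_pf (hP : ∀ p ∈ P, p.Prime) {S : Finset ℕ} (hS : S ⊆ P) : (mS S).primeFactors = S :=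
  Nat.primeFactors_prod fun p hp => hP p (hS hp)

theorem res_pos (hP : ∀ p ∈ P, p.Prime) {S : Finset ℕ} (hS : S ⊆ P) : 1 ≤ mS S :=
  prod_pos fun p hp => (hP p (hS hp)).pos

theorem res_card (hP : ∀ p ∈ P, p.Prime) (hN : ∀ S ∈ SS P k, mS S ≤ N) : #(SS P k) ≤ N := by
  have h := card_le_card_of_injOn (s := SS P k) (t := Icc 1 N) mS
    (fun S hS => mem_coe.2 (mem_Icc.2 ⟨res_pos hP (res_mem.1 hS).1, hN S hS⟩))
    (fun S hS T hT h => by
      rw [← res_pf hP (res_mem.1 hS).1, h, res_pf hP (res_mem.1 hT).1])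
  simpa using h

theorem res_om (hP : ∀ p ∈ P, p.Prime) {S : Finset ℕ} (hS : S ⊆ P) :
    ArithmeticFunction.cardFactors (mS S) = #S := by
  induction S using Finset.induction_on with
  | empty => simp [mS]
  | insert p S hp ih =>
    have h1 : S ⊆ P := (subset_insert _ _).trans hS
    have h2 := hP p (hS (mem_insert_self _ _))
    have h3 := res_pos hP h1
    rw [mS, prod_insert hp, card_insert_of_notMem hp,
      ArithmeticFunction.cardFactors_mul h2.ne_zero (by rw [mS] at h3; omega),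
      ArithmeticFunction.cardFactors_apply_prime h2]
    rw [mS] at ih
    rw [ih h1, add_comm]

theorem res_succ (hP : ∀ p ∈ P, p.Prime) {S T : Finset ℕ} (hS : S ⊆ P) (hT : T ⊆ P) {n : ℕ}
    (hn : IsPrimePow n) (h : mS S * n = mS T) : #T = #S + 1 := by
  have sq : Squarefree (mS T) := by
    refine (Nat.squarefree_iff_factorization_le_one (by have := res_pos hP hT; omega)).2 ?_
    intro q
    rw [mS, Nat.factorization_prod_apply (fun p hp => (hP p (hT hp)).ne_zero)]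
    calc ∑ p ∈ T, p.factorization q = ∑ p ∈ T, if p = q then 1 else 0 :=
          sum_congr rfl fun p hp => by rw [(hP p (hT hp)).factorization, Finsupp.single_apply]
      _ ≤ 1 := by rw [sum_ite_eq']; split_ifs <;> omega
  have sn : Squarefree n := sq.squarefree_of_dvd ⟨mS S, by rw [← h, mul_comm]⟩
  have hp : n.Prime := Nat.squarefree_and_prime_pow_iff_prime.1 ⟨sn, hn⟩
  have h3 := res_pos hP hS
  rw [← res_om hP hT, ← h, ArithmeticFunction.cardFactors_mul (by omega) hp.ne_zero, res_om hP hS,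
    ArithmeticFunction.cardFactors_apply_prime hp]

theorem res_diag (hP : ∀ p ∈ P, p.Prime) (ha : 0 < a) {c : ℕ → ℝ} (c0 : ∀ n, 0 ≤ c n) {w : ℝ}
    (c2 : ∀ p ∈ P, p ≤ Y ∧ w / √p ≤ c p) :
    w / a * ∑ S ∈ SS P k, #S * fS a S ^ 2 ≤ ∑ i ∈ SS P k ×ˢ Icc 1 Y, ∑ T ∈ SS P k,
      if mS i.1 * i.2 = mS T then fS a i.1 * c i.2 * fS a T else 0 := by
  rw [sum_comm, mul_sum]
  refine sum_le_sum fun T hT => ?_
  obtain ⟨hT1, hT2⟩ := res_mem.1 hT
  have inj : Set.InjOn (fun p => (T.erase p, p)) (T : Set ℕ) := fun p _ q _ h => (Prod.ext_iff.1 h).2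
  have sub : T.image (fun p => (T.erase p, p)) ⊆ SS P k ×ˢ Icc 1 Y := by
    intro i hi
    obtain ⟨p, hp, rfl⟩ := mem_image.1 hi
    refine mem_product.2 ⟨res_mem.2 ⟨(erase_subset _ _).trans hT1, card_erase_le.trans hT2⟩,
      mem_Icc.2 ⟨(hP p (hT1 hp)).pos, (c2 p (hT1 hp)).1⟩⟩
  refine le_trans ?_ (sum_le_sum_of_subset_of_nonneg sub fun i _ _ => ?_)
  · rw [sum_image inj]
    have e : w / a * ((#T : ℝ) * fS a T ^ 2) = ∑ _p ∈ T, w / a * fS a T ^ 2 := by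
      rw [sum_const, nsmul_eq_mul]; ring
    rw [e]
    refine sum_le_sum fun p hp => ?_
    have e1 : mS (T.erase p) * p = mS T := prod_erase_mul T (fun p => p) hp
    have e2 : fS a (T.erase p) * (a / √p) = fS a T := prod_erase_mul T (fun p : ℕ => a / √p) hp
    rw [if_pos e1]
    have h1 := fS_nonneg ha.le (T.erase p)
    have h2 := fS_nonneg ha.le T
    have e3 : w / a * fS a T ^ 2 = fS a (T.erase p) * (w / √p) * fS a T := by
      rw [sq]; nth_rewrite 1 [← e2]; field_simp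
    rw [e3]
    have := (c2 p (hT1 hp)).2
    gcongr
  · have := fS_nonneg ha.le i.1
    have := fS_nonneg ha.le T
    have := c0 i.2
    split_ifs <;> positivity

theorem main (hP : ∀ p ∈ P, p.Prime) (ha : 0 < a) (hN : ∀ S ∈ SS P k, mS S ≤ N) {c : ℕ → ℝ}
    (c0 : ∀ n, 0 ≤ c n ∧ c n ≤ 1) (c1 : ∀ n, c n ≠ 0 → IsPrimePow n) {w : ℝ}
    (c2 : ∀ p ∈ P, p ≤ Y ∧ w / √p ≤ c p) (hw : 0 ≤ w) (hY : 1 ≤ Y)
    (hg : k * QQ P k a ≤ 2 * ∑ S ∈ SS P k, #S * fS a S ^ 2) {ε : ℝ} (hε : ε = 1 ∨ ε = -1)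
    (h : N * Y * gs (H / (N * Y)) ≤ 1) (t₀ : ℝ) :
    √(2 * Real.pi) * QQ P k a * (w * k / (2 * a) - 1) ≤
      ∫ x : ℝ, ‖RR P k a (-ε * I) (t₀ + H * x)‖ ^ 2 *
        (ε * (∑ n ∈ Icc 1 Y, c n * ee n (t₀ + H * x)).im) * gs x := by
  classical
  set θ : ℂ := -ε * I with hθ
  have ε2 : ε * ε = 1 := by rcases hε with h | h <;> simp [h]
  have εa : |ε| = 1 := by rcases hε with h | h <;> simp [h]
  have nθ : ‖θ‖ = 1 := by simp [hθ, εa]
  have cθ : conj θ = ε * I := by simp [hθ]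
  have tθ : θ * conj θ = 1 := by rw [mul_conj', nθ]; simp
  have hY' : (1 : ℝ) ≤ Y := by exact_mod_cast hY
  have key := mv (A := SS P k ×ˢ Icc 1 Y) (B := SS P k) (Y := (N : ℝ) * Y) (H := H) t₀
    (fun i => θ ^ #i.1 * fS a i.1 * c i.2) (fun S => θ ^ #S * fS a S)
    (m := fun i => mS i.1 * i.2) (n := mS)
    (fun i hi => by
      obtain ⟨h1, h2⟩ := mem_product.1 hi
      have h3 := res_pos hP (res_mem.1 h1).1
      have h4 := hN _ h1
      obtain ⟨h5, h6⟩ := mem_Icc.1 h2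
      exact ⟨Nat.mul_pos h3 h5, by exact_mod_cast Nat.mul_le_mul h4 h6⟩)
    (fun S hS => ⟨res_pos hP (res_mem.1 hS).1, by
      have h4 : (mS S : ℝ) ≤ N := by exact_mod_cast hN _ hS
      nlinarith [(Nat.cast_nonneg N : (0 : ℝ) ≤ N)]⟩)
  have eA : ∀ t : ℝ, ∑ i ∈ SS P k ×ˢ Icc 1 Y, θ ^ #i.1 * fS a i.1 * c i.2 * ee (mS i.1 * i.2) t =
      RR P k a θ t * ∑ n ∈ Icc 1 Y, c n * ee n t := fun t => by
    rw [RR, sum_mul_sum, sum_product]
    refine sum_congr rfl fun S hS => sum_congr rfl fun n hn => ?_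
    have h3 := res_pos hP (res_mem.1 hS).1
    have h5 := (mem_Icc.1 hn).1
    dsimp only
    rw [ee_mul (by omega) (by omega)]; ring
  have eB : ∀ t : ℝ, ∑ S ∈ SS P k, θ ^ #S * fS a S * ee (mS S) t = RR P k a θ t := fun t => rfl
  simp only [eA, eB] at key
  set F : ℝ → ℂ := fun x => (RR P k a θ (t₀ + H * x) * ∑ n ∈ Icc 1 Y, c n * ee n (t₀ + H * x)) *
    conj (RR P k a θ (t₀ + H * x)) * gs x with hF
  have nR : ∀ t, ‖RR P k a θ t‖ ≤ ∑ S ∈ SS P k, fS a S := fun t =>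
    (norm_sum_le _ _).trans (sum_le_sum fun S _ => by
      rw [norm_mul, norm_mul, norm_pow, nθ, norm_ee, norm_real, Real.norm_of_nonneg (fS_nonneg ha.le S)]
      simp)
  have nD : ∀ t, ‖∑ n ∈ Icc 1 Y, (c n : ℂ) * ee n t‖ ≤ ∑ n ∈ Icc 1 Y, c n := fun t =>
    (norm_sum_le _ _).trans (sum_le_sum fun n _ => by
      rw [norm_mul, norm_ee, norm_real, Real.norm_of_nonneg (c0 n).1, mul_one])
  have f0 : 0 ≤ ∑ S ∈ SS P k, fS a S := sum_nonneg fun S _ => fS_nonneg ha.le S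
  have cs0 : 0 ≤ ∑ n ∈ Icc 1 Y, c n := sum_nonneg fun n _ => (c0 n).1
  have iF : Integrable F := by
    have ig : Integrable gs := integrable_exp_neg_mul_sq (b := 1 / 2) (by norm_num)
    refine (ig.const_mul ((∑ S ∈ SS P k, fS a S) * (∑ n ∈ Icc 1 Y, c n) *
      ∑ S ∈ SS P k, fS a S)).mono' ?_ (Filter.Eventually.of_forall fun x => ?_)
    · refine Continuous.aestronglyMeasurable ?_
      have cR : Continuous fun x : ℝ => RR P k a θ (t₀ + H * x) := by unfold RR; fun_prop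
      rw [hF]
      exact ((cR.mul (by fun_prop)).mul (continuous_conj.comp cR)).mul (by fun_prop)
    · simp only [hF]
      rw [norm_mul, norm_mul, norm_mul, norm_conj, norm_real, Real.norm_of_nonneg (gs_pos x).le]
      have := gs_pos x
      have := nR (t₀ + H * x)
      have := nD (t₀ + H * x)
      gcongr
  have eI : (∫ x : ℝ, ‖RR P k a θ (t₀ + H * x)‖ ^ 2 *
      (ε * (∑ n ∈ Icc 1 Y, c n * ee n (t₀ + H * x)).im) * gs x) = ε * (∫ x, F x).im := by
    have h1 : (∫ x, F x).im = ∫ x, (F x).im := (integral_im iF).symm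
    rw [h1, ← integral_const_mul]
    refine integral_congr_ae (Filter.Eventually.of_forall fun x => ?_)
    have : F x = ((‖RR P k a θ (t₀ + H * x)‖ ^ 2 * gs x : ℝ) : ℂ) *
        ∑ n ∈ Icc 1 Y, c n * ee n (t₀ + H * x) := by
      simp only [hF]
      push_cast
      rw [← mul_conj']; ring
    simp only []
    rw [this, im_ofReal_mul]; ring
  set D : ℝ := ∑ i ∈ SS P k ×ˢ Icc 1 Y, ∑ T ∈ SS P k,
    if mS i.1 * i.2 = mS T then fS a i.1 * c i.2 * fS a T else 0 with hD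
  have eD : (∑ i ∈ SS P k ×ˢ Icc 1 Y, ∑ T ∈ SS P k, if mS i.1 * i.2 = mS T then
      θ ^ #i.1 * fS a i.1 * c i.2 * conj (θ ^ #T * fS a T) else 0) = ε * I * D := by
    rw [hD]; push_cast; rw [mul_sum]
    refine sum_congr rfl fun i hi => ?_
    rw [mul_sum]
    refine sum_congr rfl fun T hT => ?_
    by_cases e : mS i.1 * i.2 = mS T
    · rw [if_pos e, if_pos e]
      by_cases hc : c i.2 = 0
      · simp [hc]
      · rw [res_succ hP (res_mem.1 (mem_product.1 hi).1).1 (res_mem.1 hT).1 (c1 _ hc) e, map_mul,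
          map_pow, conj_ofReal, pow_succ, ← cθ]
        have : θ ^ #i.1 * conj θ ^ #i.1 = 1 := by rw [← mul_pow, tθ, one_pow]
        push_cast
        linear_combination (conj θ * (fS a i.1 * c i.2 * fS a T)) * this
    · rw [if_neg e, if_neg e]; simp
  have nA : ∑ i ∈ SS P k ×ˢ Icc 1 Y, ‖θ ^ #i.1 * fS a i.1 * c i.2‖ =
      (∑ S ∈ SS P k, fS a S) * ∑ n ∈ Icc 1 Y, c n := by
    rw [sum_mul_sum, sum_product]
    refine sum_congr rfl fun S _ => sum_congr rfl fun n _ => ?_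
    rw [norm_mul, norm_mul, norm_pow, nθ, norm_real, norm_real,
      Real.norm_of_nonneg (fS_nonneg ha.le S), Real.norm_of_nonneg (c0 n).1]
    simp
  have nB : ∑ S ∈ SS P k, ‖θ ^ #S * fS a S‖ = ∑ S ∈ SS P k, fS a S :=
    sum_congr rfl fun S _ => by
      rw [norm_mul, norm_pow, nθ, norm_real, Real.norm_of_nonneg (fS_nonneg ha.le S)]; simp
  have key2 : ‖(∫ x, F x) - (√(2 * Real.pi) : ℝ) * (ε * I * D)‖ ≤ √(2 * Real.pi) *
      gs (H / (N * Y)) * (((∑ S ∈ SS P k, fS a S) * ∑ n ∈ Icc 1 Y, c n) *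
        ∑ S ∈ SS P k, fS a S) := by
    rw [← eD, ← nA, ← nB]
    convert key
  have cY : ∑ n ∈ Icc 1 Y, c n ≤ Y := by
    simpa using sum_le_card_nsmul (Icc 1 Y) c 1 fun n _ => (c0 n).2
  have fQ : (∑ S ∈ SS P k, fS a S) ^ 2 ≤ N * QQ P k a := by
    refine sq_sum_le_card_mul_sum_sq.trans ?_
    have : (#(SS P k) : ℝ) ≤ N := by exact_mod_cast res_card hP hN
    have h2 := one_le_QQ P k a
    rw [QQ] at h2 ⊢
    gcongr
  have Q1 := one_le_QQ P k a
  have g0 := gs_pos (H / (N * Y))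
  have s0 : 0 ≤ √(2 * Real.pi) := Real.sqrt_nonneg _
  have err : gs (H / (N * Y)) * (((∑ S ∈ SS P k, fS a S) * ∑ n ∈ Icc 1 Y, c n) *
      ∑ S ∈ SS P k, fS a S) ≤ QQ P k a := by
    calc _ = gs (H / (N * Y)) * ((∑ S ∈ SS P k, fS a S) ^ 2 * ∑ n ∈ Icc 1 Y, c n) := by ring
      _ ≤ gs (H / (N * Y)) * (N * QQ P k a * Y) := by gcongr
      _ = N * Y * gs (H / (N * Y)) * QQ P k a := by ring
      _ ≤ 1 * QQ P k a := by gcongr
      _ = _ := one_mul _
  have im1 := (abs_im_le_norm _).trans key2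
  have e5 : ((∫ x, F x) - (√(2 * Real.pi) : ℝ) * (ε * I * D)).im =
      (∫ x, F x).im - √(2 * Real.pi) * (ε * D) := by simp
  rw [e5, mul_assoc] at im1
  have im2 : |ε * (∫ x, F x).im - √(2 * Real.pi) * D| ≤ √(2 * Real.pi) * QQ P k a := by
    have : ε * (∫ x, F x).im - √(2 * Real.pi) * D =
        ε * ((∫ x, F x).im - √(2 * Real.pi) * (ε * D)) := by
      linear_combination (√(2 * Real.pi) * D) * ε2
    rw [this, abs_mul, εa, one_mul]
    exact im1.trans (mul_le_mul_of_nonneg_left err s0)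
  have dg := res_diag (k := k) hP ha (fun n => (c0 n).1) c2
  have dg2 : QQ P k a * (w * k / (2 * a)) ≤ D := by
    refine le_trans ?_ dg
    calc QQ P k a * (w * k / (2 * a)) = w / a * (k * QQ P k a / 2) := by field_simp
      _ ≤ _ := by
          refine mul_le_mul_of_nonneg_left (by linarith) (by positivity)
  rw [eI]
  have := (abs_le.1 im2).1
  nlinarith [mul_le_mul_of_nonneg_left dg2 s0]

end Res

end Pool.Agent.Lib.MP_31bf45_nt.Om
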