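import Pool.Agent.Lib.MP_31bf45_nt.Om.Pt
import Pool.Agent.Lib.MP_31bf45_nt.Om.Core
import Pool.Agent.Lib.MP_31bf45_nt.Om.Res
import Pool.Agent.Lib.MP_31bf45_nt.Om.Asy
import Pool.Agent.Lib.MP_31bf45_nt.Om.KerB
import Pool.Agent.Lib.MP_b09185_nt.ShDens

/-! Large values of the argument of zeta: choice of the parameters. -/

set_option autoImplicit false

namespace Pool.Agent.Lib.MP_31bf45_nt.Om

open Complex Finset MeasureTheory Metric Pool.Agent.Lib.MP_b09185_nt.Sh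

theorem end_exp {z : ℝ} (hz : 2400 ≤ z) : z ^ 600 * Real.exp (-z ^ 2 / 4) ≤ 1 := by
  have h1 : z ≤ Real.exp z := by linarith [Real.add_one_le_exp z]
  have h2 : z ^ 600 ≤ Real.exp (600 * z) := by
    rw [show (600 : ℝ) * z = (600 : ℕ) * z by norm_num, Real.exp_nat_mul]
    exact pow_le_pow_left₀ (by linarith) h1 _
  refine (mul_le_mul_of_nonneg_right h2 (Real.exp_pos _).le).trans ?_
  rw [← Real.exp_add, Real.exp_le_one_iff]
  nlinarith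

theorem end_gs {z m : ℝ} (hz : 2400 ≤ z) (h1 : 1 ≤ m) (h2 : m ≤ z ^ 600) :
    m * gs (z ^ 601 / m) ≤ 1 := by
  refine le_trans (mul_le_mul h2 (Real.exp_le_exp.2 ?_) (gs_pos _).le (by positivity)) (end_exp hz)
  have h3 : z ≤ z ^ 601 / m := by
    rw [le_div_iff₀ (by linarith), pow_succ' z 600]
    exact mul_le_mul_of_nonneg_left h2 (by linarith)
  nlinarith

theorem end_mS {x k : ℕ} {S : Finset ℕ} (hx : 1 ≤ x)
    (h : S ∈ SS ((Ioc x (x ^ 2)).filter Nat.Prime) k) : mS S ≤ x ^ (2 * k) := by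
  obtain ⟨h1, h2⟩ := mem_filter.1 h
  refine (prod_le_pow_card S (fun p => p) (x ^ 2) fun p hp =>
    (mem_Ioc.1 (mem_filter.1 (mem_powerset.1 h1 hp)).1).2).trans ?_
  rw [← pow_mul]
  exact Nat.pow_le_pow_right hx (by omega)

theorem end_num {V r A E q m : ℝ} (hV : 0 < V) (r1 : 1 ≤ r) (hq : 0 < q) (hm : 3 / 32 * V ≤ m)
    (h : r * q * (m - 1) ≤ q * (2 * r * A + E)) (hE : E ≤ 5) (hA : 2 * A + 6 ≤ 1 / 20 * V) :
    False := by
  have h1 : r * (m - 1) ≤ 2 * r * A + E := le_of_mul_le_mul_left (by linarith) hq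
  nlinarith

theorem end_b3 {a σ k l : ℝ} (h1 : a ^ 2 * σ = 2 * k) (h2 : σ ≤ 3) (h3 : 0 ≤ k) (h4 : k ≤ l / 8) :
    4 * a * σ ≤ 200 * √l := by
  have : a * σ ≤ √l := Real.le_sqrt_of_sq_le (by
    rw [mul_pow, sq σ, ← mul_assoc, h1]; nlinarith)
  linarith [Real.sqrt_nonneg l]

theorem end_b4 {a σ k V : ℝ} (h1 : a ^ 2 * σ = 2 * k) (h2 : 1 / 4 ≤ σ) (h3 : 19 * V ^ 2 ≤ k)
    (ha : 0 < a) (_ : 0 < V) : 3 / 32 * V ≤ Real.exp (-2) * k / (2 * a) := by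
  have e1 : 1 / 8 ≤ Real.exp (-2) := by
    rw [Real.exp_neg, one_div, show (2 : ℝ) = 1 + 1 by norm_num, Real.exp_add]
    refine inv_anti₀ (by positivity) ?_
    nlinarith [Real.exp_one_lt_d9, Real.exp_pos 1]
  have k0 : 0 < k := by nlinarith
  have e3 : a ^ 2 ≤ 8 * k := by nlinarith
  have e2 : 3 / 2 * V * a ≤ k := by
    refine abs_le_of_sq_le_sq' ?_ k0.le |>.2
    have := mul_le_mul h3 e3 (sq_nonneg _) k0.le
    nlinarith
  rw [le_div_iff₀ (by positivity)]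
  nlinarith

theorem end_pos {z : ℝ} (hz : 2400 ≤ z) : 2 ≤ z ^ 602 ∧ 3 * z ^ 602 + 5 ≤ z ^ 603 ∧
    z ^ 603 ≤ z ^ 999 ∧ z ^ 601 * z = z ^ 602 ∧ 20 ≤ z ^ 999 := by
  have h1 : z ≤ z ^ 602 := le_self_pow₀ (by linarith) (by norm_num)
  have h2 : z ≤ z ^ 999 := le_self_pow₀ (by linarith) (by norm_num)
  refine ⟨by linarith, ?_, pow_le_pow_right₀ (by linarith) (by norm_num), (pow_succ _ _).symm,
    by linarith⟩
  rw [pow_succ z 602]
  generalize z ^ 602 = w at *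
  nlinarith

theorem end_Z : ∃ Z1 : ℕ, ∀ Z : ℕ, Z1 ≤ Z → 160 ≤ Real.log ⌈Real.log Z⌉₊ ∧ ∀ T : ℝ,
    (Z : ℝ) ^ 999 ≤ T → 2 * T ≤ (Z : ℝ) ^ 1000 → ∀ ε : ℝ, ε = 1 ∨ ε = -1 →
      ∃ y ∈ Set.Icc T (T + (Z : ℝ) ^ 603), ∃ s, IsS y s ∧
        1 / 200 * √(Real.log Z / Real.log ⌈Real.log Z⌉₊) ≤ ε * s := by
  obtain ⟨C, Z0, hC, hpt⟩ := pt
  obtain ⟨x0, hx0⟩ := primes_sum
  obtain ⟨l0, hl0⟩ := asy (2000 * C + 10) (1 / 100) (by norm_num)
  obtain ⟨Z1, hZ1⟩ := Filter.eventually_atTop.1 ((((Real.tendsto_log_atTop.comp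
    tendsto_natCast_atTop_atTop).eventually_ge_atTop (max l0 (max x0 1))).and
    (Filter.eventually_ge_atTop Z0)).and (Filter.eventually_ge_atTop 2400))
  refine ⟨Z1, fun Z hZ => ?_⟩
  obtain ⟨⟨z1, z2⟩, z3⟩ := hZ1 Z hZ
  obtain ⟨b, hb, hpt⟩ := hpt Z z2
  have z4 : (2400 : ℝ) ≤ Z := by exact_mod_cast z3
  have z5 : (1 : ℝ) ≤ Z := by linarith
  simp only [Function.comp, max_le_iff] at z1
  obtain ⟨l, hl⟩ : ∃ l, l = Real.log Z := ⟨_, rfl⟩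
  have el : Real.exp l = Z := by rw [hl, Real.exp_log (by linarith)]
  rw [← hl] at z1 ⊢
  obtain ⟨l1, l2, l3⟩ := z1
  obtain ⟨x, hx⟩ : ∃ x, x = ⌈l⌉₊ := ⟨_, rfl⟩
  have x1 : l ≤ x := hx ▸ Nat.le_ceil l
  have x2 : (x : ℝ) ≤ l + 1 := hx ▸ (Nat.ceil_lt_add_one (by linarith)).le
  have x3 : 1 ≤ x := by exact_mod_cast l3.trans x1
  rw [← hx]
  obtain ⟨κ, hκ⟩ : ∃ κ, κ = Real.log x := ⟨_, rfl⟩
  rw [← hκ]
  obtain ⟨a1, a2, a3, a4, a5, a6⟩ := hl0 l κ l1 (hκ ▸ Real.log_le_log (by linarith) x1)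
    (hκ ▸ Real.log_le_log (by linarith) x2)
  refine ⟨a1, fun T T1 T2 ε hε => by_contra fun hc => ?_⟩
  obtain ⟨s1, s2⟩ := hx0 x (by exact_mod_cast l2.trans x1)
  obtain ⟨P, hP⟩ : ∃ P, P = (Ioc x (x ^ 2)).filter Nat.Prime := ⟨_, rfl⟩
  have p1 : ∀ p ∈ P, p.Prime := fun p hp => (mem_filter.1 (hP ▸ hp)).2
  have p2 : ∀ p ∈ P, x < p ∧ p ≤ x ^ 2 := fun p hp => mem_Ioc.1 (mem_filter.1 (hP ▸ hp)).1
  obtain ⟨k, hk⟩ : ∃ k, k = ⌊20 * (l / κ)⌋₊ := ⟨_, rfl⟩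
  have κ0 : 0 < κ := by linarith
  have v1 : 1 ≤ l / κ := (one_le_div κ0).2 a2
  have v2 : l / κ ≤ l / 160 := by gcongr
  have k1 : (k : ℝ) ≤ 20 * (l / κ) := hk ▸ Nat.floor_le (by linarith)
  have k2 : 19 * (l / κ) ≤ k := by linarith [hk ▸ Nat.lt_floor_add_one (20 * (l / κ))]
  have hN : ∀ S ∈ SS P k, mS S ≤ Z ^ 40 := fun S hS => by
    refine (end_mS x3 (hP ▸ hS)).trans ?_
    have : (x : ℝ) ^ (2 * k) ≤ (Z : ℝ) ^ 40 := by
      rw [← el, ← Real.exp_log (show (0 : ℝ) < x by linarith), ← Real.exp_nat_mul,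
        ← Real.exp_nat_mul, ← hκ]
      refine Real.exp_le_exp.2 ?_
      have := mul_le_mul_of_nonneg_right k1 κ0.le
      rw [mul_assoc, div_mul_cancel₀ _ κ0.ne'] at this
      push_cast; linarith
    exact_mod_cast this
  rw [← hP] at s1 s2
  obtain ⟨σ, hσ⟩ : ∃ σ, σ = ∑ p ∈ P, (1 / p : ℝ) := ⟨_, rfl⟩
  rw [← hσ] at s1 s2
  obtain ⟨a, ha⟩ : ∃ a, a = √(2 * k / σ) := ⟨_, rfl⟩
  have b0 : 0 < 2 * k / σ := div_pos (by linarith) (by linarith)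
  have b1 : 0 < a := ha ▸ Real.sqrt_pos.2 b0
  have b2 : a ^ 2 * σ = 2 * k := by
    rw [ha, Real.sq_sqrt b0.le, div_mul_cancel₀ _ (by linarith)]
  have b3 := end_b3 b2 s2 k.cast_nonneg (show (k : ℝ) ≤ l / 8 by linarith)
  obtain ⟨V, hV⟩ : ∃ V, V = √(l / κ) := ⟨_, rfl⟩
  have V0 : 0 < V := hV ▸ Real.sqrt_pos.2 (by linarith)
  have V1 : V ^ 2 = l / κ := by rw [hV, Real.sq_sqrt (by linarith)]
  rw [← hV] at hc a5
  have b4 := end_b4 b2 s1 (V1 ▸ k2) b1 V0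
  obtain ⟨δ, hδ⟩ : ∃ δ, δ = l ^ (-(1 / 3) : ℝ) := ⟨_, rfl⟩
  have δ0 : 0 < δ := hδ ▸ Real.rpow_pos_of_pos (by linarith) _
  rw [← hδ] at a3 a5 a6
  obtain ⟨Y, hY⟩ : ∃ Y, Y = ⌈Real.exp (6 * κ ^ 2)⌉₊ := ⟨_, rfl⟩
  have Y1 : Real.exp (6 * κ ^ 2) ≤ Y := hY ▸ Nat.le_ceil _
  have Y2 : (Y : ℝ) ≤ Real.exp (6 * κ ^ 2) + 1 := hY ▸ (Nat.ceil_lt_add_one (Real.exp_pos _).le).le
  have Y3 : (Y : ℝ) ≤ Z := by linarith
  have Y4 : (1 : ℝ) ≤ Y := (Real.one_le_exp (by positivity)).trans Y1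
  have p3 : ∀ p ∈ P, Real.log p ≤ 2 * κ := fun p hp => by
    have h1 : (p : ℝ) ≤ (x : ℝ) ^ 2 := by exact_mod_cast (p2 p hp).2
    have := Real.log_le_log (by exact_mod_cast (p1 p hp).pos) h1
    rwa [Real.log_pow, Nat.cast_ofNat, ← hκ] at this
  have p4 : ∀ p ∈ P, p ≤ Y := fun p hp => by
    have h1 : (p : ℝ) ≤ Y := by
      rw [← Real.exp_log (show (0 : ℝ) < p by exact_mod_cast (p1 p hp).pos)]
      refine (Real.exp_le_exp.2 ((p3 p hp).trans ?_)).trans Y1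
      rw [sq, ← mul_assoc]
      exact mul_le_mul_of_nonneg_right (by linarith) κ0.le
    exact_mod_cast h1
  have hθ : ‖(-ε * I : ℂ)‖ = 1 := by rcases hε with rfl | rfl <;> simp
  have hε1 : |ε| = 1 := by rcases hε with rfl | rfl <;> simp
  have w1 : ∀ j : ℕ, 1 ≤ (Z : ℝ) ^ j := fun j => one_le_pow₀ z5
  have w2 : ∀ i j : ℕ, i ≤ j → (Z : ℝ) ^ i ≤ (Z : ℝ) ^ j := fun i j => pow_le_pow_right₀ z5
  have w3 : (Y : ℝ) * (Z : ℝ) ^ 40 ≤ (Z : ℝ) ^ 600 :=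
    (mul_le_mul_of_nonneg_right Y3 (by positivity)).trans (by rw [← pow_succ']; exact w2 _ _ (by norm_num))
  obtain ⟨q1, q2, q3, q4, q5⟩ := end_pos z4
  have lo := main (Y := Y) (H := (Z : ℝ) ^ 601) p1 b1 hN (cc_mem κ) (fun n => cc_pow)
    (fun p hp => ⟨p4 p hp, cc_prime κ0 (p1 p hp) (p3 p hp)⟩) (Real.exp_pos _).le
    (by exact_mod_cast Y4) (gain (x := x) (fun p hp => by exact_mod_cast (p2 p hp).1.le) (by linarith)
      (hσ ▸ b2) (by rw [← hσ]; linarith [mul_le_mul x1 s1 (by norm_num) x.cast_nonneg])) hε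
    (end_gs z4 (by push_cast; exact one_le_mul_of_one_le_of_one_le (w1 _) Y4)
      (by push_cast; rw [mul_comm]; exact w3)) (T + 2 * (Z : ℝ) ^ 602)
  have u0 : 0 ≤ δ ^ 2 * κ ^ 2 + κ * Real.exp (-κ ^ 2 / 4) := by positivity
  obtain ⟨u, hu⟩ : ∃ u, u = δ ^ 2 * κ ^ 2 + κ * Real.exp (-κ ^ 2 / 4) := ⟨_, rfl⟩
  have up := core (K := Z ^ 560) (H := (Z : ℝ) ^ 601) p1 b1.le hN hθ hb
    (end_gs z4 (by push_cast; exact w1 _) (by push_cast; exact w2 _ _ (by norm_num)))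
    (end_gs z4 (by push_cast; rw [← pow_add]; exact w1 _) (by push_cast; rw [← pow_add]))
    (F := fun t => ε * (∑ n ∈ Icc 1 Y, cc κ n * ee n t).im) (by fun_prop) (W := Y)
    (A := Real.pi * (1 / 200 * V) + 2 + C * u * (1000 * l)) (B := C * Y / (δ ^ 2 * (Z : ℝ) ^ δ))
    (X := Z) (fun t => by
      rw [abs_mul, hε1, one_mul]
      refine (abs_im_le_norm _).trans ((norm_sum_le_of_le _ (n := fun _ => (1 : ℝ))
        fun n _ => ?_).trans (by simp))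
      rw [norm_mul, norm_ee, mul_one, norm_real, Real.norm_of_nonneg (cc_mem κ n).1]
      exact (cc_mem κ n).2) (by rw [hu]; positivity) (by positivity) (by linarith)
    (T + 2 * (Z : ℝ) ^ 602) fun x hx => by
      have e1 : |(Z : ℝ) ^ 601 * x| ≤ (Z : ℝ) ^ 602 := by
        rw [abs_mul, abs_of_nonneg (by positivity), ← q4]
        exact mul_le_mul_of_nonneg_left hx (by positivity)
      obtain ⟨e2, e3⟩ := abs_le.1 e1
      generalize (Z : ℝ) ^ 601 * x = y at e2 e3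
      refine (hpt κ _ δ ε (1 / 200 * V) Y (by linarith) (by linarith) (by linarith) δ0 a3 hε
        (by positivity) Y1 fun y' s hy hs => le_of_not_ge fun h => hc ⟨y', ?_, s, hs, h⟩).trans ?_
      · obtain ⟨e4, e5⟩ := abs_le.1 hy
        exact ⟨by linarith, by linarith⟩
      · rw [← hu]
        have e4 := Real.log_le_log (show 0 < T + 2 * (Z : ℝ) ^ 602 + y by linarith)
          (show _ ≤ (Z : ℝ) ^ 1000 by linarith)
        rw [Real.log_pow, ← hl, Nat.cast_ofNat] at e4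
        rw [← hu] at u0
        gcongr
  rw [← hu] at a5 u0
  refine end_num V0 MP_b09185_nt.Mai.one_le_sqrt_two_pi
    (zero_lt_one.trans_le (one_le_QQ P k a)) b4 ((lo.trans up).trans_eq (by rw [add_assoc])) ?_ ?_
  · have e1 : (Y : ℝ) * ((Z ^ 40 : ℕ) : ℝ) * Real.exp (-(Z : ℝ) ^ 2 / 4) ≤ 1 := by
      refine le_trans ?_ (end_exp z4)
      push_cast
      gcongr
    have e2 : 72 * (C * Y / (δ ^ 2 * (Z : ℝ) ^ δ)) *
        (Real.exp (4 * a * σ) * (1 + Real.log ((Z ^ 560 : ℕ) : ℝ)) ^ 4) ≤ 1 := by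
      refine le_trans ?_ a6
      rw [Real.rpow_def_of_pos (by linarith), Nat.cast_pow, Real.log_pow, ← hl, Nat.cast_ofNat,
        ← mul_div_assoc, ← mul_assoc 72 C]
      gcongr
      linarith
    rw [← hσ]
    linarith
  · have e1 : Real.pi * (1 / 200 * V) ≤ 4 * (1 / 200 * V) :=
      mul_le_mul_of_nonneg_right Real.pi_le_four (by positivity)
    have e2 : 0 ≤ u * l := by positivity
    have e3 : (2000 * C + 10) * (1 + u * l) =
      10 + 2 * (C * u * (1000 * l)) + (2000 * C + 10 * (u * l)) := by ring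
    linarith

theorem omega : ∃ c : ℝ, 0 < c ∧ ∃ T₀ : ℝ, ∀ T ≥ T₀, ∀ ε : ℝ, ε = 1 ∨ ε = -1 →
    ∃ y ∈ Set.Icc T (T + T ^ (2 / 3 : ℝ)), ∃ s, IsS y s ∧
      c * √(Real.log T / Real.log (Real.log T)) ≤ ε * s := by
  obtain ⟨Z1, hZ1⟩ := end_Z
  obtain ⟨D, hD⟩ : ∃ D : ℝ, D = ((1 : ℕ) : ℝ) ^ 1000 + 2 ^ 1000 := ⟨_, rfl⟩
  have D0 : 0 ≤ D := by rw [hD]; positivity
  obtain ⟨m, hm⟩ : ∃ m : ℝ, m = Z1 + 2 * D + 3 := ⟨_, rfl⟩
  have m1 : 3 ≤ m := by linarith [Z1.cast_nonneg (α := ℝ)]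
  refine ⟨1 / 200 / 32, by norm_num, m ^ 1000, fun T hT ε hε => ?_⟩
  have T1 : m ≤ T := (le_self_pow₀ (by linarith) (by norm_num)).trans hT
  obtain ⟨Z, -, h1, h2⟩ := dens_scale 1000 (by norm_num) 1 (T := 2 * T) (by linarith)
  rw [← hD] at h2
  have z1 : m ≤ Z := le_of_pow_le_pow_left₀ (n := 1000) (by norm_num) Z.cast_nonneg (by linarith)
  have z2 : (0 : ℝ) < Z := by linarith
  have h3 : (Z : ℝ) ^ 999 ≤ T := by
    refine le_of_mul_le_mul_right (a := (Z : ℝ)) ?_ z2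
    rw [← pow_succ]
    refine h2.trans ?_
    rw [← mul_assoc, mul_comm]
    exact mul_le_mul_of_nonneg_left (by linarith [Z1.cast_nonneg (α := ℝ)]) (by linarith)
  obtain ⟨a1, h⟩ := hZ1 Z (by exact_mod_cast (show (Z1 : ℝ) ≤ Z by linarith))
  obtain ⟨y, hy, s, hs, h4⟩ := h T h3 h1 ε hε
  have h5 : (Z : ℝ) ^ 603 ≤ T ^ (2 / 3 : ℝ) := by
    refine le_trans ?_ (Real.rpow_le_rpow (by positivity) h3 (by norm_num))
    rw [← Real.rpow_natCast, ← Real.rpow_natCast, ← Real.rpow_mul z2.le]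
    exact Real.rpow_le_rpow_of_exponent_le (by linarith) (by norm_num)
  refine ⟨y, ⟨hy.1, by linarith [hy.2]⟩, s, hs, le_trans ?_ h4⟩
  have l1 : 1 ≤ Real.log Z := by
    rw [Real.le_log_iff_exp_le z2]
    linarith [Real.exp_one_lt_three]
  have l2 := Real.log_le_log (by positivity) h3
  have l3 := Real.log_le_log (show 0 < T by linarith) (show T ≤ (Z : ℝ) ^ 1000 by linarith)
  rw [Real.log_pow, Nat.cast_ofNat] at l2 l3
  have l4 : (⌈Real.log Z⌉₊ : ℝ) ≤ Real.log T := by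
    linarith [Nat.ceil_lt_add_one (show 0 ≤ Real.log Z by linarith)]
  have l5 := Real.log_le_log (by linarith [Nat.le_ceil (Real.log Z)]) l4
  have l6 : Real.log T / Real.log (Real.log T) ≤
      32 ^ 2 * (Real.log Z / Real.log ⌈Real.log Z⌉₊) := by
    rw [← mul_div_assoc]
    exact div_le_div₀ (by positivity) (by linarith) (by linarith) l5
  have l7 := Real.sqrt_le_sqrt l6
  rw [Real.sqrt_mul (by norm_num), Real.sqrt_sq (by norm_num)] at l7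
  linarith

/-- no zero on the right half of the horizontal line means no zero on the whole line -/
theorem no_ord {t : ℝ} (ht : t ≠ 0)
    (h : ∀ x ∈ Set.Icc (1 / 2 : ℝ) 2, riemannZeta (x + t * I) ≠ 0) (x : ℝ) :
    riemannZeta (x + t * I) ≠ 0 := by
  have h1 : ∀ x : ℝ, 1 / 2 ≤ x → riemannZeta (x + t * I) ≠ 0 := fun x hx => by
    rcases le_total x 2 with h2 | h2
    · exact h x ⟨hx, h2⟩
    · exact riemannZeta_ne_zero_of_one_le_re (by simp; linarith)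
  rcases le_total (1 / 2) x with hx | hx
  · exact h1 x hx
  have h2 := h1 (1 - x) (by linarith)
  obtain ⟨s, hs⟩ : ∃ s : ℂ, s = (1 - x : ℝ) + t * I := ⟨_, rfl⟩
  have h3 : s.im = t := by simp [hs]
  have h4 : ∀ n : ℕ, s ≠ -n := fun n e => ht (by rw [← h3, e]; simp)
  have h5 : (x + t * I : ℂ) = (starRingEnd ℂ) (1 - s) := by
    apply Complex.ext <;> simp [hs]
  rw [h5, riemannZeta_conj, map_ne_zero,
    riemannZeta_one_sub h4 fun e => ht (by rw [← h3, e]; simp)]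
  refine mul_ne_zero (mul_ne_zero (mul_ne_zero (mul_ne_zero two_ne_zero ?_) (Gamma_ne_zero h4))
    fun e => ?_) (hs ▸ h2)
  · exact cpow_ne_zero_iff.2 (Or.inl (by simp [Real.pi_ne_zero]))
  · obtain ⟨k, hk⟩ := cos_eq_zero_iff.1 e
    have := congrArg im hk
    simp [h3, Real.pi_ne_zero] at this
    exact ht this

end Pool.Agent.Lib.MP_31bf45_nt.Om
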