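import Pool.Agent.Lib.MP_31bf45_nt.Om.Def

/-! The diagonal terms of the twisted second moment. -/

set_option autoImplicit false

namespace Pool.Agent.Lib.MP_31bf45_nt.Om

open Finset

theorem dg_le {α β : Type} {X : Finset α} {Y : Finset β} (ψ : β → α) {F : α → ℝ} {G : β → ℝ}
    (hG : ∀ y ∈ Y, 0 ≤ G y) (h : ∀ x ∈ X, F x ≤ 0 ∨ ∃ y ∈ Y, ψ y = x ∧ F x ≤ G y) :
    ∑ x ∈ X, F x ≤ ∑ y ∈ Y, G y := by
  classical
  have h0 : ∀ x, 0 ≤ ∑ y ∈ Y with ψ y = x, G y := fun x =>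
    sum_nonneg fun y hy => hG y (mem_filter.1 hy).1
  refine (sum_le_sum fun x hx => ?_).trans
    (sum_fiberwise_le_sum_of_sum_fiber_nonneg (g := ψ) (t := X) fun x _ => h0 x)
  rcases h x hx with h | ⟨y, hy, e, h⟩
  · exact h.trans (h0 x)
  · exact h.trans (single_le_sum (fun y hy => hG y (mem_filter.1 hy).1) (mem_filter.2 ⟨hy, e⟩))

theorem dg_mul (m n : ℕ) : (#(m * n).divisors : ℝ) ≤ #m.divisors * #n.divisors := by
  rw [Nat.divisors_mul]
  exact_mod_cast card_mul_le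

theorem dg_conv (K : ℕ) {F c : ℕ → ℝ} (hF : ∀ n, 0 ≤ F n)
    (h : ∀ a b, 0 < a → 0 < b → c (a * b) ≤ F a * F b) :
    ∑ l ∈ Icc 1 K, #l.divisors * c l ≤ (∑ l ∈ Icc 1 K, F l) ^ 2 := by
  rw [sq, sum_mul_sum, ← sum_product']
  refine (sum_le_sum fun l hl => ?_).trans
    (sum_fiberwise_le_sum_of_sum_fiber_nonneg (g := fun p : ℕ × ℕ => p.1 * p.2) (t := Icc 1 K)
      fun x _ => sum_nonneg fun y _ => mul_nonneg (hF _) (hF _))
  obtain ⟨l1, l2⟩ := mem_Icc.1 hl
  have e := Nat.sum_divisorsAntidiagonal (n := l) fun _ _ => c l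
  rw [sum_const (s := l.divisors), nsmul_eq_mul] at e
  have k : ∀ p ∈ l.divisorsAntidiagonal, p.1 * p.2 = l ∧ 0 < p.1 ∧ 0 < p.2 := fun p hp => by
    have := (Nat.mem_divisorsAntidiagonal.1 hp).1
    exact ⟨this, Nat.pos_of_mul_pos_right (this ▸ l1), Nat.pos_of_mul_pos_left (this ▸ l1)⟩
  rw [← e]
  refine (sum_le_sum fun p hp => ?_).trans (sum_le_sum_of_subset_of_nonneg
    (s := l.divisorsAntidiagonal) (fun p hp => ?_) fun y _ _ => mul_nonneg (hF _) (hF _))
  · obtain ⟨e, h1, h2⟩ := k p hp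
    exact e ▸ h _ _ h1 h2
  · obtain ⟨e, h1, h2⟩ := k p hp
    exact mem_filter.2 ⟨mem_product.2
      ⟨mem_Icc.2 ⟨h1, (Nat.le_mul_of_pos_right _ h2).trans (e ▸ l2)⟩,
        mem_Icc.2 ⟨h2, (Nat.le_mul_of_pos_left _ h1).trans (e ▸ l2)⟩⟩, e⟩

theorem dsq (K : ℕ) : ∑ l ∈ Icc 1 K, (#l.divisors : ℝ) ^ 2 / l ≤ (1 + Real.log K) ^ 4 := by
  have h0 : ∑ k ∈ Icc 1 K, (1 : ℝ) / k ≤ 1 + Real.log K := by
    have h := harmonic_le_one_add_log K
    rw [harmonic_eq_sum_Icc] at h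
    push_cast at h
    simpa [one_div] using h
  have h1 := dg_conv K (F := fun n => 1 / n) (c := fun n => 1 / n) (fun _ => by positivity)
    fun a b _ _ => by push_cast; rw [div_mul_div_comm, one_mul]
  have h2 := dg_conv K (F := fun n => #n.divisors * (1 / n)) (c := fun n => #n.divisors * (1 / n))
    (fun _ => by positivity) fun a b _ _ => by
      push_cast
      rw [mul_mul_mul_comm, div_mul_div_comm, one_mul]
      exact mul_le_mul_of_nonneg_right (dg_mul a b) (by positivity)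
  calc _ = ∑ l ∈ Icc 1 K, (#l.divisors : ℝ) * (#l.divisors * (1 / l)) :=
        sum_congr rfl fun l _ => by ring
    _ ≤ _ := h2
    _ ≤ ((1 + Real.log K) ^ 2) ^ 2 := pow_le_pow_left₀ (sum_nonneg fun _ _ => by positivity)
        (h1.trans (pow_le_pow_left₀ (sum_nonneg fun _ _ => by positivity) h0 2)) 2
    _ = _ := by ring

variable {P : Finset ℕ} {a : ℝ}

theorem dg_one (ha : 0 ≤ a) {A : Finset ℕ} (hA : ∀ p ∈ A, p.Prime) :
    fS a A * (#(mS A).divisors / √(mS A)) ≤ ∏ p ∈ A, 2 * a / p := by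
  induction A using Finset.induction_on with
  | empty => simp [fS, mS]
  | insert p A hp ih =>
    have pp := hA p (mem_insert_self _ _)
    have p0 : (0 : ℝ) < p := by exact_mod_cast pp.pos
    have e1 : mS (insert p A) = p * mS A := prod_insert hp
    have e2 : fS a (insert p A) = a / √p * fS a A := prod_insert hp
    have d := dg_mul p (mS A)
    rw [pp.divisors, card_pair pp.one_lt.ne] at d
    rw [prod_insert hp, e1, e2]
    refine le_trans ?_ (mul_le_mul_of_nonneg_left (ih fun q hq => hA q (mem_insert_of_mem hq))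
      (by positivity))
    have f0 := fS_nonneg ha A
    calc _ ≤ a / √p * fS a A * (((2 : ℕ) : ℝ) * #(mS A).divisors / √(p * mS A : ℕ)) := by gcongr
      _ = 2 * a / (√p * √p) * (fS a A * (#(mS A).divisors / √(mS A))) := by
        push_cast
        rw [Real.sqrt_mul p0.le]
        ring
      _ = _ := by rw [Real.mul_self_sqrt p0.le]

theorem dg_pow (ha : 0 ≤ a) (P : Finset ℕ) :
    ∑ A ∈ P.powerset, ∏ p ∈ A, 2 * a / p ≤ Real.exp (2 * a * ∑ p ∈ P, (1 / p : ℝ)) := by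
  rw [← prod_one_add, mul_sum, Real.exp_sum]
  refine prod_le_prod (fun p _ => by positivity) fun p _ => ?_
  rw [add_comm, mul_one_div]
  exact Real.add_one_le_exp _

theorem diag (hP : ∀ p ∈ P, p.Prime) (ha : 0 ≤ a) (k K : ℕ) :
    (∑ i ∈ SS P k ×ˢ Icc 1 K, ∑ j ∈ SS P k ×ˢ Icc 1 K, if mS i.1 * i.2 = mS j.1 * j.2 then
      fS a i.1 * (#i.2.divisors / √i.2) * (fS a j.1 * (#j.2.divisors / √j.2)) else 0) ≤
      QQ P k a * Real.exp (4 * a * ∑ p ∈ P, (1 / p : ℝ)) * (1 + Real.log K) ^ 4 := by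
  rw [← sum_product']
  have g0 : ∀ A : Finset ℕ, 0 ≤ ∏ p ∈ A, 2 * a / p := fun A => prod_nonneg fun _ _ => by positivity
  refine (dg_le (Y := (SS P k ×ˢ P.powerset ×ˢ P.powerset) ×ˢ Icc 1 K)
    (fun y => ((y.1.1 ∪ y.1.2.1, mS y.1.2.2 * y.2), (y.1.1 ∪ y.1.2.2, mS y.1.2.1 * y.2)))
    (G := fun y => fS a y.1.1 ^ 2 * ((∏ p ∈ y.1.2.1, 2 * a / p) * ∏ p ∈ y.1.2.2, 2 * a / p) *
      ((#y.2.divisors : ℝ) ^ 2 / y.2))
    (fun y _ => mul_nonneg (mul_nonneg (sq_nonneg _) (mul_nonneg (g0 _) (g0 _))) (by positivity))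
    ?_).trans ?_
  · rintro ⟨⟨S, n⟩, T, m⟩ hx
    simp only [mem_product, SS, mem_filter, mem_powerset, mem_Icc] at hx
    obtain ⟨⟨⟨hS, kS⟩, n1, nK⟩, ⟨hT, -⟩, -, -⟩ := hx
    by_cases e : mS S * n = mS T * m
    swap
    · exact Or.inl (if_neg e).le
    have pA : ∀ p ∈ S \ T, p.Prime := fun p hp => hP p (hS (mem_sdiff.1 hp).1)
    have pB : ∀ p ∈ T \ S, p.Prime := fun p hp => hP p (hT (mem_sdiff.1 hp).1)
    have m1 : mS S = mS (S ∩ T) * mS (S \ T) := (prod_inter_mul_prod_sdiff S T _).symm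
    have m2 : mS T = mS (S ∩ T) * mS (T \ S) := by
      rw [inter_comm]; exact (prod_inter_mul_prod_sdiff T S _).symm
    have f1 : fS a S = fS a (S ∩ T) * fS a (S \ T) := (prod_inter_mul_prod_sdiff S T _).symm
    have f2 : fS a T = fS a (S ∩ T) * fS a (T \ S) := by
      rw [inter_comm]; exact (prod_inter_mul_prod_sdiff T S _).symm
    have u0 : 0 < mS (S ∩ T) := prod_pos fun p hp => (hP p (hS (mem_inter.1 hp).1)).pos
    have b0 : 0 < mS (T \ S) := prod_pos fun p hp => (pB p hp).pos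
    have e' : mS (S \ T) * n = mS (T \ S) * m := Nat.eq_of_mul_eq_mul_left u0 (by
      rw [← mul_assoc, ← mul_assoc, ← m1, ← m2, e])
    have co : (mS (T \ S)).Coprime (mS (S \ T)) :=
      Nat.Coprime.prod_left fun p hp => Nat.Coprime.prod_right fun q hq =>
        (Nat.coprime_primes (pB p hp) (pA q hq)).2 fun h =>
          (mem_sdiff.1 hp).2 (h ▸ (mem_sdiff.1 hq).1)
    obtain ⟨l, rfl⟩ := co.dvd_of_dvd_mul_left (e' ▸ dvd_mul_right _ m)
    obtain rfl : m = mS (S \ T) * l := Nat.eq_of_mul_eq_mul_left b0 (by rw [← e']; ring)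
    have l1 : 0 < l := Nat.pos_of_mul_pos_left n1
    refine Or.inr ⟨((S ∩ T, S \ T, T \ S), l), ?_, ?_, ?_⟩
    · simp only [mem_product, SS, mem_filter, mem_powerset, mem_Icc]
      exact ⟨⟨⟨inter_subset_left.trans hS, (card_le_card inter_subset_left).trans kS⟩,
        sdiff_subset.trans hS, sdiff_subset.trans hT⟩, l1, (Nat.le_mul_of_pos_left _ b0).trans nK⟩
    · have a1 : S ∩ T ∪ S \ T = S := by rw [union_comm, sdiff_union_inter]
      have a2 : S ∩ T ∪ T \ S = T := by rw [union_comm, inter_comm, sdiff_union_inter]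
      simp only [a1, a2]
    · have l0 : (0 : ℝ) ≤ l := l.cast_nonneg
      have z1 := fS_nonneg ha (S ∩ T)
      have z2 := fS_nonneg ha (S \ T)
      have z3 := fS_nonneg ha (T \ S)
      refine (if_pos e).trans_le ?_
      dsimp only
      rw [f1, f2]
      calc _ ≤ fS a (S ∩ T) * fS a (S \ T) *
            (#(mS (T \ S)).divisors * #l.divisors / √(mS (T \ S) * l : ℕ)) *
            (fS a (S ∩ T) * fS a (T \ S) *
              (#(mS (S \ T)).divisors * #l.divisors / √(mS (S \ T) * l : ℕ))) := by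
            gcongr <;> exact dg_mul _ _
        _ = fS a (S ∩ T) ^ 2 * (fS a (S \ T) * (#(mS (S \ T)).divisors / √(mS (S \ T))) *
            (fS a (T \ S) * (#(mS (T \ S)).divisors / √(mS (T \ S))))) *
            ((#l.divisors : ℝ) ^ 2 / (√l * √l)) := by
            push_cast
            rw [Real.sqrt_mul' _ l0, Real.sqrt_mul' _ l0]
            ring
        _ ≤ _ := by
            rw [Real.mul_self_sqrt l0]
            refine mul_le_mul_of_nonneg_right (mul_le_mul_of_nonneg_left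
              (mul_le_mul (dg_one ha pA) (dg_one ha pB) (by positivity) (g0 _)) (sq_nonneg _))
              (by positivity)
  · rw [sum_product, ← sum_mul_sum (f := fun y : Finset ℕ × Finset ℕ × Finset ℕ => fS a y.1 ^ 2 *
      ((∏ p ∈ y.2.1, 2 * a / p) * ∏ p ∈ y.2.2, 2 * a / p))
      (g := fun l : ℕ => (#l.divisors : ℝ) ^ 2 / l), sum_product,
      ← sum_mul_sum (f := fun S => fS a S ^ 2) (g := fun y : Finset ℕ × Finset ℕ =>
        (∏ p ∈ y.1, 2 * a / p) * ∏ p ∈ y.2, 2 * a / p), sum_product,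
      ← sum_mul_sum (f := fun A : Finset ℕ => ∏ p ∈ A, 2 * a / p)
        (g := fun A : Finset ℕ => ∏ p ∈ A, 2 * a / p)]
    have q0 := zero_le_one.trans (one_le_QQ P k a)
    refine mul_le_mul (mul_le_mul_of_nonneg_left ?_ q0) (dsq K)
      (sum_nonneg fun _ _ => by positivity) (by positivity)
    refine (mul_le_mul (dg_pow ha P) (dg_pow ha P) (sum_nonneg fun A _ => g0 A)
      (Real.exp_pos _).le).trans (le_of_eq ?_)
    rw [← Real.exp_add]
    congr 1
    ring

end Pool.Agent.Lib.MP_31bf45_nt.Om
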