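import Pool.Agent.Lib.MP_31bf45_nt.Om.MV
import Pool.Agent.Lib.MP_31bf45_nt.Om.Diag

/-! Mean values against the resonator. -/

set_option autoImplicit false

namespace Pool.Agent.Lib.MP_31bf45_nt.Om

open Complex Finset MeasureTheory Metric Pool.Agent.Lib.MP_b09185_nt.Sh

variable {P : Finset ℕ} {k N K Y : ℕ} {a H : ℝ} {θ : ℂ}

theorem tw_prime (hP : ∀ p ∈ P, p.Prime) {S : Finset ℕ} (hS : S ∈ SS P k) : ∀ p ∈ S, p.Prime :=
  fun p hp => hP p (mem_powerset.1 (mem_filter.1 hS).1 hp)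

theorem tw_pos (hP : ∀ p ∈ P, p.Prime) {S : Finset ℕ} (hS : S ∈ SS P k) : 0 < mS S :=
  prod_pos fun p hp => (tw_prime hP hS p hp).pos

theorem mS_inj (hP : ∀ p ∈ P, p.Prime) : Set.InjOn mS (SS P k : Set (Finset ℕ)) := by
  intro S hS S' hS' h
  rw [← Nat.primeFactors_prod (tw_prime hP hS), ← Nat.primeFactors_prod (tw_prime hP hS')]
  exact congrArg Nat.primeFactors h

theorem card_SS (hP : ∀ p ∈ P, p.Prime) (hN : ∀ S ∈ SS P k, mS S ≤ N) : #(SS P k) ≤ N := by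
  simpa using card_le_card_of_injOn (t := Icc 1 N) mS
    (fun S hS => mem_coe.2 (mem_Icc.2 ⟨tw_pos hP hS, hN S hS⟩)) (mS_inj hP)

theorem tw_norm (ha : 0 ≤ a) (hθ : ‖θ‖ = 1) (S : Finset ℕ) : ‖θ ^ #S * fS a S‖ = fS a S := by
  rw [norm_mul, norm_pow, hθ, one_pow, one_mul, norm_real, Real.norm_of_nonneg (fS_nonneg ha S)]

theorem sup_RR (hP : ∀ p ∈ P, p.Prime) (ha : 0 ≤ a) (hN : ∀ S ∈ SS P k, mS S ≤ N) (hθ : ‖θ‖ = 1)
    (t : ℝ) : ‖RR P k a θ t‖ ^ 2 ≤ N * QQ P k a := by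
  have h1 : ‖RR P k a θ t‖ ≤ ∑ S ∈ SS P k, fS a S :=
    (norm_sum_le _ _).trans (le_of_eq (sum_congr rfl fun S _ => by
      rw [norm_mul, tw_norm ha hθ, norm_ee, mul_one]))
  have h2 : (#(SS P k) : ℝ) ≤ N := by exact_mod_cast card_SS hP hN
  calc _ ≤ (∑ S ∈ SS P k, fS a S) ^ 2 := by gcongr
    _ ≤ #(SS P k) * QQ P k a := sq_sum_le_card_mul_sum_sq
    _ ≤ _ := mul_le_mul_of_nonneg_right h2 (zero_le_one.trans (one_le_QQ P k a))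

theorem mass (hP : ∀ p ∈ P, p.Prime) (ha : 0 ≤ a) (hN : ∀ S ∈ SS P k, mS S ≤ N) (hθ : ‖θ‖ = 1)
    (h : N * gs (H / N) ≤ 1) (t₀ : ℝ) :
    ∫ x : ℝ, ‖RR P k a θ (t₀ + H * x)‖ ^ 2 * gs x ≤ 2 * √(2 * Real.pi) * QQ P k a := by
  have h2 : (#(SS P k) : ℝ) ≤ N := by exact_mod_cast card_SS hP hN
  refine (mv_sq (A := SS P k) (Y := N) (H := H) t₀ (fun S => θ ^ #S * fS a S) (m := mS)
    (fun S hS => ⟨tw_pos hP hS, by exact_mod_cast hN S hS⟩)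
    ((mul_le_mul_of_nonneg_right h2 (gs_pos _).le).trans h)).trans (le_of_eq ?_)
  congr 1
  refine sum_congr rfl fun S hS => ?_
  rw [sum_eq_single_of_mem S hS fun S' hS' ne => if_neg fun e => ne (mS_inj hP hS hS' e).symm,
    if_pos rfl, tw_norm ha hθ, sq]

theorem tw (hP : ∀ p ∈ P, p.Prime) (ha : 0 ≤ a) (hN : ∀ S ∈ SS P k, mS S ≤ N) (hθ : ‖θ‖ = 1)
    {b : ℕ → ℂ} (hb : Dv b) (h : N * K * gs (H / (N * K)) ≤ 1) (t₀ v : ℝ) :
    ∫ x : ℝ, ‖RR P k a θ (t₀ + H * x)‖ ^ 2 * ‖QP K b (t₀ + H * x + v)‖ ^ 2 * gs x ≤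
      6 * (QQ P k a * Real.exp (4 * a * ∑ p ∈ P, (1 / p : ℝ)) * (1 + Real.log K) ^ 4) := by
  have e : ∀ t : ℝ, ‖RR P k a θ t‖ ^ 2 * ‖QP K b (t + v)‖ ^ 2 = ‖∑ i ∈ SS P k ×ˢ Icc 1 K,
      θ ^ #i.1 * fS a i.1 * (b i.2 / (√i.2 : ℝ) * ee i.2 v) * ee (mS i.1 * i.2) t‖ ^ 2 := by
    intro t
    rw [← mul_pow, ← norm_mul, RR, QP, sum_mul_sum, sum_product]
    congr 2
    refine sum_congr rfl fun S hS => sum_congr rfl fun n hn => ?_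
    rw [ee_mul (tw_pos hP hS).ne' (Nat.pos_iff_ne_zero.1 (mem_Icc.1 hn).1), ee_add]
    ring
  have h2 : (#(SS P k ×ˢ Icc 1 K) : ℝ) ≤ N * K := by
    rw [card_product, Nat.card_Icc, Nat.add_sub_cancel]
    exact_mod_cast Nat.mul_le_mul_right K (card_SS hP hN)
  have h3 : ∀ i : Finset ℕ × ℕ, ‖θ ^ #i.1 * fS a i.1 * (b i.2 / (√i.2 : ℝ) * ee i.2 v)‖ ≤
      fS a i.1 * (#i.2.divisors / √i.2) := fun i => by
    rw [norm_mul, tw_norm ha hθ, norm_mul, norm_ee, mul_one, norm_div, norm_real,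
      Real.norm_of_nonneg (Real.sqrt_nonneg _)]
    have := fS_nonneg ha i.1
    have := hb i.2
    gcongr
  have h4 : 2 * √(2 * Real.pi) ≤ 6 := by
    have : √(2 * Real.pi) ≤ 3 := Real.sqrt_le_iff.2 ⟨by norm_num, by linarith [Real.pi_le_four]⟩
    linarith
  simp only [e]
  refine (mv_sq (A := SS P k ×ˢ Icc 1 K) (Y := N * K) (H := H) t₀
    (fun i => θ ^ #i.1 * fS a i.1 * (b i.2 / (√i.2 : ℝ) * ee i.2 v)) (m := fun i => mS i.1 * i.2)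
    (fun i hi => ?_) ((mul_le_mul_of_nonneg_right h2 (gs_pos _).le).trans h)).trans
    (mul_le_mul h4 (le_trans (sum_le_sum fun i _ => sum_le_sum fun j _ => ?_) (diag hP ha k K))
      (sum_nonneg fun i _ => sum_nonneg fun j _ => by split_ifs <;> positivity) (by norm_num))
  · obtain ⟨h5, h6⟩ := mem_product.1 hi
    obtain ⟨h7, h8⟩ := mem_Icc.1 h6
    exact ⟨Nat.mul_pos (tw_pos hP h5) h7, by exact_mod_cast Nat.mul_le_mul (hN _ h5) h8⟩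
  · split_ifs
    · exact mul_le_mul (h3 i) (h3 j) (norm_nonneg _) ((norm_nonneg _).trans (h3 i))
    · exact le_rfl

end Pool.Agent.Lib.MP_31bf45_nt.Om
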