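import Pool.Agent.Lib.MP_31bf45_nt.Om.Def
import Pool.Agent.Lib.MP_b09185_nt.ShDet

/-! Zero detection near the critical line: reflection and the middle integral. -/

set_option autoImplicit false

namespace Pool.Agent.Lib.MP_31bf45_nt.Om

open Complex Finset MeasureTheory Metric Pool.Agent.Lib.MP_b09185_nt.Sh
open scoped ComplexConjugate

theorem da_kk {ρ s : ℂ} (hρ : 1 ≤ |ρ.im|) {d : ℝ} (hd : 0 < d) (hs : d ≤ ‖s‖) :
    ‖Dt.kk ρ s‖ ≤ d⁻¹ + 1 := by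
  refine (norm_add_le _ _).trans (add_le_add ?_ (Dt.inv_le_one hρ))
  rw [norm_inv]
  exact inv_anti₀ hd hs

open Dt MP_b09185_nt.Mai in
theorem left' : ∃ C : ℝ, 0 ≤ C ∧ ∀ Z : ℕ, 1 ≤ Z → ∀ β γ : ℝ, 1 / 2 < β → β ≤ 1 → 1 ≤ |γ| →
    |γ| ≤ (Z : ℝ) ^ 1000 → riemannZeta (β + γ * I) = 0 →
    ‖∫ u : ℝ, riemannZeta (β + γ * I + ((2 : ℝ) + u * I)) *
      Dt.MM Z (β + γ * I + ((2 : ℝ) + u * I)) * Dt.kk (β + γ * I) ((2 : ℝ) + u * I) *
      MP_b09185_nt.Mai.EE (Dt.yy Z) ((2 : ℝ) + u * I)‖ ≤ C / Z +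
      ‖∫ u : ℝ, Dt.HH Z (β + γ * I) ((1 / 2 - β : ℝ) + u * I) *
        MP_b09185_nt.Mai.EE (Dt.yy Z) ((1 / 2 - β : ℝ) + u * I)‖ := by
  obtain ⟨D, hD1, hD⟩ := zeta1_strip 30
  obtain ⟨E, hE0, hE⟩ : ∃ E : ℝ, 0 ≤ E ∧ ∀ c v : ℝ, -31 ≤ c → c ≤ -30 → 0 ≤ v →
      Real.exp (c ^ 2 / 2 + v * c) * Real.exp ((30 : ℕ) ^ 2) ≤ E / Real.exp ((30 : ℕ) * v) :=
    ⟨Real.exp (31 ^ 2 / 2 + 30 ^ 2), (Real.exp_pos _).le, fun c v h1 h2 h3 => by
      rw [← Real.exp_add, ← Real.exp_sub]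
      exact Real.exp_le_exp.2 (by push_cast; nlinarith)⟩
  refine ⟨3 * 60 ^ 30 * 2 * 19 * E * 4, by positivity, fun Z hZ β γ h1 h2 h3 h4 h0 => ?_⟩
  set ρ : ℂ := β + γ * I with hρ
  have hZ' : (1 : ℝ) ≤ Z := by exact_mod_cast hZ
  have hi : 1 ≤ |ρ.im| := by simpa [hρ] using h3
  have hre : ∀ x u : ℝ, (ρ + (x + u * I)).re = β + x := fun x u => by simp [hρ]
  have him : ∀ x u : ℝ, (ρ + (x + u * I)).im = γ + u := fun x u => by simp [hρ]
  have hM : ∀ x u : ℝ, 1 / 2 - 30 - β ≤ x → ‖MM Z (ρ + (x + u * I))‖ ≤ (Z : ℝ) ^ (30 + 1) :=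
    fun x u hx => MM_le Z 30 (by rw [hre]; push_cast; linarith)
  obtain ⟨i1, e1⟩ := shift_poly (F := FF Z ρ) (σ₁ := 1 / 2 - 30 - β) (σ₂ := 2) (k := 30 + 2)
    (A := D * (1 + |γ|) ^ (30 + 2) * (Z : ℝ) ^ (30 + 1)) (yy Z) (by linarith) (by positivity)
    (FF_diff Z ρ).differentiableOn fun x hx u hu => by
      have hs : ((x : ℂ) + u * I) ≠ 0 := fun h => by
        have : u = 0 := by simpa using congrArg im h
        rw [this] at hu
        norm_num at hu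
      have a1 : ‖((x : ℂ) + u * I)⁻¹‖ ≤ 1 := by
        rw [norm_inv]
        exact inv_le_one_of_one_le₀ (hu.trans (by simpa using abs_im_le_norm ((x : ℂ) + u * I)))
      have a2 := hD (ρ + (x + u * I)) (by
        rw [hre, abs_le]
        push_cast
        constructor <;> linarith [hx.1, hx.2])
      rw [him] at a2
      rw [FF, ds_eq hi h0 hs, norm_mul, norm_mul, norm_mul]
      calc _ ≤ 1 * (D * ((1 + |γ|) * (1 + |u|)) ^ (30 + 2)) * (Z : ℝ) ^ (30 + 1) * 1 := by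
            gcongr
            · exact a2.trans (by gcongr; exact abs_add_le_mul γ u)
            · exact hM x u hx.1
            · exact inv_le_one hi
        _ = _ := by rw [mul_pow]; ring
  have hk : ∀ x u : ℝ, 1 ≤ |u| → ‖Dt.kk ρ (x + u * I)‖ ≤ 19 := fun x u hu =>
    (da_kk hi one_pos (hu.trans (by simpa using abs_im_le_norm ((x : ℂ) + u * I)))).trans
      (by norm_num)
  have hk' : ∀ u : ℝ, ‖Dt.kk ρ ((1 / 2 - 30 - β : ℝ) + u * I)‖ ≤ 19 := fun u =>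
    kk_le hi (by
      simp only [add_re, ofReal_re, mul_re, I_re, mul_zero, ofReal_im, I_im, mul_one, sub_self,
        add_zero]
      rw [abs_of_nonpos (by linarith)]
      linarith)
  obtain ⟨i2, e2⟩ := shift_poly (F := HH Z ρ) (σ₁ := 1 / 2 - 30 - β) (σ₂ := 1 / 2 - β) (k := 30)
    (A := 3 * (30 * (1 + |γ|)) ^ 30 * ((Z ^ 500 : ℕ) : ℝ) * (Z : ℝ) ^ (30 + 1) * 19) (yy Z)
    (by linarith) (by positivity) (fun s hs => by
      have a1 : s.re ≤ 1 / 2 - β := hs.1.2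
      have a2 : DifferentiableAt ℂ (fun z => chi (ρ + z)) s :=
        (chi_diffAt (s := ρ + s) (by simp [hρ]; linarith)).comp s (by fun_prop)
      have a3 : s ≠ 0 := fun h => by
        rw [h, zero_re] at a1
        linarith
      have a4 := hd_diff (Z ^ 500)
      have a5 := MM_diff Z
      refine DifferentiableAt.differentiableWithinAt ?_
      unfold HH Dt.kk
      fun_prop (disch := assumption))
    fun x hx u hu => by
      rw [HH, norm_mul, norm_mul, norm_mul]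
      calc _ ≤ 3 * (30 * (1 + |γ|)) ^ 30 * (1 + |u|) ^ 30 * ((Z ^ 500 : ℕ) : ℝ) *
            (Z : ℝ) ^ (30 + 1) * 19 := by
            gcongr
            · exact chi_le (by rw [hre]; linarith [hx.1]) (by rw [hre]; linarith [hx.2]) (him x u)
            · exact hd_le _ (by rw [sub_re, hre, one_re]; linarith [hx.2])
            · exact hM x u hx.1
            · exact hk x u hu
        _ = _ := by ring
  have e3 : ∀ u : ℝ, FF Z ρ ((2 : ℝ) + u * I) = riemannZeta (ρ + ((2 : ℝ) + u * I)) *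
      MM Z (ρ + ((2 : ℝ) + u * I)) * Dt.kk ρ ((2 : ℝ) + u * I) := fun u =>
    FF_eq Z hi h0 (fun h => by simpa using congrArg re h) fun h => by
      have := hre 2 u
      rw [h, one_re] at this
      linarith
  simp only [e3] at e1
  rw [← e1, ← e2]
  have j1 := i1 _ ⟨le_rfl, by linarith⟩
  have j2 := i2 _ ⟨le_rfl, by linarith⟩
  refine (norm_le_norm_sub_add _ _).trans (add_le_add ?_ le_rfl)
  rw [← integral_sub j1 j2]
  simp only [← sub_mul]
  have hb := line_le (k := 30) (F := fun u : ℝ => FF Z ρ ((1 / 2 - 30 - β : ℝ) + u * I) -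
    HH Z ρ ((1 / 2 - 30 - β : ℝ) + u * I))
    (A := 3 * (60 * (Z : ℝ) ^ 1000) ^ 30 * (2 * (1 / ((Z ^ 500 : ℕ) : ℝ) ^ 28)) *
      (Z : ℝ) ^ (30 + 1) * 19) (by positivity) (fun u => by
      have a1 := hre (1 / 2 - 30 - β) u
      set s : ℂ := (1 / 2 - 30 - β : ℝ) + u * I with hs
      have a2 : s ≠ 0 := fun h => by
        have : s.re = 1 / 2 - 30 - β := by simp only [hs, add_re, ofReal_re]; simp
        rw [h, zero_re] at this
        linarith
      have a3 : FF Z ρ s - HH Z ρ s = chi (ρ + s) *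
          (riemannZeta (1 - (ρ + s)) - hd (Z ^ 500) (1 - (ρ + s))) * MM Z (ρ + s) * Dt.kk ρ s := by
        rw [FF_eq Z hi h0 a2 (fun h => by rw [h, one_re] at a1; linarith), HH,
          zeta_refl (by linarith) (fun h => by rw [h, zero_re] at a1; linarith)]
        ring
      rw [a3, norm_mul, norm_mul, norm_mul]
      calc _ ≤ 3 * (60 * (Z : ℝ) ^ 1000) ^ 30 * (1 + |u|) ^ 30 *
            (2 * (1 / ((Z ^ 500 : ℕ) : ℝ) ^ 28)) * (Z : ℝ) ^ (30 + 1) * 19 := by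
            gcongr
            · refine (chi_le (w := ρ + s) (by linarith) (by linarith) (him _ u)).trans ?_
              have : (1 : ℝ) ≤ (Z : ℝ) ^ 1000 := h3.trans h4
              generalize (Z : ℝ) ^ 1000 = W at *
              gcongr 3 * ?_ ^ 30 * _
              linarith
            · exact zeta_tail (Nat.one_le_pow _ _ hZ) (by rw [sub_re, a1, one_re]; linarith)
            · exact hM _ u le_rfl
            · exact hk' u
        _ = _ := by ring) (yy Z) (1 / 2 - 30 - β)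
  refine hb.trans ?_
  have hy : 0 ≤ yy Z := mul_nonneg (by norm_num) (Real.log_nonneg hZ')
  have a4 := hE (1 / 2 - 30 - β) (yy Z) (by linarith) (by linarith) hy
  rw [exp_yy hZ] at a4
  have a5 : (Z : ℝ) ^ (1000 * 30) * (Z : ℝ) ^ (30 + 1) * Z ≤
      (Z : ℝ) ^ (500 * 28) * (Z : ℝ) ^ (550 * 30) := by
    rw [← pow_add, ← pow_succ, ← pow_add]
    exact pow_le_pow_right₀ hZ' (by norm_num)
  rw [mul_pow, Nat.cast_pow, ← pow_mul, ← pow_mul]
  have p1 : 0 < (Z : ℝ) ^ (500 * 28) := by positivity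
  have p2 : 0 < (Z : ℝ) ^ (550 * 30) := by positivity
  have p3 : 0 < (Z : ℝ) ^ (1000 * 30) := by positivity
  have p4 : 0 < (Z : ℝ) ^ (30 + 1) := by positivity
  generalize (Z : ℝ) ^ (500 * 28) = W1 at *
  generalize (Z : ℝ) ^ (550 * 30) = W2 at *
  generalize (Z : ℝ) ^ (1000 * 30) = W3 at *
  generalize (Z : ℝ) ^ (30 + 1) = W4 at *
  calc _ ≤ 3 * (60 ^ 30 * W3) * (2 * (1 / W1)) * W4 * 19 * (E / W2) * 4 := by gcongr
    _ = 3 * 60 ^ 30 * 2 * 19 * E * 4 / Z * (W3 * W4 * Z / (W1 * W2)) := by field_simp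
    _ ≤ _ := mul_le_of_le_one_right (by positivity) ((div_le_one (by positivity)).2 a5)

/-- coefficients of the product of the head and the mollifier -/
noncomputable def daB (N Z n : ℕ) : ℂ := ∑ x ∈ n.divisorsAntidiagonal,
  if x.1 ≤ N ∧ x.2 ≤ Z then (ArithmeticFunction.moebius x.2 : ℂ) else 0

theorem da_Dv (N Z : ℕ) : Dv (daB N Z) := fun n => by
  refine (norm_sum_le_of_le _ (n := fun _ => (1 : ℝ)) fun x _ => ?_).trans ?_
  · split_ifs
    · exact Dt.norm_mu _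
    · simp
  · rw [← Nat.map_div_right_divisors, sum_map]
    simp

theorem da_half {n : ℕ} (hn : n ≠ 0) (y : ℝ) :
    (n : ℂ) ^ (-((1 / 2 : ℝ) + y * I : ℂ)) = ((√n : ℝ) : ℂ)⁻¹ * ee n y := by
  rw [cpow_eq hn, Real.rpow_neg n.cast_nonneg, Real.sqrt_eq_rpow, ofReal_inv]

theorem da_mul {N Z K : ℕ} (h : N * Z ≤ K) (y : ℝ) :
    Dt.hd N ((1 / 2 : ℝ) + y * I) * Dt.MM Z ((1 / 2 : ℝ) + y * I) = QP K (daB N Z) y := by
  have e : QP K (daB N Z) y = ∑ n ∈ Icc 1 K, ∑ x ∈ n.divisorsAntidiagonal,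
      if x.1 ≤ N ∧ x.2 ≤ Z then (x.1 : ℂ) ^ (-((1 / 2 : ℝ) + y * I : ℂ)) *
        ((ArithmeticFunction.moebius x.2 : ℂ) * (x.2 : ℂ) ^ (-((1 / 2 : ℝ) + y * I : ℂ))) else 0 := by
    refine sum_congr rfl fun n hn => ?_
    rw [div_eq_mul_inv, mul_assoc, ← da_half (by have := (mem_Icc.1 hn).1; omega), daB, sum_mul]
    refine sum_congr rfl fun x hx => ?_
    split_ifs
    · rw [← (Nat.mem_divisorsAntidiagonal.1 hx).1, Nat.cast_mul, natCast_mul_natCast_cpow]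
      ring
    · rw [zero_mul]
  rw [e, Dt.hd, Dt.MM, sum_mul_sum, ← sum_product', sum_sigma', ← sum_filter]
  refine sum_bij' (fun x _ => ⟨x.1 * x.2, x⟩) (fun x _ => x.2) (fun x hx => ?_) (fun x hx => ?_)
    (fun _ _ => rfl) (fun x hx => ?_) fun _ _ => rfl
  · simp only [mem_product, mem_Icc] at hx
    simp only [mem_filter, mem_sigma, mem_Icc, Nat.mem_divisorsAntidiagonal, true_and]
    have h1 : 1 * 1 ≤ x.1 * x.2 := Nat.mul_le_mul hx.1.1 hx.2.1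
    exact ⟨⟨⟨by omega, (Nat.mul_le_mul hx.1.2 hx.2.2).trans h⟩, by omega⟩, hx.1.2, hx.2.2⟩
  · simp only [mem_filter, mem_sigma] at hx
    have := Nat.ne_zero_of_mem_divisorsAntidiagonal hx.1.2
    simp only [mem_product, mem_Icc]
    omega
  · obtain ⟨n, x⟩ := x
    simp only [mem_filter, mem_sigma] at hx
    obtain rfl := (Nat.mem_divisorsAntidiagonal.1 hx.1.2).1
    rfl

theorem da_conj (N : ℕ) (y : ℝ) : ‖Dt.hd N (1 - ((1 / 2 : ℝ) + y * I))‖ =
    ‖Dt.hd N ((1 / 2 : ℝ) + y * I)‖ := by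
  rw [← norm_conj, Dt.hd, Dt.hd, map_sum]
  congr 1
  refine sum_congr rfl fun n hn => ?_
  have h : n ≠ 0 := by have := (mem_Icc.1 hn).1; omega
  rw [show (1 - ((1 / 2 : ℝ) + y * I) : ℂ) = (1 / 2 : ℝ) + (-y : ℝ) * I by push_cast; ring,
    da_half h, da_half h, map_mul, map_inv₀, conj_ofReal, ee, ee, ← exp_conj, map_mul, conj_ofReal,
    conj_I]
  congr 2
  push_cast
  ring

theorem da_int (K : ℕ) (b : ℕ → ℂ) (γ : ℝ) : Integrable fun v => ‖QP K b (γ + v)‖ * gs v := by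
  refine Integrable.bdd_mul (c := ∑ n ∈ Icc 1 K, ‖b n / (√n : ℝ)‖)
    (integrable_exp_neg_mul_sq (by norm_num : (0 : ℝ) < 1 / 2)) ?_
    (Filter.Eventually.of_forall fun v => ?_)
  · exact (by unfold QP; fun_prop : Continuous fun v => ‖QP K b (γ + v)‖).aestronglyMeasurable
  · rw [norm_norm]
    exact norm_sum_le_of_le _ fun n _ => by rw [norm_mul, norm_ee, mul_one]

theorem mid' {Z : ℕ} (hZ : 1 ≤ Z) : ∃ b : ℕ → ℂ, Dv b ∧ ∀ δ β γ : ℝ, 0 < δ → 1 / 2 + δ ≤ β →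
    β ≤ 1 → 1 ≤ |γ| → ‖∫ u : ℝ, Dt.HH Z (β + γ * I) ((1 / 2 - β : ℝ) + u * I) *
      MP_b09185_nt.Mai.EE (Dt.yy Z) ((1 / 2 - β : ℝ) + u * I)‖ ≤
      4 / (δ * (Z : ℝ) ^ (δ / 2)) * ∫ v, ‖QP (Z ^ 560) b (γ + v)‖ * gs v := by
  refine ⟨daB (Z ^ 500) Z, da_Dv _ _, fun δ β γ h0 h1 h2 h3 => ?_⟩
  have hZ' : (1 : ℝ) ≤ Z := by exact_mod_cast hZ
  have hL := Real.log_nonneg hZ'
  rw [← integral_const_mul]
  refine norm_integral_le_of_norm_le ((da_int _ _ _).const_mul _)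
    (Filter.Eventually.of_forall fun u => ?_)
  have e1 : (β + γ * I + ((1 / 2 - β : ℝ) + u * I) : ℂ) = (1 / 2 : ℝ) + (γ + u : ℝ) * I := by
    push_cast; ring
  have a2 : ‖Dt.kk (β + γ * I) ((1 / 2 - β : ℝ) + u * I)‖ ≤ 2 / δ := by
    refine (da_kk (by simpa using h3) h0 ?_).trans ?_
    · have := abs_re_le_norm (((1 / 2 - β : ℝ) : ℂ) + u * I)
      simp only [add_re, ofReal_re, mul_re, I_re, mul_zero, ofReal_im, I_im, mul_one, sub_self,
        add_zero] at this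
      linarith [neg_le_abs (1 / 2 - β)]
    · rw [le_div_iff₀ h0, add_mul, inv_mul_cancel₀ h0.ne']
      linarith
  have a3 : Real.exp ((1 / 2 - β) ^ 2 / 2 + Dt.yy Z * (1 / 2 - β)) ≤ 2 / (Z : ℝ) ^ (δ / 2) := by
    rw [Real.rpow_def_of_pos (by linarith), le_div_iff₀ (Real.exp_pos _), ← Real.exp_add, Dt.yy]
    have : Real.exp (1 / 2) ≤ 2 := by
      have := Real.exp_one_lt_three
      have e : Real.exp (1 / 2) * Real.exp (1 / 2) = Real.exp 1 := by rw [← Real.exp_add]; norm_num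
      nlinarith [Real.exp_pos (1 / 2)]
    refine (Real.exp_le_exp.2 ?_).trans this
    nlinarith [mul_le_mul_of_nonneg_left h1 hL, mul_nonneg hL h0.le]
  have a4 := congrArg norm (da_mul (N := Z ^ 500) (Z := Z) (K := Z ^ 560)
    ((pow_succ Z 500).symm.trans_le (Nat.pow_le_pow_right hZ (by decide))) (γ + u))
  rw [norm_mul] at a4
  rw [Dt.HH, e1, norm_mul, norm_mul, norm_mul, norm_mul, chi_half, one_mul, da_conj, a4,
    MP_b09185_nt.Mai.norm_EE]
  have a5 := norm_nonneg (QP (Z ^ 560) (daB (Z ^ 500) Z) (γ + u))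
  generalize ‖QP (Z ^ 560) (daB (Z ^ 500) Z) (γ + u)‖ = W at a5 ⊢
  calc _ ≤ W * (2 / δ) *
        (2 / (Z : ℝ) ^ (δ / 2) * Real.exp (-(1 / 2) * u ^ 2)) := by gcongr
    _ = _ := by rw [gs]; field_simp; norm_num

end Pool.Agent.Lib.MP_31bf45_nt.Om
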