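import Pool.Agent.Lib.MP_31bf45_nt.Om.DetA

/-! Zero detection near the critical line: from the zero to the line. -/

set_option autoImplicit false

namespace Pool.Agent.Lib.MP_31bf45_nt.Om

open Complex Finset MeasureTheory Metric Pool.Agent.Lib.MP_b09185_nt.Sh
open scoped ComplexConjugate

theorem db_VV (x : ℝ) : Dt.VV x + Dt.VV (-x) = √(2 * Real.pi) := by
  have h1 := integral_comp_neg_Ioi 0 fun w : ℝ => Real.exp (-(x - w) ^ 2 / 2)
  have h2 : Dt.VV (-x) = ∫ w in Set.Iic 0, Real.exp (-(x - w) ^ 2 / 2) := by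
    rw [neg_zero] at h1
    rw [← h1, Dt.VV]
    congr 1; funext w; congr 1; ring
  have h3 := integral_sub_left_eq_self (fun t : ℝ => Real.exp (-(1 / 2) * t ^ 2)) volume x
  rw [MP_b09185_nt.Mai.integral_gauss] at h3
  rw [h2, Dt.VV, add_comm, intervalIntegral.integral_Iic_add_Ioi (Dt.int_gauss x).integrableOn
    (Dt.int_gauss x).integrableOn, ← h3]
  congr 1; funext w; congr 1; ring

theorem db_term {n : ℕ} (hn : n ≠ 0) (β γ L u : ℝ) :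
    (n : ℂ) ^ (-(β + γ * I : ℂ)) *
      MP_b09185_nt.Mai.EE (Real.log n - L) ((β - 1 / 2 : ℝ) + u * I) =
    ((√n : ℝ) : ℂ)⁻¹ * ee n (γ - u) * MP_b09185_nt.Mai.EE (-L) ((β - 1 / 2 : ℝ) + u * I) := by
  have h : (n : ℂ) ≠ 0 := by exact_mod_cast hn
  rw [← da_half hn, cpow_def_of_ne_zero h, cpow_def_of_ne_zero h, MP_b09185_nt.Mai.EE,
    MP_b09185_nt.Mai.EE, ← exp_add, ← exp_add, ← natCast_log]
  congr 1; push_cast; ring

theorem db_main {Z K : ℕ} (b : ℕ → ℂ) {β : ℝ} (hβ : 1 / 2 < β) (γ L : ℝ) :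
    (√(2 * Real.pi) : ℝ) * ∑ n ∈ Ioc Z K, b n * (n : ℂ) ^ (-(β + γ * I : ℂ)) *
      Dt.VV (Real.log n - L) = ∫ u : ℝ, QP K (fun n => if Z < n then b n else 0) (γ - u) *
        ((((β - 1 / 2 : ℝ) : ℂ) + u * I)⁻¹ *
          MP_b09185_nt.Mai.EE (-L) ((β - 1 / 2 : ℝ) + u * I)) := by
  have hc : 0 < β - 1 / 2 := by linarith
  have hne : ∀ u : ℝ, (((β - 1 / 2 : ℝ) : ℂ) + u * I) ≠ 0 := fun u h => by
    have := congrArg re h
    simp only [add_re, ofReal_re, mul_re, I_re, mul_zero, ofReal_im, I_im, mul_one, sub_self,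
      add_zero, zero_re] at this
    linarith
  have i1 : ∀ x : ℝ, Integrable fun u : ℝ => (((β - 1 / 2 : ℝ) : ℂ) + u * I)⁻¹ *
      MP_b09185_nt.Mai.EE x ((β - 1 / 2 : ℝ) + u * I) := fun x =>
    MP_b09185_nt.Mai.integrable_line (F := fun u : ℝ => (((β - 1 / 2 : ℝ) : ℂ) + u * I)⁻¹)
      (Continuous.inv₀ (by fun_prop) hne) (K := (β - 1 / 2)⁻¹) (fun u => by
      rw [norm_inv]
      refine inv_anti₀ hc (le_trans ?_ (re_le_norm _))
      simp) x _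
  have e1 : ∀ u : ℝ, QP K (fun n => if Z < n then b n else 0) (γ - u) *
      ((((β - 1 / 2 : ℝ) : ℂ) + u * I)⁻¹ * MP_b09185_nt.Mai.EE (-L) ((β - 1 / 2 : ℝ) + u * I)) =
      ∑ n ∈ Ioc Z K, b n * (n : ℂ) ^ (-(β + γ * I : ℂ)) * ((((β - 1 / 2 : ℝ) : ℂ) + u * I)⁻¹ *
        MP_b09185_nt.Mai.EE (Real.log n - L) ((β - 1 / 2 : ℝ) + u * I)) := fun u => by
    rw [QP, sum_mul, ← sum_subset (s₁ := Ioc Z K) (fun n hn => by
      simp only [mem_Ioc, mem_Icc] at hn ⊢; omega) fun n h1 h2 => by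
      rw [if_neg (by simp only [mem_Ioc, mem_Icc] at h1 h2; omega)]; simp]
    refine sum_congr rfl fun n hn => ?_
    have h := mem_Ioc.1 hn
    rw [if_pos h.1]
    linear_combination (-b n * (((β - 1 / 2 : ℝ) : ℂ) + u * I)⁻¹) *
      db_term (n := n) (by omega) β γ L u
  simp only [e1]
  rw [integral_finsetSum _ fun n _ => (i1 _).const_mul _, mul_sum]
  refine sum_congr rfl fun n _ => ?_
  have h1 := ker_inv hc (Real.log n - L) 0
  simp only [ofReal_zero, zero_mul, add_zero, neg_zero, exp_zero, one_mul,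
    integral_complex_ofReal] at h1
  rw [integral_const_mul, h1, Dt.VV]
  ring

theorem db_tail {Z K : ℕ} (hZ : 1 ≤ Z) (hK : Z ≤ K) {b : ℕ → ℂ} (hb : Dv b) {β : ℝ} (hβ : 0 ≤ β)
    (γ : ℝ) : ‖∑ n ∈ Ioc Z K, b n * (n : ℂ) ^ (-(β + γ * I : ℂ)) *
      Dt.VV (-(Real.log n - Real.log Z / 2))‖ ≤ Real.exp 18 / Z := by
  have hZ' : (0 : ℝ) < Z := by exact_mod_cast hZ
  refine (norm_sum_le _ _).trans ((sum_le_sum (g := fun n : ℕ => Real.exp 18 * ((n : ℝ) ^ 2)⁻¹)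
    fun n hn => ?_).trans ?_)
  · have h := mem_Ioc.1 hn
    have h1 : (Z : ℝ) ≤ n := by exact_mod_cast h.1.le
    have h2 : (1 : ℝ) ≤ n := by exact_mod_cast (by omega : 1 ≤ n)
    have a1 : ‖b n‖ ≤ n := (hb n).trans (by exact_mod_cast Nat.card_divisors_le_self n)
    have a2 : ‖(n : ℂ) ^ (-(β + γ * I : ℂ))‖ ≤ 1 := by
      rw [cpow_eq (by omega), norm_mul, norm_ee, mul_one, norm_real,
        Real.norm_of_nonneg (by positivity)]
      exact Real.rpow_le_one_of_one_le_of_nonpos h2 (by linarith)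
    have a3 : Dt.VV (-(Real.log n - Real.log Z / 2)) ≤ Real.exp 18 * ((n : ℝ) ^ 3)⁻¹ := by
      refine (Dt.VV_dec (K := 6) (by norm_num) _).trans ?_
      rw [← Real.exp_log (show (0 : ℝ) < (n : ℝ) ^ 3 by positivity), ← Real.exp_neg, ← Real.exp_add,
        Real.log_pow]
      exact Real.exp_le_exp.2 (by push_cast; linarith [Real.log_le_log hZ' h1])
    rw [norm_mul, norm_mul, norm_real, Real.norm_of_nonneg (Dt.VV_nonneg _)]
    calc _ ≤ n * 1 * (Real.exp 18 * ((n : ℝ) ^ 3)⁻¹) := by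
          gcongr
          exact Dt.VV_nonneg _
      _ = _ := by field_simp
  · rw [← mul_sum, div_eq_mul_inv]
    gcongr
    exact (sum_Ioc_inv_sq_le_sub (by omega) hK).trans (sub_le_self _ (by positivity))

theorem cauchy : ∃ C : ℝ, 0 ≤ C ∧ ∀ Z : ℕ, 1 ≤ Z → ∀ b : ℕ → ℂ, Dv b → ∀ δ β γ : ℝ, 0 < δ →
    1 / 2 + δ ≤ β → β ≤ 1 → ‖DP Z b (β + γ * I)‖ ≤ C / Z + C / (δ * (Z : ℝ) ^ (δ / 2)) *
      ∫ v, ‖QP (Z ^ 560) (fun n => if Z < n then b n else 0) (γ + v)‖ * gs v := by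
  refine ⟨Real.exp 18, (Real.exp_pos _).le, fun Z hZ b hb δ β γ h0 h1 h2 => ?_⟩
  have hZ' : (1 : ℝ) ≤ Z := by exact_mod_cast hZ
  have hL := Real.log_nonneg hZ'
  have hK : Z ≤ Z ^ 560 := Nat.le_self_pow (by decide) Z
  have m := db_main (Z := Z) (K := Z ^ 560) b (β := β) (by linarith) γ (Real.log Z / 2)
  have t := db_tail hZ hK hb (β := β) (by linarith) γ
  have i := da_int (Z ^ 560) (fun n => if Z < n then b n else 0) γ
  rw [DP]
  generalize Z ^ 560 = K at m t i ⊢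
  have e : (√(2 * Real.pi) : ℝ) * ∑ n ∈ Ioc Z K, b n * (n : ℂ) ^ (-(β + γ * I : ℂ)) =
      ∑ n ∈ Ioc Z K, b n * (n : ℂ) ^ (-(β + γ * I : ℂ)) *
        Dt.VV (-(Real.log n - Real.log Z / 2)) +
      ∑ n ∈ Ioc Z K, b n * (n : ℂ) ^ (-(β + γ * I : ℂ)) * Dt.VV (Real.log n - Real.log Z / 2) := by
    rw [← sum_add_distrib, mul_sum]
    refine sum_congr rfl fun n _ => ?_
    rw [← db_VV (Real.log n - Real.log Z / 2)]
    push_cast
    ring
  have r : ∀ z : ℂ, ‖z‖ ≤ ‖((√(2 * Real.pi) : ℝ) : ℂ) * z‖ := fun z => by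
    rw [norm_mul, norm_real, Real.norm_of_nonneg (Real.sqrt_nonneg _)]
    exact le_mul_of_one_le_left (norm_nonneg _) MP_b09185_nt.Mai.one_le_sqrt_two_pi
  refine (r _).trans ?_
  rw [e]
  refine norm_add_le_of_le t ((r _).trans ?_)
  rw [m, ← integral_neg_eq_self, ← integral_const_mul]
  refine norm_integral_le_of_norm_le (i.const_mul _) (Filter.Eventually.of_forall fun u => ?_)
  have a2 : ‖(((β - 1 / 2 : ℝ) : ℂ) + (-u : ℝ) * I)⁻¹‖ ≤ δ⁻¹ := by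
    rw [norm_inv]
    refine inv_anti₀ h0 (le_trans ?_ (re_le_norm _))
    simp only [add_re, ofReal_re, mul_re, I_re, mul_zero, ofReal_im, I_im, mul_one, sub_self,
      add_zero]
    linarith
  have a3 : Real.exp ((β - 1 / 2) ^ 2 / 2 + -(Real.log Z / 2) * (β - 1 / 2)) ≤
      Real.exp 18 / (Z : ℝ) ^ (δ / 2) := by
    rw [Real.rpow_def_of_pos (by linarith), ← Real.exp_sub]
    exact Real.exp_le_exp.2 (by nlinarith [mul_le_mul_of_nonneg_left h1 hL])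
  rw [norm_mul, norm_mul, MP_b09185_nt.Mai.norm_EE, sub_neg_eq_add, neg_sq]
  calc _ ≤ ‖QP K (fun n => if Z < n then b n else 0) (γ + u)‖ *
        (δ⁻¹ * (Real.exp 18 / (Z : ℝ) ^ (δ / 2) * Real.exp (-(1 / 2) * u ^ 2))) := by gcongr
    _ = _ := by rw [gs]; field_simp

theorem db_Dv {b : ℕ → ℂ} (hb : Dv b) (Z : ℕ) : Dv fun n => if Z < n then b n else 0 := fun n => by
  dsimp only
  split_ifs
  · exact hb n
  · simp

theorem det' : ∃ (C : ℝ) (Z0 : ℕ), 0 ≤ C ∧ ∀ Z : ℕ, Z0 ≤ Z → ∃ b : Fin 3 → ℕ → ℂ,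
    (∀ i, Dv (b i)) ∧ ∀ δ β γ : ℝ, 0 < δ → 1 / 2 + δ ≤ β → 1 ≤ |γ| → |γ| ≤ (Z : ℝ) ^ 1000 →
      riemannZeta (β + γ * I) = 0 →
      δ * (Z : ℝ) ^ (δ / 2) ≤ C * ∑ i, ∫ v, ‖QP (Z ^ 560) (b i) (γ + v)‖ * gs v := by
  obtain ⟨C1, h1, H1⟩ := Dt.right
  obtain ⟨C2, h2, H2⟩ := left'
  obtain ⟨C3, h3, H3⟩ := cauchy
  obtain ⟨Z0, hZ0⟩ := Filter.eventually_atTop.1 (((Real.tendsto_log_atTop.comp
    tendsto_natCast_atTop_atTop).eventually_ge_atTop 1).and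
    ((tendsto_natCast_atTop_atTop (R := ℝ)).eventually_ge_atTop (4 * (C1 + C2 + 12 * C3) + 1)))
  refine ⟨16 + 36 * C3, Z0, by positivity, fun Z hZ => ?_⟩
  obtain ⟨hL, hC⟩ := hZ0 Z hZ
  have hZ' : (1 : ℝ) ≤ Z := by linarith
  have hZ1 : 1 ≤ Z := by exact_mod_cast hZ'
  obtain ⟨b, hb, H4⟩ := mid' hZ1
  refine ⟨![fun n => if Z < n then Dt.b1 Z n else 0, fun n => if Z < n then Dt.b2 Z n else 0, b],
    fun i => ?_, fun δ β γ a0 a1 a2 a3 a4 => ?_⟩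
  · fin_cases i
    exacts [db_Dv (Dt.Dv_b1 Z) Z, db_Dv (Dt.Dv_b2 Z) Z, hb]
  have a5 : β ≤ 1 := by
    by_contra hc
    exact riemannZeta_ne_zero_of_one_le_re (by simpa using (not_le.1 hc).le) a4
  have c1 := H1 Z hZ1 hL (β + γ * I) (by simp; linarith) (by simpa using a2)
  have c2 := H2 Z hZ1 β γ (by linarith) a5 a2 a3 a4
  have c3 := H4 δ β γ a0 a1 a5 a2
  have c4 := H3 Z hZ1 _ (Dt.Dv_b1 Z) δ β γ a0 a1 a5
  have c5 := H3 Z hZ1 _ (Dt.Dv_b2 Z) δ β γ a0 a1 a5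
  have c6 : (C1 + C2 + 12 * C3) / Z ≤ 1 / 4 := by
    rw [div_le_iff₀ (by linarith)]
    linarith
  have n : ∀ c : ℕ → ℂ, 0 ≤ ∫ v, ‖QP (Z ^ 560) c (γ + v)‖ * gs v := fun c =>
    integral_nonneg fun v => mul_nonneg (norm_nonneg _) (gs_pos v).le
  have n1 := n fun n => if Z < n then Dt.b1 Z n else 0
  have n2 := n fun n => if Z < n then Dt.b2 Z n else 0
  have n3 := n b
  rw [Fin.sum_univ_three]
  simp only [Matrix.cons_val_zero, Matrix.cons_val_one, Matrix.cons_val]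
  have p : 0 < δ * (Z : ℝ) ^ (δ / 2) := by positivity
  generalize δ * (Z : ℝ) ^ (δ / 2) = W at *
  generalize ∫ v, ‖QP (Z ^ 560) (fun n => if Z < n then Dt.b1 Z n else 0) (γ + v)‖ * gs v = J1 at *
  generalize ∫ v, ‖QP (Z ^ 560) (fun n => if Z < n then Dt.b2 Z n else 0) (γ + v)‖ * gs v = J2 at *
  generalize ∫ v, ‖QP (Z ^ 560) b (γ + v)‖ * gs v = J3 at *
  have c7 : (C1 + C2 + 12 * C3) / Z = C1 / Z + C2 / Z + 12 * (C3 / Z) := by ring
  have c8 : 1 / 4 ≤ (4 * J3 + 9 * (C3 * J1) + 3 * (C3 * J2)) / W := by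
    have : (4 * J3 + 9 * (C3 * J1) + 3 * (C3 * J2)) / W =
        4 / W * J3 + 9 * (C3 / W * J1) + 3 * (C3 / W * J2) := by ring
    linarith
  rw [le_div_iff₀ p] at c8
  nlinarith [mul_nonneg h3 n1, mul_nonneg h3 n2, mul_nonneg h3 n3]

end Pool.Agent.Lib.MP_31bf45_nt.Om
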