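import Pool.Agent.Lib.MP_b09185_nt.ShDef

/-! Large values of the argument of zeta: definitions. -/

set_option autoImplicit false

namespace Pool.Agent.Lib.MP_31bf45_nt.Om

open Complex Finset

noncomputable section

/-- `y` is no ordinate and `s` is the value of `S` at `y` -/
def IsS (y s : ℝ) : Prop :=
  (∀ x ∈ Set.Icc (1 / 2 : ℝ) 2, riemannZeta (x + y * I) ≠ 0) ∧ ∃ u v : ℝ → ℝ,
    ContinuousOn u (Set.Icc 0 y) ∧ ContinuousOn v (Set.Icc (1 / 2) 2) ∧ u 0 = 0 ∧ v 2 = u y ∧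
    (∀ t ∈ Set.Icc 0 y, riemannZeta (2 + t * I) = ‖riemannZeta (2 + t * I)‖ * exp (u t * I)) ∧
    (∀ x ∈ Set.Icc (1 / 2 : ℝ) 2,
      riemannZeta (x + y * I) = ‖riemannZeta (x + y * I)‖ * exp (v x * I)) ∧
    s = v (1 / 2) / Real.pi

/-- `n ^ (-i t)` -/
def ee (n : ℕ) (t : ℝ) : ℂ := exp ((-(t * Real.log n) : ℝ) * I)

/-- the Gaussian -/
def gs (x : ℝ) : ℝ := Real.exp (-(1 / 2) * x ^ 2)

/-- the logarithm of zeta to the right of the line one -/
def LL (s : ℂ) : ℂ := LSeries (fun n : ℕ => ArithmeticFunction.vonMangoldt n / Real.log n) s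

/-- the kernel -/
def kk (κ : ℝ) (w : ℂ) : ℂ := exp (κ ^ 2 * w ^ 2 / 2)

/-- coefficients of the smoothed logarithm -/
def cc (κ : ℝ) (n : ℕ) : ℝ := ArithmeticFunction.vonMangoldt n / Real.log n * gs (Real.log n / κ) / √n

/-- the smoothed logarithm on the critical line -/
def DD (κ t : ℝ) : ℂ := ∑' n : ℕ, cc κ n * ee n t

/-- a polynomial on the critical line -/
def QP (K : ℕ) (b : ℕ → ℂ) (y : ℝ) : ℂ := ∑ n ∈ Icc 1 K, b n / (√n : ℝ) * ee n y

/-- small sets of primes -/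
def SS (P : Finset ℕ) (k : ℕ) : Finset (Finset ℕ) := P.powerset.filter fun S => #S ≤ k

/-- the product of a set of primes -/
def mS (S : Finset ℕ) : ℕ := ∏ p ∈ S, p

/-- the weight of a set of primes -/
def fS (a : ℝ) (S : Finset ℕ) : ℝ := ∏ p ∈ S, a / √p

/-- the resonator -/
def RR (P : Finset ℕ) (k : ℕ) (a : ℝ) (θ : ℂ) (t : ℝ) : ℂ :=
  ∑ S ∈ SS P k, θ ^ #S * fS a S * ee (mS S) t

/-- its mass -/
def QQ (P : Finset ℕ) (k : ℕ) (a : ℝ) : ℝ := ∑ S ∈ SS P k, fS a S ^ 2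

theorem norm_ee (n : ℕ) (t : ℝ) : ‖ee n t‖ = 1 := norm_exp_ofReal_mul_I _

theorem ee_add (n : ℕ) (t v : ℝ) : ee n (t + v) = ee n t * ee n v := by
  rw [ee, ee, ee, ← exp_add]; congr 1; push_cast; ring

theorem ee_mul {m n : ℕ} (hm : m ≠ 0) (hn : n ≠ 0) (t : ℝ) : ee (m * n) t = ee m t * ee n t := by
  rw [ee, ee, ee, ← exp_add, Nat.cast_mul, Real.log_mul (by exact_mod_cast hm) (by exact_mod_cast hn)]
  congr 1; push_cast; ring

theorem cpow_eq {n : ℕ} (hn : n ≠ 0) (x t : ℝ) :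
    (n : ℂ) ^ (-(x + t * I : ℂ)) = ((n : ℝ) ^ (-x) : ℝ) * ee n t := by
  have h : (0 : ℝ) < n := by exact_mod_cast Nat.pos_of_ne_zero hn
  rw [cpow_def_of_ne_zero (by exact_mod_cast hn), Real.rpow_def_of_pos h, ofReal_exp, ee, ← exp_add,
    ← natCast_log]
  congr 1; push_cast; ring

@[fun_prop] theorem cont_ee (n : ℕ) : Continuous (ee n) := by unfold ee; fun_prop

@[fun_prop] theorem cont_gs : Continuous gs := by unfold gs; fun_prop

theorem gs_pos (x : ℝ) : 0 < gs x := Real.exp_pos _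

theorem norm_kk (κ c u : ℝ) : ‖kk κ (c + u * I)‖ = Real.exp (κ ^ 2 * (c ^ 2 - u ^ 2) / 2) := by
  rw [kk, norm_exp]; congr 1; simp [sq]

theorem kk_zero (κ u : ℝ) : kk κ ((0 : ℝ) + u * I) = gs (κ * u) := by
  rw [kk, gs, ofReal_exp]; congr 1; push_cast; rw [zero_add, mul_pow, mul_pow, I_sq]; ring

theorem fS_nonneg {a : ℝ} (ha : 0 ≤ a) (S : Finset ℕ) : 0 ≤ fS a S :=
  prod_nonneg fun _ _ => by positivity

theorem one_le_QQ (P : Finset ℕ) (k : ℕ) (a : ℝ) : 1 ≤ QQ P k a := by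
  have h : (∅ : Finset ℕ) ∈ SS P k := by simp [SS]
  simpa [fS, QQ] using single_le_sum (f := fun S => fS a S ^ 2) (fun _ _ => sq_nonneg _) h

end

end Pool.Agent.Lib.MP_31bf45_nt.Om
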