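import Pool.Agent.Lib.MP_31bf45_nt.Om.KerB

/-! The value of `S` from a local factorisation of zeta. -/

set_option autoImplicit false

namespace Pool.Agent.Lib.MP_31bf45_nt.Om

open Complex Finset Metric

theorem iss_polar (z : ℂ) : exp z = (‖exp z‖ : ℝ) * exp ((z.im : ℝ) * I) := by
  rw [norm_exp, ofReal_exp, ← exp_add, re_add_im]

theorem iss_mem {t y x : ℝ} (hy : |y - t| ≤ 2) (hx : x ∈ Set.Icc (1 / 2 : ℝ) 2) :
    (x + y * I : ℂ) ∈ ball (2 + t * I : ℂ) 5 := by
  rw [mem_ball, dist_eq_norm]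
  have h : (x + y * I : ℂ) - (2 + t * I) = ((x - 2 : ℝ) : ℂ) + ((y - t : ℝ) : ℂ) * I := by
    push_cast; ring
  rw [h]
  refine (norm_add_le _ _).trans_lt ?_
  rw [norm_mul, norm_I, mul_one, norm_real, norm_real, Real.norm_eq_abs, Real.norm_eq_abs]
  have : |x - 2| ≤ 2 := abs_le.2 ⟨by linarith [hx.1], by linarith [hx.2]⟩
  linarith

theorem isS_of {t y : ℝ} {n : ℕ} {ρ : Fin n → ℂ} {G : ℂ → ℂ}
    (h1 : DifferentiableOn ℂ G (ball (2 + t * I) 5))
    (h2 : ∀ s ∈ ball (2 + t * I : ℂ) 5, riemannZeta s = (∏ i, (s - ρ i)) * exp (G s))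
    (h3 : ∑ i, log (2 + y * I - ρ i) + G (2 + y * I) = LL (2 + y * I)) (hy : |y - t| ≤ 2)
    (h4 : ∀ i, y ≠ (ρ i).im) : IsS y ((∑ i, arg ((1 / 2 : ℝ) + y * I - ρ i) +
      (G ((1 / 2 : ℝ) + y * I)).im) / Real.pi) := by
  have him : ∀ (x : ℝ) i, ((x : ℂ) + y * I - ρ i).im ≠ 0 := fun x i => by
    simpa [sub_eq_zero] using h4 i
  have hne : ∀ (x : ℝ) i, (x : ℂ) + y * I - ρ i ≠ 0 := fun x i h => him x i (by rw [h]; simp)
  have hz : ∀ x ∈ Set.Icc (1 / 2 : ℝ) 2, riemannZeta (x + y * I) =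
      exp (∑ i, log (x + y * I - ρ i) + G (x + y * I)) := fun x hx => by
    rw [h2 _ (iss_mem hy hx), exp_add, exp_sum]
    congr 1
    exact prod_congr rfl fun i _ => (exp_log (hne x i)).symm
  refine ⟨fun x hx => by rw [hz x hx]; exact exp_ne_zero _, fun s => (LL (2 + s * I)).im,
    fun x => ∑ i, arg (x + y * I - ρ i) + (G (x + y * I)).im, ?_, ?_, ?_, ?_, ?_, ?_, rfl⟩
  · exact (continuous_im.comp LL_cont).continuousOn
  · refine ContinuousOn.add (continuousOn_finsetSum _ fun i _ => fun x _ => ?_) ?_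
    · refine ContinuousAt.continuousWithinAt ?_
      exact ContinuousAt.comp (f := fun x : ℝ => (x : ℂ) + y * I - ρ i)
        (continuousAt_arg (Or.inr (him x i))) (by fun_prop)
    · exact continuous_im.comp_continuousOn (h1.continuousOn.comp
        (f := fun x : ℝ => (x : ℂ) + y * I) (by fun_prop) fun x hx => iss_mem hy hx)
  · simpa using LL_two
  · have h := congrArg im h3
    rw [add_im, im_sum] at h
    simp only [log_im] at h
    simpa using h
  · intro s _
    rw [← exp_LL (s := 2 + s * I) (by simp)]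
    exact iss_polar _
  · intro x hx
    rw [hz x hx]
    have h := iss_polar (∑ i, log (x + y * I - ρ i) + G (x + y * I))
    rw [add_im, im_sum] at h
    simpa only [log_im] using h

end Pool.Agent.Lib.MP_31bf45_nt.Om
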