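import Pool.Agent.Lib.MP_31bf45_nt.Om.Zero
import Pool.Agent.Lib.MP_31bf45_nt.Om.KerA
import Pool.Agent.Lib.MP_31bf45_nt.Om.KerB
import Pool.Agent.Lib.MP_31bf45_nt.Om.Land
import Pool.Agent.Lib.MP_31bf45_nt.Om.IsS

/-! The smoothed logarithm is an average of the argument when no zero is far from the line. -/

set_option autoImplicit false

namespace Pool.Agent.Lib.MP_31bf45_nt.Om

open Complex Finset MeasureTheory Metric Filter

lemma lc_mem {t : ℝ} {w : ℂ} (hw : w ∈ Set.Icc (0 : ℝ) (3 / 2) ×ℂ Set.Icc (-2 : ℝ) 2) :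
    (1 / 2 : ℝ) + t * I + w ∈ closedBall (2 + t * I : ℂ) (5 / 2) := by
  obtain ⟨⟨a1, a2⟩, a3, a4⟩ := mem_reProdIm.1 hw
  rw [mem_closedBall, dist_eq_norm, ← abs_norm, ← sq_le_sq₀ (abs_nonneg _) (by norm_num), sq_abs,
    ← normSq_eq_norm_sq, normSq_apply]
  simp only [sub_re, add_re, ofReal_re, mul_re, I_re, mul_zero, ofReal_im, I_im, mul_one, sub_self,
    add_zero, re_ofNat, sub_im, add_im, mul_im, zero_add, im_ofNat]
  nlinarith

lemma lc_log {a : ℂ} (h1 : a.re ≤ 1) (h2 : ‖(3 / 2 : ℝ) - a‖ ≤ 5) (u : ℝ) :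
    ‖log ((3 / 2 : ℝ) + u * I - a)‖ ≤ 11 * (1 + |u|) := by
  refine (zr_log_le (η := 1 / 2) (by norm_num) (le_trans ?_ (re_le_norm _))).trans ?_
  · simp only [sub_re, add_re, ofReal_re, mul_re, I_re, mul_zero, ofReal_im, I_im, mul_one,
      sub_self, add_zero]
    linarith
  · have := norm_add_le ((3 / 2 : ℝ) - a : ℂ) (u * I)
    rw [norm_mul, norm_I, mul_one, norm_real, Real.norm_eq_abs, sub_add_eq_add_sub] at this
    rw [show (1 / 2 : ℝ)⁻¹ = 2 by norm_num]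
    linarith [abs_nonneg u]

lemma lc_gs (κ u : ℝ) : gs (κ * u) ≤ (1 + |u|) * Real.exp (κ ^ 2 * ((3 / 2) ^ 2 - u ^ 2) / 2) := by
  have h : gs (κ * u) ≤ Real.exp (κ ^ 2 * ((3 / 2) ^ 2 - u ^ 2) / 2) := by
    rw [zr_gs]; gcongr; nlinarith [sq_nonneg κ]
  nlinarith [abs_nonneg u, Real.exp_pos (κ ^ 2 * ((3 / 2) ^ 2 - u ^ 2) / 2)]

/-- the abstract form -/
lemma lc_main : ∃ C : ℝ, 0 ≤ C ∧ ∀ (κ δ ε M A : ℝ) (n : ℕ) (a : Fin n → ℂ) (Φ : ℂ → ℂ) (L : ℝ → ℂ),
    1 ≤ κ → 0 ≤ δ → δ * κ ≤ 1 → (ε = 1 ∨ ε = -1) → 0 ≤ M → (∀ i, (a i).re ≤ δ) →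
    (∀ i, ‖(3 / 2 : ℝ) - a i‖ ≤ 5) →
    DifferentiableOn ℂ Φ (Set.Icc 0 (3 / 2) ×ℂ Set.Icc (-2) 2) →
    (∀ w ∈ Set.Icc (0 : ℝ) (3 / 2) ×ℂ Set.Icc (-2 : ℝ) 2, ‖Φ w‖ ≤ A) → Continuous L →
    (∀ u, ‖L u‖ ≤ 2) →
    (∀ u : ℝ, |u| ≤ 2 → ∑ i, log ((3 / 2 : ℝ) + u * I - a i) + Φ ((3 / 2 : ℝ) + u * I) = L u) →
    (∀ u : ℝ, |u| ≤ 2 → (∀ i, u ≠ (a i).im) →
      ε * (∑ i, arg (u * I - a i) + (Φ ((0 : ℝ) + u * I)).im) ≤ M) →
    ε * (∫ u : ℝ, L u * kk κ ((3 / 2 : ℝ) + u * I)).im ≤ M * (√(2 * Real.pi) / κ) +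
      (12 * n * δ ^ 2 * κ + (C * (4 + 15 * n) + 3 * A) * Real.exp (-κ ^ 2 / 4)) := by
  obtain ⟨C, C0, hC⟩ := tail
  refine ⟨C, C0, fun κ δ ε M A n a Φ L h1 d0 d1 hε M0 ha ha' hΦ hA cL bL e1 e2 => ?_⟩
  have h0 : 0 < κ := by linarith
  have d2 : δ ≤ 1 := by nlinarith
  set E := Real.exp (-κ ^ 2 / 4)
  have ck : Continuous fun u : ℝ => kk κ ((3 / 2 : ℝ) + u * I) := by unfold kk; fun_prop
  have iH := fun i => (zrH_shift h1 (a := a i) (c := 3 / 2) (by linarith [ha i]) le_rfl).1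
  obtain ⟨iL, tL⟩ := hC κ 2 (fun u => L u * kk κ ((3 / 2 : ℝ) + u * I)) h1
    (cL.mul ck).aestronglyMeasurable fun u => by
      rw [norm_mul, norm_kk]
      gcongr
      linarith [bL u, abs_nonneg u]
  have tH := fun i => (hC κ 11 _ h1 (iH i).1 fun u => by
    rw [norm_mul, norm_kk]
    gcongr
    exact lc_log (by linarith [ha i]) (ha' i) u).2
  have tK : ∀ i, |zrK κ (a i) - ∫ u in (-2 : ℝ)..2, arg (u * I - a i) * gs (κ * u)| ≤ C * 4 * E :=
    fun i => by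
    have := (hC κ 4 (fun u => ((arg (u * I - a i) * gs (κ * u) : ℝ) : ℂ)) h1
      (zrK_int h0 (a i)).ofReal.1 fun u => by
      rw [norm_real, norm_mul, Real.norm_of_nonneg (gs_pos _).le, mul_assoc]
      exact mul_le_mul ((abs_arg_le_pi _).trans Real.pi_le_four) (lc_gs κ u) (gs_pos _).le
        (by norm_num)).2
    rwa [integral_complex_ofReal, intervalIntegral.integral_ofReal, ← ofReal_sub, norm_real] at this
  have cΦ : ∀ c ∈ Set.Icc (0 : ℝ) (3 / 2), ContinuousOn (fun u : ℝ => Φ (c + u * I))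
      (Set.uIcc (-2) 2) := fun c hc =>
    hΦ.continuousOn.comp (by fun_prop) fun u hu => by
      rw [Set.uIcc_of_le (by norm_num)] at hu
      simpa [mem_reProdIm] using ⟨hc, hu⟩
  have s1 : ∫ u in (-2 : ℝ)..2, L u * kk κ ((3 / 2 : ℝ) + u * I) =
      (∑ i, ∫ u in (-2 : ℝ)..2, log ((3 / 2 : ℝ) + u * I - a i) * kk κ ((3 / 2 : ℝ) + u * I)) +
        ∫ u in (-2 : ℝ)..2, Φ ((3 / 2 : ℝ) + u * I) * kk κ ((3 / 2 : ℝ) + u * I) := by
    rw [← intervalIntegral.integral_finsetSum fun i _ => (iH i).intervalIntegrable,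
      ← intervalIntegral.integral_add (integrable_finsetSum _ fun i _ => iH i).intervalIntegrable
        (by exact ((cΦ _ ⟨by norm_num, le_rfl⟩).mul ck.continuousOn).intervalIntegrable)]
    refine intervalIntegral.integral_congr fun u hu => ?_
    rw [Set.uIcc_of_le (by norm_num)] at hu
    simp only [← sum_mul, ← add_mul, e1 u (abs_le.2 hu)]
  have c0 := cΦ 0 ⟨le_rfl, by norm_num⟩
  have cg : Continuous fun u => gs (κ * u) := by fun_prop
  have i0 : IntervalIntegrable (fun u : ℝ => (Φ ((0 : ℝ) + u * I)).im * gs (κ * u)) volume (-2) 2 :=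
    ((continuous_im.comp_continuousOn c0).mul cg.continuousOn).intervalIntegrable
  have s2 : (∫ u in (-2 : ℝ)..2, Φ ((0 : ℝ) + u * I) * kk κ ((0 : ℝ) + u * I)).im =
      ∫ u in (-2 : ℝ)..2, (Φ ((0 : ℝ) + u * I)).im * gs (κ * u) := by
    simp only [kk_zero]
    rw [← imCLM_apply, ← imCLM.intervalIntegral_comp_comm
      (by exact (c0.mul (continuous_ofReal.comp cg).continuousOn).intervalIntegrable)]
    simp
  have iK := integrable_finsetSum univ fun i _ => zrK_int h0 (a i)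
  have s3 : ε * ((∑ i, ∫ u in (-2 : ℝ)..2, arg (u * I - a i) * gs (κ * u)) +
      ∫ u in (-2 : ℝ)..2, (Φ ((0 : ℝ) + u * I)).im * gs (κ * u)) ≤ M * (√(2 * Real.pi) / κ) := by
    rw [← intervalIntegral.integral_finsetSum fun i _ => (zrK_int h0 (a i)).intervalIntegrable,
      ← intervalIntegral.integral_add iK.intervalIntegrable i0,
      ← intervalIntegral.integral_const_mul, ← (int_gs h0).2, ← integral_const_mul]
    refine (intervalIntegral.integral_mono_ae_restrict (g := fun u => M * gs (κ * u)) (by norm_num)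
      ((iK.intervalIntegrable.add i0).const_mul ε)
      ((int_gs h0).1.const_mul M).intervalIntegrable ?_).trans ?_
    · have z : ∀ᵐ u : ℝ, ∀ i, u ≠ (a i).im :=
        ae_all_iff.2 fun i => compl_mem_ae_iff.2 (measure_singleton _)
      filter_upwards [ae_restrict_mem measurableSet_Icc, ae_restrict_of_ae z] with u hu hz
      rw [← sum_mul, ← add_mul, ← mul_assoc]
      exact mul_le_mul_of_nonneg_right (e2 u (abs_le.2 hu) hz) (gs_pos _).le
    · rw [intervalIntegral.integral_of_le (by norm_num)]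
      exact setIntegral_le_integral ((int_gs h0).1.const_mul M)
        (Eventually.of_forall fun u => mul_nonneg M0 (gs_pos _).le)
  have r1 := (abs_im_le_norm _).trans (rect h1 hΦ hA)
  have r2 := (abs_im_le_norm _).trans tL
  rw [sub_im, s2] at r1
  rw [sub_im, s1, add_im, im_sum] at r2
  have r3 : |(∑ i, (∫ u in (-2 : ℝ)..2,
      log ((3 / 2 : ℝ) + u * I - a i) * kk κ ((3 / 2 : ℝ) + u * I)).im) -
      ∑ i, ∫ u in (-2 : ℝ)..2, arg (u * I - a i) * gs (κ * u)| ≤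
      n * (12 * δ ^ 2 * κ + C * 15 * E) := by
    rw [← sum_sub_distrib]
    refine (abs_sum_le_sum_abs _ _).trans ((sum_le_card_nsmul _ _ _ fun i _ => ?_).trans_eq
      (by rw [card_univ, Fintype.card_fin, nsmul_eq_mul]))
    have b1 := abs_le.1 ((abs_im_le_norm _).trans (tH i))
    have b2 := abs_le.1 (tK i)
    have b3 := abs_le.1 (zrK_sub h1 d1 (ha i))
    rw [sub_im] at b1
    rw [zrH] at b3
    exact abs_le.2 ⟨by linarith [b1.2, b2.1, b3.1], by linarith [b1.1, b2.2, b3.2]⟩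
  have p : 0 ≤ C * E := by positivity
  rw [abs_le] at r1 r2 r3
  rcases hε with rfl | rfl <;> nlinarith [r1.1, r1.2, r2.1, r2.2, r3.1, r3.2]

theorem loc : ∃ C : ℝ, 0 ≤ C ∧ ∀ κ t δ ε M : ℝ, 1 ≤ κ → 20 ≤ t → 0 ≤ δ → δ * κ ≤ 1 →
    (ε = 1 ∨ ε = -1) → 0 ≤ M →
    (∀ ρ : ℂ, riemannZeta ρ = 0 → |ρ.im - t| ≤ 5 → ρ.re ≤ 1 / 2 + δ) →
    (∀ y s : ℝ, |y - t| ≤ 2 → IsS y s → ε * s ≤ M) →
    ε * (DD κ t).im ≤ Real.pi * M +
      C * (δ ^ 2 * κ ^ 2 + κ * Real.exp (-κ ^ 2 / 4)) * Real.log t := by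
  obtain ⟨C, C0, hC⟩ := lc_main
  obtain ⟨B, B0, hB⟩ := land
  refine ⟨12 * B + (C * (4 + 15 * B) + 3 * B), by positivity,
    fun κ t δ ε M h1 ht d0 d1 hε M0 hz hS => ?_⟩
  obtain ⟨n, ρ, G, hn, hρ, hG, bG, eG, lG⟩ := hB t ht
  have h0 : 0 < κ := by linarith
  have pi0 := Real.pi_pos
  have nρ : ∀ i, ‖ρ i - (2 + t * I)‖ ≤ 5 := fun i => by
    have := (hρ i).2
    rw [mem_ball, dist_eq_norm] at this
    exact this.le
  have k := hC κ δ ε (Real.pi * M) (B * Real.log t) n (fun i => ρ i - ((1 / 2 : ℝ) + t * I))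
    (fun w => G ((1 / 2 : ℝ) + t * I + w)) (fun u => LL (2 + (t + u : ℝ) * I)) h1 d0 d1 hε
    (by positivity)
    (fun i => by
      have := hz _ (hρ i).1 (by simpa using (abs_im_le_norm _).trans (nρ i))
      simp only [sub_re, add_re, ofReal_re, mul_re, I_re, mul_zero, ofReal_im, I_im, mul_one,
        sub_self, add_zero]
      linarith)
    (fun i => by
      rw [norm_sub_rev, show ρ i - ((1 / 2 : ℝ) + t * I) - (3 / 2 : ℝ) = ρ i - (2 + t * I) by
        push_cast; ring]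
      exact nρ i)
    (hG.comp (by fun_prop) fun w hw => closedBall_subset_ball (by norm_num) (lc_mem hw))
    (fun w hw => bG _ (lc_mem hw)) (LL_cont.comp (by fun_prop)) (fun u => LL_le (by simp))
    (fun u hu => by
      rw [← lG (t + u) (by simpa using hu)]
      congr 1
      · exact sum_congr rfl fun i _ => by congr 1; push_cast; ring
      · congr 1; push_cast; ring)
    (fun u hu hi => by
      have a1 : |t + u - t| ≤ 2 := by simpa using hu
      have a2 := hS _ _ a1 (isS_of hG eG (lG _ a1) a1 fun i c => hi i (by simp [← c]))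
      rw [← mul_div_assoc, div_le_iff₀ pi0, mul_comm M] at a2
      have b1 : ∀ i, u * I - (ρ i - ((1 / 2 : ℝ) + t * I)) = (1 / 2 : ℝ) + (t + u : ℝ) * I - ρ i :=
        fun i => by push_cast; ring
      have b2 : ((1 / 2 : ℝ) + t * I + ((0 : ℝ) + u * I) : ℂ) = (1 / 2 : ℝ) + (t + u : ℝ) * I := by
        push_cast; ring
      simpa only [b1, b2] using a2)
  rw [series h0, im_ofReal_mul] at k
  have l1 : 1 ≤ Real.log t := by
    rw [Real.le_log_iff_exp_le (by linarith)]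
    linarith [Real.exp_one_lt_d9]
  have q1 := MP_b09185_nt.Mai.one_le_sqrt_two_pi
  set E := Real.exp (-κ ^ 2 / 4)
  set l := Real.log t
  have E0 : 0 < E := Real.exp_pos _
  have a1 : 12 * n * δ ^ 2 * κ + (C * (4 + 15 * n) + 3 * (B * l)) * E ≤
      12 * (B * l) * δ ^ 2 * κ + (C * (4 * l + 15 * (B * l)) + 3 * (B * l)) * E := by
    gcongr; linarith
  set X := (12 * B + (C * (4 + 15 * B) + 3 * B)) * (δ ^ 2 * κ ^ 2 + κ * E) * l with hX
  have X0 : 0 ≤ X := by positivity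
  have a2 : (12 * (B * l) * δ ^ 2 * κ + (C * (4 * l + 15 * (B * l)) + 3 * (B * l)) * E) * κ ≤ X := by
    have b1 : 0 ≤ 12 * B * (κ * E) * l := by positivity
    have b2 : 0 ≤ (C * (4 + 15 * B) + 3 * B) * (δ ^ 2 * κ ^ 2) * l := by positivity
    rw [hX]; nlinarith
  have a3 : X / κ ≤ X * (√(2 * Real.pi) / κ) := by
    rw [← mul_div_assoc]; gcongr; nlinarith
  have a4 := (le_div_iff₀ h0).2 a2
  refine le_of_mul_le_mul_right ?_ (show 0 < √(2 * Real.pi) / κ by positivity)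
  nlinarith

end Pool.Agent.Lib.MP_31bf45_nt.Om
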