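import Pool.Agent.Lib.MP_31bf45_nt.Om.Def

/-! Mean values of Dirichlet polynomials against the Gaussian. -/

set_option autoImplicit false

namespace Pool.Agent.Lib.MP_31bf45_nt.Om

open Complex Finset MeasureTheory
open scoped ComplexConjugate

theorem mv_int_gs : Integrable gs := integrable_exp_neg_mul_sq (by norm_num)

theorem mv_four (s : ℝ) :
    ∫ x : ℝ, exp (I * s * x) * (gs x : ℂ) = (√(2 * Real.pi) : ℝ) * (gs s : ℂ) := by
  have h := fourierIntegral_gaussian (b := (1 / 2 : ℂ)) (by norm_num) s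
  have e : ∀ x : ℝ, (gs x : ℂ) = exp (-(1 / 2 : ℂ) * x ^ 2) := fun x => by
    rw [gs, ofReal_exp]; congr 1; push_cast; ring
  simp_rw [e]
  rw [h, Real.sqrt_eq_rpow, ofReal_cpow (by positivity)]
  congr 2
  · push_cast; ring
  · push_cast; ring
  · ring

theorem mv_prod (m n : ℕ) (t₀ H x : ℝ) : ee m (t₀ + H * x) * conj (ee n (t₀ + H * x)) =
    ee m t₀ * conj (ee n t₀) * exp (I * (H * (Real.log n - Real.log m) : ℝ) * x) := by
  simp only [ee, ← exp_conj, ← exp_add, map_mul, conj_ofReal, conj_I]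
  congr 1; push_cast; ring

theorem mv_intg (m n : ℕ) (t₀ H : ℝ) (c : ℂ) : Integrable fun x : ℝ =>
    c * (ee m (t₀ + H * x) * conj (ee n (t₀ + H * x)) * gs x) := by
  refine Integrable.const_mul (mv_int_gs.ofReal.bdd_mul (c := 1) ?_ (.of_forall fun x => ?_)) c
  · exact (by fun_prop : Continuous fun x : ℝ =>
      ee m (t₀ + H * x) * star (ee n (t₀ + H * x))).aestronglyMeasurable
  · rw [norm_mul, norm_conj, norm_ee, norm_ee, mul_one]

theorem mv_log_lt {m n : ℕ} {Y : ℝ} (hn : 1 ≤ n) (h : n < m) (hm : (m : ℝ) ≤ Y) :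
    1 / Y ≤ Real.log m - Real.log n := by
  have a : (1 : ℝ) ≤ n := by exact_mod_cast hn
  have b : (n : ℝ) + 1 ≤ m := by exact_mod_cast h
  have c := Real.log_le_sub_one_of_pos (x := (n : ℝ) / m) (by apply div_pos <;> linarith)
  rw [Real.log_div (by linarith) (by linarith)] at c
  have d : 1 / Y ≤ 1 / (m : ℝ) := one_div_le_one_div_of_le (by linarith) hm
  have e : 1 / (m : ℝ) ≤ 1 - n / m := by
    rw [le_sub_iff_add_le, ← add_div, div_le_one (by linarith)]; linarith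
  linarith

theorem mv_gs_le {m n : ℕ} {Y : ℝ} (H : ℝ) (hm : 1 ≤ m ∧ (m : ℝ) ≤ Y) (hn : 1 ≤ n ∧ (n : ℝ) ≤ Y)
    (h : m ≠ n) : gs (H * (Real.log n - Real.log m)) ≤ gs (H / Y) := by
  have a : (1 : ℝ) ≤ m := by exact_mod_cast hm.1
  have y : 0 ≤ 1 / Y := by apply div_nonneg <;> linarith [hm.2]
  have k : (1 / Y) ^ 2 ≤ (Real.log n - Real.log m) ^ 2 := by
    rcases h.lt_or_gt with h | h
    · exact pow_le_pow_left₀ y (mv_log_lt hm.1 h hn.2) 2
    · rw [← neg_sub, neg_sq]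
      exact pow_le_pow_left₀ y (mv_log_lt hn.1 h hm.2) 2
  refine Real.exp_le_exp.2 ?_
  rw [div_eq_mul_one_div H, mul_pow, mul_pow]
  nlinarith [mul_le_mul_of_nonneg_left k (sq_nonneg H)]

section MV
variable {ι κ : Type} {A : Finset ι} {B : Finset κ} {Y H : ℝ}

open Classical in
theorem mv (t₀ : ℝ) (a : ι → ℂ) (b : κ → ℂ) {m : ι → ℕ} {n : κ → ℕ}
    (hm : ∀ i ∈ A, 1 ≤ m i ∧ (m i : ℝ) ≤ Y) (hn : ∀ j ∈ B, 1 ≤ n j ∧ (n j : ℝ) ≤ Y) :
    ‖(∫ x : ℝ, (∑ i ∈ A, a i * ee (m i) (t₀ + H * x)) *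
        conj (∑ j ∈ B, b j * ee (n j) (t₀ + H * x)) * gs x) -
      (√(2 * Real.pi) : ℝ) * ∑ i ∈ A, ∑ j ∈ B, if m i = n j then a i * conj (b j) else 0‖ ≤
      √(2 * Real.pi) * gs (H / Y) * ((∑ i ∈ A, ‖a i‖) * ∑ j ∈ B, ‖b j‖) := by
  have e : ∀ x : ℝ, (∑ i ∈ A, a i * ee (m i) (t₀ + H * x)) *
      conj (∑ j ∈ B, b j * ee (n j) (t₀ + H * x)) * gs x = ∑ i ∈ A, ∑ j ∈ B, a i * conj (b j) *
        (ee (m i) (t₀ + H * x) * conj (ee (n j) (t₀ + H * x)) * gs x) := fun x => by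
    rw [map_sum, sum_mul_sum, sum_mul]
    refine sum_congr rfl fun i _ => ?_
    rw [sum_mul]
    refine sum_congr rfl fun j _ => ?_
    rw [map_mul]; ring
  simp_rw [e]
  rw [integral_finsetSum _ fun i _ => integrable_finsetSum _ fun j _ => mv_intg .., mul_sum,
    ← sum_sub_distrib, sum_mul_sum, mul_sum]
  refine norm_sum_le_of_le _ fun i hi => ?_
  rw [integral_finsetSum _ fun j _ => mv_intg .., mul_sum, ← sum_sub_distrib, mul_sum]
  refine norm_sum_le_of_le _ fun j hj => ?_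
  simp_rw [mv_prod, mul_assoc (ee (m i) t₀ * conj (ee (n j) t₀))]
  rw [integral_const_mul, integral_const_mul, mv_four]
  have p := gs_pos (H / Y)
  split_ifs with h
  · have u : ee (n j) t₀ * conj (ee (n j) t₀) = 1 := by
      rw [mul_conj', norm_ee]; simp
    rw [h, u, sub_self, mul_zero, show gs 0 = 1 by simp [gs], ofReal_one, one_mul, mul_one,
      mul_comm, sub_self, norm_zero]
    positivity
  · have k := mv_gs_le H (hm i hi) (hn j hj) h
    rw [mul_zero, sub_zero]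
    simp only [norm_mul, norm_conj, norm_ee, norm_real, Real.norm_eq_abs, one_mul]
    rw [abs_of_nonneg (Real.sqrt_nonneg _), abs_of_pos (gs_pos _), mul_comm]
    gcongr

open Classical in
theorem mv_sq (t₀ : ℝ) (a : ι → ℂ) {m : ι → ℕ} (hm : ∀ i ∈ A, 1 ≤ m i ∧ (m i : ℝ) ≤ Y)
    (h : #A * gs (H / Y) ≤ 1) : ∫ x : ℝ, ‖∑ i ∈ A, a i * ee (m i) (t₀ + H * x)‖ ^ 2 * gs x ≤
      2 * √(2 * Real.pi) * ∑ i ∈ A, ∑ j ∈ A, if m i = m j then ‖a i‖ * ‖a j‖ else 0 := by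
  have k := mv (H := H) t₀ a a hm hm
  simp_rw [mul_conj', ← ofReal_pow, ← ofReal_mul] at k
  rw [integral_complex_ofReal] at k
  set S := ∑ i ∈ A, ∑ j ∈ A, if m i = m j then ‖a i‖ * ‖a j‖ else 0 with hS
  have h1 : ‖∑ i ∈ A, ∑ j ∈ A, if m i = m j then a i * conj (a j) else 0‖ ≤ S := by
    refine norm_sum_le_of_le _ fun i _ => norm_sum_le_of_le _ fun j _ => ?_
    split_ifs <;> simp
  have h2 : ∑ i ∈ A, ‖a i‖ ^ 2 ≤ S := by
    refine sum_le_sum fun i hi => ?_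
    have := single_le_sum (f := fun j => if m i = m j then ‖a i‖ * ‖a j‖ else 0)
      (fun j _ => by split_ifs <;> positivity) hi
    simpa [sq] using this
  have h3 : (∑ i ∈ A, ‖a i‖) * ∑ j ∈ A, ‖a j‖ ≤ #A * S := by
    rw [← sq]
    exact sq_sum_le_card_mul_sum_sq.trans (by gcongr)
  have h4 : 0 ≤ S := (norm_nonneg _).trans h1
  have p := gs_pos (H / Y)
  have q := Real.sqrt_nonneg (2 * Real.pi)
  have h5 := (norm_le_norm_add_norm_sub' _ _).trans (add_le_add le_rfl k)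
  rw [norm_mul, norm_real, norm_real, Real.norm_of_nonneg q] at h5
  have h6 : gs (H / Y) * ((∑ i ∈ A, ‖a i‖) * ∑ j ∈ A, ‖a j‖) ≤ S := by
    refine (mul_le_mul_of_nonneg_left h3 p.le).trans ?_
    nlinarith
  refine (le_abs_self _).trans (h5.trans ?_)
  nlinarith [mul_le_mul_of_nonneg_left h1 q, mul_le_mul_of_nonneg_left h6 q]

end MV

end Pool.Agent.Lib.MP_31bf45_nt.Om
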