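import Pool.Agent.Lib.MP_31bf45_nt.Om.Loc
import Pool.Agent.Lib.MP_31bf45_nt.Om.KerB
import Pool.Agent.Lib.MP_31bf45_nt.Om.DetB

/-! The pointwise bound for the smoothed logarithm. -/

set_option autoImplicit false

namespace Pool.Agent.Lib.MP_31bf45_nt.Om

open Complex Finset MeasureTheory Metric Pool.Agent.Lib.MP_b09185_nt.Sh
open scoped ComplexConjugate

theorem pt_cont (K : ℕ) (b : ℕ → ℂ) : Continuous (QP K b) := by unfold QP; fun_prop

theorem pt_bd (K : ℕ) (b : ℕ → ℂ) (y : ℝ) : ‖QP K b y‖ ≤ ∑ n ∈ Icc 1 K, ‖b n / (√n : ℝ)‖ :=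
  (norm_sum_le _ _).trans (sum_le_sum fun n _ => by rw [norm_mul, norm_ee, mul_one])

theorem pt_int (K : ℕ) (b : ℕ → ℂ) (t : ℝ) (j : ℕ) :
    Integrable fun v : ℝ => ‖QP K b (t + v)‖ ^ j * Real.exp (-(1 / 4) * v ^ 2) := by
  have hc := pt_cont K b
  refine (integrable_exp_neg_mul_sq (by norm_num : (0 : ℝ) < 1 / 4)).bdd_mul
    (c := (∑ n ∈ Icc 1 K, ‖b n / (√n : ℝ)‖) ^ j) (by fun_prop) (.of_forall fun v => ?_)
  rw [Real.norm_of_nonneg (by positivity)]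
  exact pow_le_pow_left₀ (norm_nonneg _) (pt_bd K b _) j

theorem pt_shift (K : ℕ) (b : ℕ → ℂ) {t γ η : ℝ} (h : |γ - t| ≤ 5) (hη : 0 < η) :
    ∫ v, ‖QP K b (γ + v)‖ * gs v ≤ Real.exp (25 / 2) * (4 * η + 1 / (4 * η) *
      ∫ v, ‖QP K b (t + v)‖ ^ 2 * Real.exp (-(1 / 4) * v ^ 2)) := by
  have hw := integrable_exp_neg_mul_sq (by norm_num : (0 : ℝ) < 1 / 4)
  have h4 : ∫ v : ℝ, Real.exp (-(1 / 4) * v ^ 2) ≤ 4 := by
    rw [integral_gaussian]
    exact Real.sqrt_le_iff.2 ⟨by norm_num, by have := Real.pi_le_four; linarith⟩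
  rw [← integral_add_right_eq_self _ (t - γ)]
  calc _ ≤ ∫ v, Real.exp (25 / 2) * (η * Real.exp (-(1 / 4) * v ^ 2) + 1 / (4 * η) *
        (‖QP K b (t + v)‖ ^ 2 * Real.exp (-(1 / 4) * v ^ 2))) := by
        refine integral_mono_of_nonneg (.of_forall fun v => ?_)
          (((hw.const_mul _).add ((pt_int K b t 2).const_mul _)).const_mul _) (.of_forall fun v => ?_)
        · exact mul_nonneg (norm_nonneg _) (gs_pos _).le
        · have e1 : gs (v + (t - γ)) ≤ Real.exp (25 / 2) * Real.exp (-(1 / 4) * v ^ 2) := by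
            rw [gs, ← Real.exp_add]
            have := abs_le.1 h
            exact Real.exp_le_exp.2 (by nlinarith [sq_nonneg (v + 2 * (t - γ))])
          have e2 : ‖QP K b (t + v)‖ ≤ η + 1 / (4 * η) * ‖QP K b (t + v)‖ ^ 2 := by
            rw [one_div, inv_mul_eq_div, ← sub_le_iff_le_add', le_div_iff₀ (by positivity)]
            nlinarith [sq_nonneg (‖QP K b (t + v)‖ - 2 * η)]
          dsimp only
          rw [show γ + (v + (t - γ)) = t + v by ring]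
          calc _ ≤ (η + 1 / (4 * η) * ‖QP K b (t + v)‖ ^ 2) *
                (Real.exp (25 / 2) * Real.exp (-(1 / 4) * v ^ 2)) :=
                mul_le_mul e2 e1 (gs_pos _).le (by positivity)
            _ = _ := by ring
    _ ≤ _ := by
        rw [integral_const_mul, integral_add (hw.const_mul _) ((pt_int K b t 2).const_mul _),
          integral_const_mul, integral_const_mul, mul_comm 4 η]
        gcongr

theorem pt_im {ε : ℝ} (hε : ε = 1 ∨ ε = -1) (z : ℂ) : ε * z.im ≤ ‖z‖ := by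
  have := abs_le.1 (abs_im_le_norm z)
  rcases hε with rfl | rfl <;> linarith

theorem pt : ∃ (C : ℝ) (Z0 : ℕ), 0 ≤ C ∧ ∀ Z : ℕ, Z0 ≤ Z → ∃ b : Fin 3 → ℕ → ℂ,
    (∀ i, Dv (b i)) ∧ ∀ (κ t δ ε M : ℝ) (Y : ℕ), 1 ≤ κ → 20 ≤ t → t + 5 ≤ (Z : ℝ) ^ 1000 → 0 < δ →
      δ * κ ≤ 1 → (ε = 1 ∨ ε = -1) → 0 ≤ M → Real.exp (6 * κ ^ 2) ≤ Y →
      (∀ y s : ℝ, |y - t| ≤ 2 → IsS y s → ε * s ≤ M) →
      ε * (∑ n ∈ Icc 1 Y, cc κ n * ee n t).im ≤ (Real.pi * M + 2 +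
        C * (δ ^ 2 * κ ^ 2 + κ * Real.exp (-κ ^ 2 / 4)) * Real.log t) +
        C * Y / (δ ^ 2 * (Z : ℝ) ^ δ) * ∑ i,
          ∫ v, ‖QP (Z ^ 560) (b i) (t + v)‖ ^ 2 * Real.exp (-(1 / 4) * v ^ 2) := by
  obtain ⟨C1, c1, H1⟩ := loc
  obtain ⟨C2, Z0, c2, H2⟩ := det'
  set c := C2 * Real.exp (25 / 2) + 1 with hc
  have c0 : 0 < c := by positivity
  refine ⟨C1 + 12 * c ^ 2, Z0, by positivity, fun Z hZ => ?_⟩
  obtain ⟨b, hb, H⟩ := H2 Z hZ
  refine ⟨b, hb, fun κ t δ ε M Y hκ ht htZ hδ hδκ hε hM hY hS => ?_⟩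
  have hZ0 : (0 : ℝ) < Z := by
    rcases Nat.eq_zero_or_pos Z with rfl | h
    · norm_num at htZ; linarith
    · exact_mod_cast h
  set S := ∑ i, ∫ v, ‖QP (Z ^ 560) (b i) (t + v)‖ ^ 2 * Real.exp (-(1 / 4) * v ^ 2) with hSdef
  have S0 : 0 ≤ S := sum_nonneg fun i _ => integral_nonneg fun v => by positivity
  have hl : 0 ≤ Real.log t := Real.log_nonneg (by linarith)
  have hA : 0 ≤ (δ ^ 2 * κ ^ 2 + κ * Real.exp (-κ ^ 2 / 4)) * Real.log t := by positivity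
  have hB : 0 ≤ Y / (δ ^ 2 * (Z : ℝ) ^ δ) * S := by positivity
  rw [mul_assoc (C1 + 12 * c ^ 2), mul_div_assoc, mul_assoc (C1 + 12 * c ^ 2)]
  by_cases hz : ∀ ρ : ℂ, riemannZeta ρ = 0 → |ρ.im - t| ≤ 5 → ρ.re ≤ 1 / 2 + δ
  · have h1 := H1 κ t δ ε M hκ ht hδ.le hδκ hε hM hz hS
    have h2 := pt_im hε (∑ n ∈ Icc 1 Y, cc κ n * ee n t - DD κ t)
    rw [norm_sub_rev, sub_im, mul_sub] at h2
    have h3 := trunc (by linarith) hY t
    rw [mul_assoc C1] at h1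
    have := mul_nonneg (sq_nonneg c) hA
    have := mul_nonneg (sq_nonneg c) hB
    have := mul_nonneg c1 hB
    nlinarith
  · push Not at hz
    obtain ⟨ρ, h0, h1, h2⟩ := hz
    have h3 := abs_le.1 h1
    have hγ : |ρ.im| = ρ.im := abs_of_nonneg (by linarith)
    have h4 := H δ ρ.re ρ.im hδ h2.le (by linarith) (by linarith) (by rwa [re_add_im])
    set l := δ * (Z : ℝ) ^ (δ / 2) with hldef
    have l0 : 0 < l := by positivity
    have l2 : δ ^ 2 * (Z : ℝ) ^ δ = l ^ 2 := by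
      rw [hldef, mul_pow, ← Real.rpow_natCast (_ ^ (δ / 2)), ← Real.rpow_mul hZ0.le]
      norm_num
    have h5 : ∑ i, ∫ v, ‖QP (Z ^ 560) (b i) (ρ.im + v)‖ * gs v ≤
        Real.exp (25 / 2) * (l / (2 * c) + 6 * c / l * S) := by
      refine (sum_le_sum fun i _ =>
        pt_shift _ (b i) h1 (η := l / (24 * c)) (by positivity)).trans_eq ?_
      rw [← mul_sum, sum_add_distrib, sum_const, card_univ, Fintype.card_fin, nsmul_eq_mul,
        ← mul_sum, ← hSdef, show 1 / (4 * (l / (24 * c))) = 6 * c / l by field_simp; norm_num]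
      congr 2
      push_cast; field_simp; norm_num
    have h6 : l ≤ c * (l / (2 * c) + 6 * c / l * S) := by
      refine (h4.trans (mul_le_mul_of_nonneg_left h5 c2)).trans ?_
      rw [← mul_assoc]
      exact mul_le_mul_of_nonneg_right (by linarith) (by positivity)
    have h7 : l ^ 2 ≤ 12 * c ^ 2 * S := by
      have e : c * (l / (2 * c) + 6 * c / l * S) = l / 2 + 6 * c ^ 2 * S / l := by field_simp
      rw [e, ← sub_le_iff_le_add', le_div_iff₀ l0] at h6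
      nlinarith
    have h8 : ‖∑ n ∈ Icc 1 Y, cc κ n * ee n t‖ ≤ Y := by
      refine (norm_sum_le _ _).trans ((sum_le_sum fun n _ => (?_ : _ ≤ (1 : ℝ))).trans (by simp))
      rw [norm_mul, norm_ee, mul_one, norm_real, Real.norm_of_nonneg (cc_mem κ n).1]
      exact (cc_mem κ n).2
    have h9 : (Y : ℝ) ≤ 12 * c ^ 2 * (Y / (δ ^ 2 * (Z : ℝ) ^ δ) * S) := by
      rw [l2, show 12 * c ^ 2 * (Y / l ^ 2 * S) = Y * (12 * c ^ 2 * S) / l ^ 2 by ring,
        le_div_iff₀ (by positivity)]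
      exact mul_le_mul_of_nonneg_left h7 (Nat.cast_nonneg _)
    have := pt_im hε (∑ n ∈ Icc 1 Y, cc κ n * ee n t)
    have := mul_nonneg (sq_nonneg c) hA
    have := mul_nonneg c1 hA
    have := mul_nonneg c1 hB
    have := mul_nonneg Real.pi_pos.le hM
    nlinarith

end Pool.Agent.Lib.MP_31bf45_nt.Om
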