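import Pool.Agent.Lib.MP_31bf45_nt.Om.Def
import Pool.Agent.Lib.MP_b09185_nt.ShKer

/-! Gaussian average of the argument of one linear factor. -/

set_option autoImplicit false

namespace Pool.Agent.Lib.MP_31bf45_nt.Om

open Complex Set Filter Topology MeasureTheory

variable {κ : ℝ}

lemma zr_gs (u : ℝ) : gs (κ * u) = Real.exp (-(κ ^ 2 / 2) * u ^ 2) := by
  rw [gs]; congr 1; ring

lemma zr_int (h : 0 < κ) : Integrable fun u => gs (κ * u) := by
  simp only [zr_gs]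
  exact integrable_exp_neg_mul_sq (by positivity)

lemma zr_mass (h : 0 < κ) : ∫ u, gs (κ * u) ≤ 3 / κ := by
  simp only [zr_gs]
  rw [integral_gaussian, Real.sqrt_le_iff]
  refine ⟨by positivity, ?_⟩
  rw [div_pow, div_le_div_iff₀ (by positivity) (by positivity)]
  nlinarith [Real.pi_le_four, sq_nonneg κ]

lemma zr_norm (x u : ℝ) : ‖kk κ (x + u * I)‖ = Real.exp (κ ^ 2 * x ^ 2 / 2) * gs (κ * u) := by
  rw [norm_kk, zr_gs, ← Real.exp_add]; congr 1; ring

lemma zr_shift (h : 1 ≤ κ) {F : ℂ → ℂ} {a b A : ℝ} (hab : a ≤ b) (hA : 0 ≤ A)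
    (hF : DifferentiableOn ℂ F (Icc a b ×ℂ univ))
    (hK : ∀ x ∈ Icc a b, ∀ y : ℝ, ‖F (x + y * I)‖ ≤ A + |y|) :
    (∀ x ∈ Icc a b, Integrable fun y : ℝ => F (x + y * I) * kk κ (x + y * I)) ∧
      ∫ y : ℝ, F (a + y * I) * kk κ (a + y * I) = ∫ y : ℝ, F (b + y * I) * kk κ (b + y * I) := by
  refine MP_b09185_nt.Sh.shift_gauss (G := fun z => F z * kk κ z)
    (D := Real.exp (κ ^ 2 * (a ^ 2 + b ^ 2) / 2) * (A + 1)) hab
    (hF.mul (by unfold kk; fun_prop)) fun x hx y => ?_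
  rw [norm_mul, zr_norm]
  have e1 : Real.exp (κ ^ 2 * x ^ 2 / 2) ≤ Real.exp (κ ^ 2 * (a ^ 2 + b ^ 2) / 2) := by
    gcongr
    rcases le_total 0 x with c | c <;> nlinarith [hx.1, hx.2]
  have e2 : gs (κ * y) ≤ Real.exp (-(1 / 4) * y ^ 2) * Real.exp (-(1 / 4) * y ^ 2) := by
    rw [zr_gs, ← Real.exp_add]
    gcongr
    nlinarith [mul_nonneg (show 0 ≤ κ ^ 2 - 1 by nlinarith) (sq_nonneg y), sq_nonneg y]
  have e3 : (A + |y|) * Real.exp (-(1 / 4) * y ^ 2) ≤ A + 1 := by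
    have a1 : Real.exp (-(1 / 4) * y ^ 2) ≤ 1 := Real.exp_le_one_iff.2 (by nlinarith [sq_nonneg y])
    have a2 : |y| ≤ Real.exp ((1 / 4) * y ^ 2) := by
      nlinarith [Real.add_one_le_exp ((1 / 4) * y ^ 2), sq_abs y, sq_nonneg (|y| - 2)]
    have a3 : Real.exp ((1 / 4) * y ^ 2) * Real.exp (-(1 / 4) * y ^ 2) = 1 := by
      rw [← Real.exp_add]; simp
    nlinarith [Real.exp_pos (-(1 / 4) * y ^ 2)]
  calc _ ≤ (A + |y|) * (Real.exp (κ ^ 2 * (a ^ 2 + b ^ 2) / 2) *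
        (Real.exp (-(1 / 4) * y ^ 2) * Real.exp (-(1 / 4) * y ^ 2))) := by
        have := (gs_pos (κ * y)).le
        gcongr
        exact hK x hx y
    _ = Real.exp (κ ^ 2 * (a ^ 2 + b ^ 2) / 2) * ((A + |y|) * Real.exp (-(1 / 4) * y ^ 2)) *
        Real.exp (-(1 / 4) * y ^ 2) := by ring
    _ ≤ _ := by gcongr

lemma zr_log_le {z : ℂ} {η : ℝ} (h0 : 0 < η) (h : η ≤ ‖z‖) : ‖log z‖ ≤ ‖z‖ + η⁻¹ + 4 := by
  have z0 : 0 < ‖z‖ := h0.trans_le h
  refine (norm_le_abs_re_add_abs_im _).trans ?_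
  rw [log_re, log_im]
  have a1 := abs_arg_le_pi z
  have a2 := Real.log_le_sub_one_of_pos z0
  have a3 := Real.one_sub_inv_le_log_of_pos z0
  have a4 : ‖z‖⁻¹ ≤ η⁻¹ := inv_anti₀ h0 h
  have a5 : 0 < η⁻¹ := inv_pos.2 h0
  have a6 : |Real.log ‖z‖| ≤ ‖z‖ + η⁻¹ := abs_le.2 ⟨by linarith, by linarith⟩
  linarith [Real.pi_le_four]

/-- the analytic average -/
noncomputable def zrH (κ c : ℝ) (a : ℂ) : ℂ := ∫ u : ℝ, log (c + u * I - a) * kk κ (c + u * I)

/-- the average of the argument -/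
noncomputable def zrK (κ : ℝ) (a : ℂ) : ℝ := ∫ u : ℝ, arg (u * I - a) * gs (κ * u)

lemma zrH_shift (h : 1 ≤ κ) {a : ℂ} {c e : ℝ} (h1 : a.re < c) (h2 : c ≤ e) :
    (Integrable fun u : ℝ => log (c + u * I - a) * kk κ (c + u * I)) ∧ zrH κ c a = zrH κ e a := by
  have := zr_shift h (F := fun z => log (z - a)) (A := |c| + |e| + ‖a‖ + (c - a.re)⁻¹ + 4) h2
    (by have := inv_pos.2 (sub_pos.2 h1); positivity)
    (fun z hz => ((differentiableAt_id.sub_const a).clog (Or.inl (by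
      have := (mem_reProdIm.1 hz).1.1
      simp only [id, sub_re]; linarith))).differentiableWithinAt) fun x hx y => by
      refine (zr_log_le (sub_pos.2 h1) (le_trans ?_ (re_le_norm _))).trans ?_
      · simp; linarith [hx.1]
      · have a1 := norm_sub_le (x + y * I : ℂ) a
        have a2 := norm_add_le (x : ℂ) (y * I)
        have a3 : |x| ≤ |c| + |e| := by
          have := abs_nonneg c; have := abs_nonneg e
          exact abs_le.2 ⟨by linarith [neg_abs_le c, hx.1], by linarith [le_abs_self e, hx.2]⟩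
        simp only [norm_real, Real.norm_eq_abs, norm_mul, norm_I, mul_one] at a2
        linarith
  exact ⟨this.1 c ⟨le_rfl, h2⟩, this.2⟩

lemma zrK_int (h : 0 < κ) (a : ℂ) : Integrable fun u : ℝ => arg (u * I - a) * gs (κ * u) :=
  (zr_int h).bdd_mul (c := Real.pi)
    (measurable_arg.comp (by fun_prop)).aestronglyMeasurable
    (Eventually.of_forall fun _ => abs_arg_le_pi _)

lemma zrK_neg (h : 1 ≤ κ) {a : ℂ} (h1 : a.re < 0) {c : ℝ} (hc : 0 ≤ c) :
    zrK κ a = (zrH κ c a).im := by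
  obtain ⟨i, e⟩ := zrH_shift h h1 hc
  rw [← e, zrH, zrK, ← RCLike.im_to_complex, ← integral_im i]
  refine integral_congr_ae (Eventually.of_forall fun u => ?_)
  simp only [kk_zero, RCLike.im_to_complex]
  simp [log_im]

lemma zr_log_add {z : ℂ} {c : ℝ} (c0 : 0 < c) (hz : c ≤ z.re) {x : ℝ} (hx : |x| ≤ c / 2) :
    ‖(x : ℂ) / z‖ ≤ |x| / c ∧ ‖(x : ℂ) / z‖ ≤ 1 / 2 ∧ log (z + x) = log z + log (1 + x / z) := by
  have z1 : c ≤ ‖z‖ := hz.trans (re_le_norm z)
  have z0 : z ≠ 0 := norm_pos_iff.1 (c0.trans_le z1)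
  have a1 : ‖(x : ℂ) / z‖ ≤ |x| / c := by
    rw [norm_div, norm_real, Real.norm_eq_abs]; gcongr
  have a2 : ‖(x : ℂ) / z‖ ≤ 1 / 2 := a1.trans (by rw [div_le_iff₀ c0]; linarith)
  have a3 : 0 < (1 + (x : ℂ) / z).re := by
    have := (abs_le.1 ((abs_re_le_norm _).trans a2)).1
    rw [add_re, one_re]; linarith
  refine ⟨a1, a2, ?_⟩
  rw [show z + x = z * (1 + x / z) by field_simp]
  have b1 := abs_lt.1 (abs_arg_lt_pi_div_two_iff.2 (Or.inl (c0.trans_le hz)))
  have b2 := abs_lt.1 (abs_arg_lt_pi_div_two_iff.2 (Or.inl a3))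
  exact (log_mul_eq_add_log_iff z0 (fun e => by simp [e] at a3)).2 ⟨by linarith, by linarith⟩

lemma zr_bound (h : 0 < κ) (c : ℝ) {F : ℝ → ℂ} {B : ℝ} (hB : ∀ u, ‖F u‖ ≤ B) :
    ‖∫ u : ℝ, F u * kk κ (c + u * I)‖ ≤ B * (Real.exp (κ ^ 2 * c ^ 2 / 2) * (3 / κ)) := by
  have B0 := (norm_nonneg _).trans (hB 0)
  refine (norm_integral_le_of_norm_le
    (((zr_int h).const_mul (Real.exp (κ ^ 2 * c ^ 2 / 2))).const_mul B)
    (Eventually.of_forall fun u => ?_)).trans ?_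
  · rw [norm_mul, zr_norm]
    have := (gs_pos (κ * u)).le
    gcongr
    exact hB u
  · rw [integral_const_mul, integral_const_mul]
    gcongr
    exact zr_mass h

lemma zrK_zero (h : 1 ≤ κ) {a : ℂ} (h1 : a.re = 0) {c : ℝ} (hc : 0 < c) :
    zrK κ a = (zrH κ c a).im := by
  have h0 : 0 < κ := by linarith
  have t1 : ContinuousAt (fun ε : ℝ => zrK κ (a - ε)) 0 := by
    refine continuousAt_of_dominated (bound := fun u => Real.pi * gs (κ * u))
      (Eventually.of_forall fun ε => (zrK_int h0 _).1)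
      (Eventually.of_forall fun ε => Eventually.of_forall fun u => ?_) ((zr_int h0).const_mul _) ?_
    · rw [norm_mul, Real.norm_of_nonneg (gs_pos _).le]
      exact mul_le_mul_of_nonneg_right (abs_arg_le_pi _) (gs_pos _).le
    · filter_upwards [compl_mem_ae_iff.2 (measure_singleton a.im)] with u hu
      refine (ContinuousAt.comp (f := fun ε : ℝ => u * I - (a - ε))
        (continuousAt_arg (Or.inr ?_)) (by fun_prop)).mul continuousAt_const
      simpa [sub_eq_zero] using hu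
  have t2 : Tendsto (fun ε : ℝ => zrH κ c (a - ε)) (𝓝[>] 0) (𝓝 (zrH κ c a)) := by
    rw [tendsto_iff_norm_sub_tendsto_zero]
    have t3 : Tendsto (fun ε : ℝ => 3 / 2 * (|ε| / c) * (Real.exp (κ ^ 2 * c ^ 2 / 2) * (3 / κ)))
        (𝓝[>] 0) (𝓝 (3 / 2 * (|0| / c) * (Real.exp (κ ^ 2 * c ^ 2 / 2) * (3 / κ)))) :=
      (Continuous.tendsto (by fun_prop) 0).mono_left nhdsWithin_le_nhds
    simp only [abs_zero, zero_div, mul_zero, zero_mul] at t3
    refine squeeze_zero' (Eventually.of_forall fun _ => norm_nonneg _) ?_ t3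
    filter_upwards [Ioo_mem_nhdsGT (half_pos hc)] with ε hε
    rw [zrH, zrH, ← integral_sub (zrH_shift h (by simp; linarith [hε.1]) le_rfl).1
      (zrH_shift h (by linarith) le_rfl).1]
    simp only [← sub_mul]
    refine zr_bound h0 c fun u => ?_
    obtain ⟨a1, a2, a3⟩ := zr_log_add (z := c + u * I - a) hc (by simp [h1]) (x := ε)
      (by rw [abs_of_pos hε.1]; exact hε.2.le)
    rw [show (c + u * I - (a - ε) : ℂ) = c + u * I - a + ε by ring, a3, add_sub_cancel_left]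
    exact (norm_log_one_add_half_le_self a2).trans (by gcongr)
  have t4 := (continuous_im.tendsto _).comp t2
  have t5 := t1.tendsto.mono_left (nhdsWithin_le_nhds (s := Ioi 0))
  simp only [ofReal_zero, sub_zero] at t5
  refine tendsto_nhds_unique (t5.congr' ?_) t4
  filter_upwards [self_mem_nhdsWithin] with ε (hε : 0 < ε)
  exact zrK_neg h (by simp; linarith) hc.le

lemma zr_arg {x y : ℝ} (hy : y ≠ 0) :
    arg (y * I - x) = 2 * arg (y * I) - arg (y * I + x) := by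
  have e : (y * I - x : ℂ) = -(starRingEnd ℂ) (y * I + x) := by simp; ring
  have n : arg (y * I + x : ℂ) ≠ Real.pi := fun c => hy (by simpa using (arg_eq_pi_iff.1 c).2)
  rcases hy.lt_or_gt with c | c
  · rw [e, arg_neg_eq_arg_sub_pi_of_im_pos (by simpa using c), arg_conj, if_neg n,
      (arg_eq_neg_pi_div_two_iff (z := y * I)).2 (by simpa using c)]
    ring
  · rw [e, arg_neg_eq_arg_add_pi_of_im_neg (by simpa using c), arg_conj, if_neg n,
      (arg_eq_pi_div_two_iff (z := y * I)).2 (by simpa using c)]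
    ring

/-- one zero costs a second order term -/
theorem zrK_sub (h1 : 1 ≤ κ) {d : ℝ} (hd : d * κ ≤ 1) {a : ℂ} (ha : a.re ≤ d) :
    |(zrH κ (3 / 2) a).im - zrK κ a| ≤ 12 * d ^ 2 * κ := by
  have h0 : 0 < κ := by linarith
  rcases lt_trichotomy a.re 0 with c | c | c
  · rw [zrK_neg h1 c (c := 3 / 2) (by norm_num)]; simp; positivity
  · rw [zrK_zero h1 c (c := 3 / 2) (by norm_num)]; simp; positivity
  set x := a.re with hx
  set b : ℂ := a.im * I with hb
  have ea : a = b + x := by rw [hb, add_comm, re_add_im]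
  have c0 : 0 < 2 / κ := by positivity
  have c2 : x ≤ 2 / κ / 2 := by
    rw [show 2 / κ / 2 = 1 / κ by ring, le_div_iff₀ h0]; nlinarith
  have c3 : x < 2 / κ := by linarith
  have c4 : x < 3 / 2 := by nlinarith
  have c1 : zrH κ (3 / 2) a = zrH κ (2 / κ) a := by
    rcases le_total (2 / κ) (3 / 2) with e | e
    · exact (zrH_shift h1 c3 e).2.symm
    · exact (zrH_shift h1 c4 e).2
  have k : zrK κ a = 2 * zrK κ b - zrK κ (b - x) := by
    rw [zrK, zrK, zrK, ← integral_const_mul,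
      ← integral_sub ((zrK_int h0 _).const_mul _) (zrK_int h0 _)]
    refine integral_congr_ae ?_
    filter_upwards [compl_mem_ae_iff.2 (measure_singleton a.im)] with u hu
    have := zr_arg (x := x) (y := u - a.im) (by simpa [sub_eq_zero] using hu)
    rw [show (u * I - a : ℂ) = (u - a.im : ℝ) * I - x by rw [ea, hb]; simp; ring,
      show (u * I - b : ℂ) = (u - a.im : ℝ) * I by rw [hb]; push_cast; ring,
      show (u * I - (b - x) : ℂ) = (u - a.im : ℝ) * I + x by rw [hb]; push_cast; ring, this]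
    ring
  have r0 : b.re = 0 := by simp [hb]
  have r1 : (b - x).re < 0 := by simp [r0, c]
  rw [k, zrK_zero h1 r0 c0, zrK_neg h1 r1 c0.le, c1]
  have e : (zrH κ (2 / κ) a).im - (2 * (zrH κ (2 / κ) b).im - (zrH κ (2 / κ) (b - x)).im) =
      (zrH κ (2 / κ) a - (2 * zrH κ (2 / κ) b - zrH κ (2 / κ) (b - x))).im := by simp
  have i0 := (zrH_shift h1 (r0.trans_lt c0) le_rfl).1
  have i1 := (zrH_shift h1 (r1.trans c0) le_rfl).1
  have i2 := (zrH_shift h1 c3 le_rfl).1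
  rw [e, zrH, zrH, zrH, ← integral_const_mul, ← integral_sub (i0.const_mul _) i1,
    ← integral_sub i2 (by exact (i0.const_mul _).sub i1)]
  refine (abs_im_le_norm _).trans ?_
  simp only [← mul_assoc, ← sub_mul]
  refine (zr_bound h0 _ (B := (κ * d) ^ 2 / 2) fun u => ?_).trans ?_
  · set z : ℂ := (2 / κ : ℝ) + u * I - b with hz
    have z1 : 2 / κ ≤ z.re := by simp [hz, r0]
    obtain ⟨a1, a2, a3⟩ := zr_log_add c0 z1 (x := x) (by rwa [abs_of_pos c])
    obtain ⟨-, -, a4⟩ := zr_log_add c0 z1 (x := -x) (by rwa [abs_neg, abs_of_pos c])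
    set q : ℂ := x / z with hq
    have a5 : ((-x : ℝ) : ℂ) / z = -q := by rw [hq]; push_cast; ring
    rw [show ((2 / κ : ℝ) + u * I - (b - x) : ℂ) = z + x by rw [hz]; ring,
      show ((2 / κ : ℝ) + u * I - a : ℂ) = z + (-x : ℝ) by rw [hz, ea]; push_cast; ring, a3, a4, a5,
      show log z + log (1 + -q) - (2 * log z - (log z + log (1 + q))) =
        (log (1 + q) - q) + (log (1 + -q) - -q) by ring]
    have l : ∀ r : ℂ, ‖r‖ ≤ 1 / 2 → ‖log (1 + r) - r‖ ≤ ‖r‖ ^ 2 := fun r hr => by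
      refine (norm_log_one_add_sub_self_le (by linarith)).trans ?_
      have : (1 - ‖r‖)⁻¹ ≤ 2 := by rw [inv_le_comm₀ (by linarith) two_pos]; linarith
      nlinarith [sq_nonneg ‖r‖]
    have b1 := l q a2
    have b2 := l (-q) (by rwa [norm_neg])
    rw [norm_neg] at b2
    have b3 : ‖q‖ ≤ κ * d / 2 := a1.trans (by
      rw [abs_of_pos c, show x / (2 / κ) = κ * x / 2 by field_simp]; gcongr)
    have b4 : ‖q‖ ^ 2 ≤ (κ * d / 2) ^ 2 := by gcongr
    linarith [norm_add_le (log (1 + q) - q) (log (1 + -q) - -q)]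
  · rw [show κ ^ 2 * (2 / κ) ^ 2 / 2 = 2 by field_simp]
    have := MP_b09185_nt.Mai.exp_two_le
    calc _ ≤ (κ * d) ^ 2 / 2 * (8 * (3 / κ)) := by gcongr
      _ = _ := by field_simp; ring

theorem zero_one : ∃ C : ℝ, 0 ≤ C ∧ ∀ κ x α δ : ℝ, 1 ≤ κ → 0 ≤ δ → δ * κ ≤ 1 → α ≤ δ →
    |(∫ u : ℝ, log ((3 / 2 - α : ℝ) + (x + u : ℝ) * I) * kk κ ((3 / 2 : ℝ) + u * I)).im -
      ∫ u : ℝ, arg ((-α : ℝ) + (x + u : ℝ) * I) * gs (κ * u)| ≤ C * δ ^ 2 * κ := by
  refine ⟨12, by norm_num, fun κ x α δ h1 _ h2 h3 => ?_⟩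
  have := zrK_sub h1 h2 (a := α - x * I) (by simpa using h3)
  rw [zrH, zrK] at this
  have e1 : ∀ u : ℝ, ((3 / 2 - α : ℝ) + (x + u : ℝ) * I : ℂ) = (3 / 2 : ℝ) + u * I - (α - x * I) :=
    fun u => by push_cast; ring
  have e2 : ∀ u : ℝ, ((-α : ℝ) + (x + u : ℝ) * I : ℂ) = u * I - (α - x * I) :=
    fun u => by push_cast; ring
  simpa only [e1, e2] using this

end Pool.Agent.Lib.MP_31bf45_nt.Om
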